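import Mathlib

set_option autoImplicit false
set_option linter.unusedSectionVars false

namespace Pool.Agent.Lib.Pffaf6e

/-- reduction `ZMod (p^2) → ZMod p` -/
def red (p : ℕ) : ZMod (p ^ 2) →+* ZMod p := ZMod.castHom (dvd_pow_self p two_ne_zero) (ZMod p)

lemma red_natCast (p k : ℕ) : red p (k : ZMod (p ^ 2)) = (k : ZMod p) := map_natCast _ _

lemma red_intCast (p : ℕ) (k : ℤ) : red p (k : ZMod (p ^ 2)) = (k : ZMod p) := map_intCast _ _

lemma psq (p : ℕ) : (p : ZMod (p ^ 2)) * p = 0 := by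
  have : ((p ^ 2 : ℕ) : ZMod (p ^ 2)) = 0 := ZMod.natCast_self _
  rw [← this]; push_cast; ring

variable (p : ℕ) [hp : Fact p.Prime]

instance : NeZero (p ^ 2) := ⟨pow_ne_zero 2 hp.out.ne_zero⟩

lemma psq' (a b : ZMod (p ^ 2)) : (p : ZMod (p ^ 2)) * a * ((p : ZMod (p ^ 2)) * b) = 0 := by
  have := psq p
  calc (p : ZMod (p ^ 2)) * a * ((p : ZMod (p ^ 2)) * b)
      = ((p : ZMod (p ^ 2)) * p) * (a * b) := by ring
    _ = 0 := by rw [this, zero_mul]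

lemma isUnit_nat {k : ℕ} (h : ¬ p ∣ k) : IsUnit (k : ZMod (p ^ 2)) := by
  rw [ZMod.isUnit_iff_coprime]
  exact Nat.Coprime.pow_right 2 ((Nat.Prime.coprime_iff_not_dvd hp.out).mpr h).symm

lemma mul_inv_nat {k : ℕ} (h : ¬ p ∣ k) : (k : ZMod (p ^ 2)) * (k : ZMod (p ^ 2))⁻¹ = 1 :=
  ZMod.coe_mul_inv_eq_one k (Nat.Coprime.pow_right 2 ((Nat.Prime.coprime_iff_not_dvd hp.out).mpr h).symm)

lemma inv_mul_nat {k : ℕ} (h : ¬ p ∣ k) : (k : ZMod (p ^ 2))⁻¹ * (k : ZMod (p ^ 2)) = 1 := by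
  rw [mul_comm]; exact mul_inv_nat p h

lemma red_eq_zero_iff (a : ZMod (p ^ 2)) : red p a = 0 ↔ ∃ c, a = p * c := by
  constructor
  · intro h
    have ha : ((a.val : ℕ) : ZMod (p ^ 2)) = a := ZMod.natCast_zmod_val a
    rw [← ha, red_natCast, ZMod.natCast_eq_zero_iff] at h
    obtain ⟨c, hc⟩ := h
    refine ⟨c, ?_⟩
    rw [← ha, hc]; push_cast; rfl
  · rintro ⟨c, rfl⟩
    rw [map_mul, red_natCast]; simp

lemma red_eq_iff (a b : ZMod (p ^ 2)) : red p a = red p b ↔ ∃ c, a = b + p * c := by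
  rw [← sub_eq_zero, ← map_sub, red_eq_zero_iff]
  constructor
  · rintro ⟨c, hc⟩; exact ⟨c, by rw [← hc]; ring⟩
  · rintro ⟨c, hc⟩; exact ⟨c, by rw [hc]; ring⟩

lemma isUnit_of_red {a : ZMod (p ^ 2)} (h : red p a ≠ 0) : IsUnit a := by
  have ha : ((a.val : ℕ) : ZMod (p ^ 2)) = a := ZMod.natCast_zmod_val a
  rw [← ha] at h ⊢
  apply isUnit_nat p
  intro hd
  apply h
  rw [red_natCast, ZMod.natCast_eq_zero_iff]
  exact hd

lemma p_mul_eq {a b : ZMod (p ^ 2)} (h : red p a = red p b) :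
    (p : ZMod (p ^ 2)) * a = (p : ZMod (p ^ 2)) * b := by
  obtain ⟨c, rfl⟩ := (red_eq_iff p a b).mp h
  have := psq p
  rw [mul_add, ← mul_assoc, this, zero_mul, add_zero]

lemma p_mul_eq_iff {a b : ZMod (p ^ 2)} :
    (p : ZMod (p ^ 2)) * a = (p : ZMod (p ^ 2)) * b ↔ red p a = red p b := by
  refine ⟨?_, p_mul_eq p⟩
  intro h
  rw [← sub_eq_zero, ← mul_sub] at h
  rw [← sub_eq_zero, ← map_sub]
  by_contra hne
  have hu := isUnit_of_red p hne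
  have : (p : ZMod (p ^ 2)) = 0 := by
    obtain ⟨u, hu⟩ := hu
    rw [← hu] at h
    calc (p : ZMod (p ^ 2)) = (p : ZMod (p ^ 2)) * u * ((u⁻¹ : (ZMod (p ^ 2))ˣ) : ZMod (p ^ 2)) := by
          rw [mul_assoc, Units.mul_inv, mul_one]
      _ = 0 := by rw [h, zero_mul]
  rw [ZMod.natCast_eq_zero_iff] at this
  have h1 := Nat.le_of_dvd hp.out.pos this
  have h2 := hp.out.one_lt
  nlinarith

lemma pow_p_eq {a b : ZMod (p ^ 2)} (h : red p a = red p b) : a ^ p = b ^ p := by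
  obtain ⟨c, rfl⟩ := (red_eq_iff p a b).mp h
  have h1 : ((p : ZMod (p ^ 2))) ∣ (b + p * c) - b := ⟨c, by ring⟩
  have h2 := dvd_sub_pow_of_dvd_sub h1 1
  rw [pow_one] at h2
  have h3 : (p : ZMod (p ^ 2)) ^ (1 + 1) = 0 := by
    have := psq p
    rw [← pow_two] at this; exact this
  rw [h3, zero_dvd_iff, sub_eq_zero] at h2
  exact h2

end Pool.Agent.Lib.Pffaf6e
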