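import Mathlib
import Pool.Agent.Lib.Pffaf6e.Basic

set_option autoImplicit false
set_option linter.unusedSectionVars false

namespace Pool.Agent.Lib.Pffaf6e

variable (p : ℕ) [hp : Fact p.Prime]

/-- `x` is the reduction modulo `p^2` of the `p`-integral rational `q`. -/
def Red (q : ℚ) (x : ZMod (p ^ 2)) : Prop :=
  ∃ (a : ℤ) (b : ℕ), ¬ p ∣ b ∧ q = (a : ℚ) / (b : ℚ) ∧ x * (b : ZMod (p ^ 2)) = (a : ZMod (p ^ 2))

variable {p}

lemma b_ne {b : ℕ} (hb : ¬ p ∣ b) : (b : ℚ) ≠ 0 := by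
  intro h
  apply hb
  have : b = 0 := by exact_mod_cast h
  rw [this]; exact dvd_zero p

lemma Red.unique {q : ℚ} {x y : ZMod (p ^ 2)} (hx : Red p q x) (hy : Red p q y) : x = y := by
  obtain ⟨a, b, hb, hq, hx⟩ := hx
  obtain ⟨a', b', hb', hq', hy⟩ := hy
  have h1 : (a : ℚ) * b' = a' * b := by
    rw [hq] at hq'
    have := b_ne hb
    have := b_ne hb'
    field_simp at hq'
    linarith
  have h2 : (a : ZMod (p ^ 2)) * b' = a' * b := by
    have h3 : a * (b' : ℤ) = a' * (b : ℤ) := by exact_mod_cast h1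
    have h4 := congrArg (fun z : ℤ => (z : ZMod (p ^ 2))) h3
    push_cast at h4
    exact h4
  have u1 := isUnit_nat p hb
  have u2 := isUnit_nat p hb'
  have h5 : (x - y) * ((b : ZMod (p ^ 2)) * b') = 0 := by
    have : (x - y) * ((b : ZMod (p ^ 2)) * b') = (x * b) * b' - (y * b') * b := by ring
    rw [this, hx, hy, h2, sub_self]
  exact sub_eq_zero.mp (((u1.mul u2).mul_left_eq_zero).mp h5)

lemma Red.congr {q q' : ℚ} {x x' : ZMod (p ^ 2)} (h : Red p q x) (hq : q = q') (hx : x = x') :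
    Red p q' x' := by rw [← hq, ← hx]; exact h

lemma not_dvd_mul {b b' : ℕ} (hb : ¬ p ∣ b) (hb' : ¬ p ∣ b') : ¬ p ∣ b * b' := by
  intro h
  rcases hp.out.dvd_mul.mp h with h | h
  · exact hb h
  · exact hb' h

lemma Red.add {q r : ℚ} {x y : ZMod (p ^ 2)} (hx : Red p q x) (hy : Red p r y) :
    Red p (q + r) (x + y) := by
  obtain ⟨a, b, hb, rfl, hx⟩ := hx
  obtain ⟨a', b', hb', rfl, hy⟩ := hy
  refine ⟨a * b' + a' * b, b * b', not_dvd_mul hb hb', ?_, ?_⟩
  · have := b_ne hb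
    have := b_ne hb'
    push_cast
    field_simp
  · push_cast
    rw [← hx, ← hy]
    ring

lemma Red.mul {q r : ℚ} {x y : ZMod (p ^ 2)} (hx : Red p q x) (hy : Red p r y) :
    Red p (q * r) (x * y) := by
  obtain ⟨a, b, hb, rfl, hx⟩ := hx
  obtain ⟨a', b', hb', rfl, hy⟩ := hy
  refine ⟨a * a', b * b', not_dvd_mul hb hb', ?_, ?_⟩
  · have := b_ne hb
    have := b_ne hb'
    push_cast
    field_simp
  · push_cast
    rw [← hx, ← hy]
    ring

variable (p) in
lemma one_not_dvd : ¬ p ∣ 1 := by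
  intro h
  have := Nat.le_of_dvd one_pos h
  have := hp.out.one_lt
  omega

variable (p) in
lemma Red.int (a : ℤ) : Red p (a : ℚ) (a : ZMod (p ^ 2)) :=
  ⟨a, 1, one_not_dvd p, by simp, by simp⟩

variable (p) in
lemma Red.nat (a : ℕ) : Red p (a : ℚ) (a : ZMod (p ^ 2)) :=
  ⟨a, 1, one_not_dvd p, by simp, by simp⟩

variable (p) in
lemma Red.zero : Red p 0 0 := by
  have := Red.nat p 0
  simpa using this

variable (p) in
lemma Red.one : Red p 1 1 := by
  have := Red.nat p 1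
  simpa using this

lemma Red.neg {q : ℚ} {x : ZMod (p ^ 2)} (hx : Red p q x) : Red p (-q) (-x) := by
  have h := (Red.int p (-1)).mul hx
  refine h.congr ?_ ?_ <;> push_cast <;> ring

lemma Red.sub {q r : ℚ} {x y : ZMod (p ^ 2)} (hx : Red p q x) (hy : Red p r y) :
    Red p (q - r) (x - y) := by
  have h := hx.add hy.neg
  refine h.congr ?_ ?_ <;> ring

lemma Red.pow {q : ℚ} {x : ZMod (p ^ 2)} (hx : Red p q x) (k : ℕ) : Red p (q ^ k) (x ^ k) := by
  induction k with
  | zero => simpa using Red.one p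
  | succ k ih => rw [pow_succ, pow_succ]; exact ih.mul hx

lemma Red.sum {ι : Type*} (s : Finset ι) {f : ι → ℚ} {g : ι → ZMod (p ^ 2)}
    (h : ∀ i ∈ s, Red p (f i) (g i)) : Red p (∑ i ∈ s, f i) (∑ i ∈ s, g i) := by
  classical
  induction s using Finset.induction_on with
  | empty => simpa using Red.zero p
  | insert a s ha ih =>
    rw [Finset.sum_insert ha, Finset.sum_insert ha]
    exact (h a (Finset.mem_insert_self a s)).add (ih (fun i hi => h i (Finset.mem_insert_of_mem hi)))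

lemma Red.prod {ι : Type*} (s : Finset ι) {f : ι → ℚ} {g : ι → ZMod (p ^ 2)}
    (h : ∀ i ∈ s, Red p (f i) (g i)) : Red p (∏ i ∈ s, f i) (∏ i ∈ s, g i) := by
  classical
  induction s using Finset.induction_on with
  | empty => simpa using Red.one p
  | insert a s ha ih =>
    rw [Finset.prod_insert ha, Finset.prod_insert ha]
    exact (h a (Finset.mem_insert_self a s)).mul (ih (fun i hi => h i (Finset.mem_insert_of_mem hi)))

/-- inverse of a rational with unit reduction -/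
lemma Red.inv {q : ℚ} {x : ZMod (p ^ 2)} (hx : Red p q x) (hu : IsUnit x) : Red p q⁻¹ x⁻¹ := by
  obtain ⟨a, b, hb, rfl, hx⟩ := hx
  have ub := isUnit_nat p hb
  have ua : IsUnit (a : ZMod (p ^ 2)) := by rw [← hx]; exact hu.mul ub
  have hxx : x * x⁻¹ = 1 := ZMod.mul_inv_of_unit x hu
  have ha : ¬ p ∣ a.natAbs := by
    intro hd
    have h1 : ((p : ℕ) : ℤ) ∣ a := Int.natCast_dvd.mpr hd
    have h2 : red p (a : ZMod (p ^ 2)) = 0 := by
      rw [red_intCast, ZMod.intCast_zmod_eq_zero_iff_dvd]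
      exact h1
    have h3 := ua.map (red p)
    rw [h2] at h3
    exact not_isUnit_zero h3
  rcases le_total 0 a with h0 | h0
  · refine ⟨b, a.natAbs, ha, ?_, ?_⟩
    · rw [Nat.cast_natAbs, abs_of_nonneg h0]
      push_cast
      rw [inv_div]
    · have : ((a.natAbs : ℕ) : ZMod (p ^ 2)) = (a : ZMod (p ^ 2)) := by
        have h4 : ((a.natAbs : ℕ) : ℤ) = a := Int.natAbs_of_nonneg h0
        rw [← Int.cast_natCast, h4]
      rw [this, ← hx]
      push_cast
      calc x⁻¹ * (x * (b : ZMod (p ^ 2))) = (x * x⁻¹) * b := by ring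
        _ = b := by rw [hxx, one_mul]
  · refine ⟨-b, a.natAbs, ha, ?_, ?_⟩
    · rw [Nat.cast_natAbs, abs_of_nonpos h0]
      push_cast
      rw [inv_div, neg_div_neg_eq]
    · have : ((a.natAbs : ℕ) : ZMod (p ^ 2)) = -(a : ZMod (p ^ 2)) := by
        have h4 : ((a.natAbs : ℕ) : ℤ) = -a := Int.ofNat_natAbs_of_nonpos h0
        rw [← Int.cast_natCast, h4]
        push_cast; rfl
      rw [this, ← hx]
      push_cast
      calc x⁻¹ * -(x * (b : ZMod (p ^ 2))) = -((x * x⁻¹) * b) := by ring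
        _ = -b := by rw [hxx, one_mul]

lemma Red.div {q r : ℚ} {x y : ZMod (p ^ 2)} (hx : Red p q x) (hy : Red p r y) (hu : IsUnit y) :
    Red p (q / r) (x * y⁻¹) := by
  rw [div_eq_mul_inv]
  exact hx.mul (hy.inv hu)

lemma Red.invNat {k : ℕ} (hk : ¬ p ∣ k) : Red p ((k : ℚ)⁻¹) ((k : ZMod (p ^ 2))⁻¹) :=
  (Red.nat p k).inv (isUnit_nat p hk)

/-- A `p`-integral rational with zero reduction has numerator divisible by `p^2`. -/
lemma Red.num_dvd {q : ℚ} (h : Red p q 0) : ((p : ℤ) ^ 2) ∣ q.num := by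
  obtain ⟨a, b, hb, hq, hx⟩ := h
  rw [zero_mul] at hx
  have h1 : ((p ^ 2 : ℕ) : ℤ) ∣ a := by
    rw [← ZMod.intCast_zmod_eq_zero_iff_dvd]
    exact hx.symm
  have h2 : q.num * (b : ℤ) = a * (q.den : ℤ) := by
    have h3 : (q.num : ℚ) / (q.den : ℚ) = a / b := by rw [Rat.num_div_den, hq]
    have h4 : (q.den : ℚ) ≠ 0 := by exact_mod_cast q.den_nz
    have h5 := b_ne hb
    field_simp at h3
    exact_mod_cast (by linarith : (q.num : ℚ) * b = a * q.den)
  have h3 : ((p ^ 2 : ℕ) : ℤ) ∣ q.num * (b : ℤ) := by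
    rw [h2]; exact Dvd.dvd.mul_right h1 _
  have h4 : IsCoprime ((p ^ 2 : ℕ) : ℤ) (b : ℤ) := by
    rw [Nat.isCoprime_iff_coprime]
    exact (Nat.Coprime.pow_left 2 ((Nat.Prime.coprime_iff_not_dvd hp.out).mpr hb))
  have h5 := h4.dvd_of_dvd_mul_right h3
  push_cast at h5
  exact h5

end Pool.Agent.Lib.Pffaf6e
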