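import Mathlib
import Pool.Agent.Lib.Pffaf6e.Basic

set_option autoImplicit false
set_option linter.unusedSectionVars false

namespace Pool.Agent.Lib.Pffaf6e

variable (p : ℕ) [hp : Fact p.Prime]

/-- Teichmüller representative modulo `p^2` -/
def om (x : ZMod p) : ZMod (p ^ 2) := ((x.val : ℕ) : ZMod (p ^ 2)) ^ p

lemma red_om (x : ZMod p) : red p (om p x) = x := by
  unfold om
  rw [map_pow, red_natCast, ZMod.natCast_zmod_val, ZMod.pow_card]

lemma om_eq {x : ZMod p} {a : ZMod (p ^ 2)} (h : red p a = x) : om p x = a ^ p := by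
  unfold om
  apply pow_p_eq
  rw [red_natCast, ZMod.natCast_zmod_val, h]

lemma om_mul (x y : ZMod p) : om p (x * y) = om p x * om p y := by
  have h : om p (x * y) = (((x.val : ℕ) : ZMod (p ^ 2)) * ((y.val : ℕ) : ZMod (p ^ 2))) ^ p := by
    apply om_eq
    rw [map_mul, red_natCast, red_natCast, ZMod.natCast_zmod_val, ZMod.natCast_zmod_val]
  rw [h, mul_pow]
  rfl

lemma om_zero : om p 0 = 0 := by
  unfold om
  rw [ZMod.val_zero, Nat.cast_zero, zero_pow hp.out.ne_zero]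

lemma om_one : om p 1 = 1 := by
  have h : om p 1 = (1 : ZMod (p ^ 2)) ^ p := by
    apply om_eq
    rw [map_one]
  rw [h, one_pow]

lemma om_neg (hodd : p % 2 = 1) (x : ZMod p) : om p (-x) = - om p x := by
  have h : om p (-x) = (-((x.val : ℕ) : ZMod (p ^ 2))) ^ p := by
    apply om_eq
    rw [map_neg, red_natCast, ZMod.natCast_zmod_val]
  rw [h, Odd.neg_pow (Nat.odd_iff.mpr hodd)]
  rfl

lemma om_one_sub (x : ZMod p) : om p (1 - x) = (1 - ((x.val : ℕ) : ZMod (p ^ 2))) ^ p := by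
  apply om_eq
  rw [map_sub, map_one, red_natCast, ZMod.natCast_zmod_val]

lemma om_pow (x : ZMod p) (k : ℕ) : om p (x ^ k) = om p x ^ k := by
  induction k with
  | zero => rw [pow_zero, pow_zero, om_one]
  | succ k ih => rw [pow_succ x k, pow_succ (om p x) k, om_mul, ih]

lemma om_pow_card_sub_one {x : ZMod p} (hx : x ≠ 0) : om p x ^ (p - 1) = 1 := by
  rw [← om_pow, ZMod.pow_card_sub_one_eq_one hx, om_one]

lemma exists_gen : ∃ g : ZMod p, g ≠ 0 ∧ ∀ m : ℕ, g ^ m = 1 → (p - 1) ∣ m := by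
  obtain ⟨g, hg⟩ := IsCyclic.exists_generator (α := (ZMod p)ˣ)
  refine ⟨(g : ZMod p), g.ne_zero, ?_⟩
  intro m hm
  have h1 : g ^ m = 1 := by
    ext
    push_cast
    exact hm
  have h2 := orderOf_dvd_of_pow_eq_one h1
  rw [orderOf_eq_card_of_forall_mem_zpowers hg, Nat.card_eq_fintype_card, ZMod.card_units p] at h2
  exact h2

lemma sum_om_pow_of_not_dvd {m : ℕ} (h : ¬ (p - 1) ∣ m) : ∑ x : ZMod p, om p x ^ m = 0 := by
  obtain ⟨g, hg0, hg⟩ := exists_gen p
  have h1 : ∑ x : ZMod p, om p x ^ m = om p g ^ m * ∑ x : ZMod p, om p x ^ m := by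
    rw [Finset.mul_sum, ← Equiv.sum_comp (Equiv.mulLeft₀ g hg0)]
    refine Finset.sum_congr rfl ?_
    intro x _
    rw [Equiv.mulLeft₀_apply, om_mul, mul_pow]
  have h2 : (om p g ^ m - 1) * ∑ x : ZMod p, om p x ^ m = 0 := by
    rw [sub_mul, one_mul, ← h1, sub_self]
  have h3 : IsUnit (om p g ^ m - 1) := by
    apply isUnit_of_red
    rw [map_sub, map_pow, red_om, map_one, sub_ne_zero]
    intro h4
    exact h (hg m h4)
  exact (h3.mul_right_eq_zero).mp h2

lemma sum_om_pow_of_dvd {m : ℕ} (hm : 0 < m) (h : (p - 1) ∣ m) :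
    ∑ x : ZMod p, om p x ^ m = (p : ZMod (p ^ 2)) - 1 := by
  obtain ⟨k, rfl⟩ := h
  rw [← Finset.add_sum_erase Finset.univ _ (Finset.mem_univ (0 : ZMod p)), om_zero,
    zero_pow hm.ne', zero_add]
  have h1 : ∀ x ∈ Finset.univ.erase (0 : ZMod p), om p x ^ ((p - 1) * k) = 1 := by
    intro x hx
    rw [Finset.mem_erase] at hx
    rw [pow_mul, om_pow_card_sub_one p hx.1, one_pow]
  rw [Finset.sum_congr rfl h1, Finset.sum_const, Finset.card_erase_of_mem (Finset.mem_univ _),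
    Finset.card_univ, ZMod.card, nsmul_eq_mul, mul_one, Nat.cast_sub hp.out.one_lt.le, Nat.cast_one]

/-- `p * ∑ x^m` only depends on `m` modulo `p - 1`. -/
lemma p_sum_pow (m : ℕ) : (p : ZMod (p ^ 2)) * ∑ x : ZMod p, ((x.val : ℕ) : ZMod (p ^ 2)) ^ m =
    (p : ZMod (p ^ 2)) * ∑ x : ZMod p, om p x ^ m := by
  apply p_mul_eq
  rw [map_sum, map_sum]
  refine Finset.sum_congr rfl ?_
  intro x _
  rw [map_pow, map_pow, red_om, red_natCast, ZMod.natCast_zmod_val]

end Pool.Agent.Lib.Pffaf6e
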