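import Mathlib
import Pool.Agent.Lib.Pffaf6e.Char
import Pool.Agent.Lib.Pffaf6e.Red

set_option autoImplicit false
set_option linter.unusedSectionVars false

namespace Pool.Agent.Lib.Pffaf6e

variable (p : ℕ) [hp : Fact p.Prime]

lemma choose_pred (k : ℕ) (hk : k < p) : (((p - 1).choose k : ℕ) : ZMod p) = (-1) ^ k := by
  induction k with
  | zero => simp
  | succ k ih =>
    have h1 := ih (by omega)
    have h2 : (p.choose (k + 1)) = (p - 1).choose k + (p - 1).choose (k + 1) := by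
      have : p = (p - 1) + 1 := by have := hp.out.pos; omega
      conv_lhs => rw [this]
      exact Nat.choose_succ_succ _ _
    have h3 : ((p.choose (k + 1) : ℕ) : ZMod p) = 0 := by
      rw [ZMod.natCast_eq_zero_iff]
      exact hp.out.dvd_choose_self (by omega) hk
    rw [h2] at h3
    push_cast at h3
    rw [h1] at h3
    rw [pow_succ]
    linear_combination h3

lemma not_dvd_of_lt {i : ℕ} (h1 : 1 ≤ i) (h2 : i < p) : ¬ p ∣ i := by
  intro h
  have := Nat.le_of_dvd (by omega) h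
  omega

lemma choose_p (i : ℕ) (h1 : 1 ≤ i) (h2 : i < p) :
    ((p.choose i : ℕ) : ZMod (p ^ 2)) = (p : ZMod (p ^ 2)) * ((i : ZMod (p ^ 2))⁻¹ * (-1) ^ (i - 1)) := by
  have hi := not_dvd_of_lt p h1 h2
  have e1 : i * p.choose i = p * (p - 1).choose (i - 1) := by
    obtain ⟨k, rfl⟩ : ∃ k, i = k + 1 := ⟨i - 1, by omega⟩
    obtain ⟨q, hq⟩ : ∃ q, p = q + 1 := ⟨p - 1, by have := hp.out.pos; omega⟩
    rw [hq, Nat.add_sub_cancel, Nat.add_sub_cancel, mul_comm, ← Nat.add_one_mul_choose_eq]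
  have e2 : (i : ZMod (p ^ 2)) * ((p.choose i : ℕ) : ZMod (p ^ 2)) =
      (p : ZMod (p ^ 2)) * (((p - 1).choose (i - 1) : ℕ) : ZMod (p ^ 2)) := by
    exact_mod_cast congrArg (fun z : ℕ => (z : ZMod (p ^ 2))) e1
  have e3 : (p : ZMod (p ^ 2)) * (((p - 1).choose (i - 1) : ℕ) : ZMod (p ^ 2)) =
      (p : ZMod (p ^ 2)) * (-1) ^ (i - 1) := by
    apply p_mul_eq
    rw [red_natCast, choose_pred p (i - 1) (by omega), map_pow, map_neg, map_one]
  rw [e3] at e2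
  calc ((p.choose i : ℕ) : ZMod (p ^ 2))
      = (i : ZMod (p ^ 2))⁻¹ * ((i : ZMod (p ^ 2)) * ((p.choose i : ℕ) : ZMod (p ^ 2))) := by
        rw [← mul_assoc, inv_mul_nat p hi, one_mul]
    _ = _ := by rw [e2]; ring

/-- the truncated logarithm -/
def lam (a : ZMod (p ^ 2)) : ZMod (p ^ 2) := ∑ i ∈ Finset.Ico 1 p, (i : ZMod (p ^ 2))⁻¹ * a ^ i

lemma om_one_sub_eq (hodd : p % 2 = 1) (x : ZMod p) :
    om p (1 - x) = (1 - om p x) + (p : ZMod (p ^ 2)) * (- lam p ((x.val : ℕ) : ZMod (p ^ 2))) := by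
  rw [om_one_sub]
  set a : ZMod (p ^ 2) := ((x.val : ℕ) : ZMod (p ^ 2)) with ha
  have hox : om p x = a ^ p := rfl
  rw [hox, sub_eq_neg_add 1 a, add_pow]
  simp only [one_pow, mul_one]
  have hp1 := hp.out.one_lt
  rw [Finset.sum_range_succ, Finset.range_eq_Ico, Finset.sum_eq_sum_Ico_succ_bot hp.out.pos]
  rw [Nat.choose_self, Nat.choose_zero_right, Odd.neg_pow (Nat.odd_iff.mpr hodd)]
  unfold lam
  rw [← Finset.sum_neg_distrib, Finset.mul_sum]
  have : ∑ k ∈ Finset.Ico (0 + 1) p, (-a) ^ k * ((p.choose k : ℕ) : ZMod (p ^ 2)) =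
      ∑ i ∈ Finset.Ico 1 p, (p : ZMod (p ^ 2)) * -((i : ZMod (p ^ 2))⁻¹ * a ^ i) := by
    refine Finset.sum_congr rfl ?_
    intro i hi
    rw [Finset.mem_Ico] at hi
    rw [choose_p p i (by omega) hi.2]
    have hsgn : (-a) ^ i * (-1) ^ (i - 1) = - a ^ i := by
      obtain ⟨k, rfl⟩ : ∃ k, i = k + 1 := ⟨i - 1, by omega⟩
      rw [Nat.add_sub_cancel, neg_pow a, pow_succ (-1 : ZMod (p ^ 2)) k]
      have : ((-1 : ZMod (p ^ 2)) ^ k) * (-1) ^ k = 1 := by
        rw [← mul_pow]; simp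
      linear_combination (-(a ^ (k + 1))) * this
    calc (-a) ^ i * ((p : ZMod (p ^ 2)) * ((i : ZMod (p ^ 2))⁻¹ * (-1) ^ (i - 1)))
        = (p : ZMod (p ^ 2)) * ((i : ZMod (p ^ 2))⁻¹ * ((-a) ^ i * (-1) ^ (i - 1))) := by ring
      _ = _ := by rw [hsgn]; ring
  rw [this]
  push_cast
  ring

lemma add_p_pow (a b : ZMod (p ^ 2)) (k : ℕ) :
    (a + (p : ZMod (p ^ 2)) * b) ^ (k + 1) =
      a ^ (k + 1) + ((k : ZMod (p ^ 2)) + 1) * ((p : ZMod (p ^ 2)) * b) * a ^ k := by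
  have hp2 := psq p
  induction k with
  | zero => simp
  | succ k ih =>
    rw [pow_succ (a + (p : ZMod (p ^ 2)) * b) (k + 1), ih]
    push_cast
    have h2 : ((p : ZMod (p ^ 2)) * b) * ((p : ZMod (p ^ 2)) * b) = 0 := psq' p b b
    linear_combination (((k : ZMod (p ^ 2)) + 1) * a ^ k) * h2

/-- the main sum -/
lemma U_expand (n : ℕ) (hn : 0 < n) (hodd : p % 2 = 1) :
    ∑ x : ZMod p, om p x ^ (2 * n) * om p (1 - x) ^ (2 * n) =
      ∑ x : ZMod p, om p x ^ (2 * n) * (1 - om p x) ^ (2 * n) -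
      (2 * n : ZMod (p ^ 2)) * ((p : ZMod (p ^ 2)) *
        ∑ x : ZMod p, om p x ^ (2 * n) * lam p (om p x) * (1 - om p x) ^ (2 * n - 1)) := by
  obtain ⟨m, hm⟩ : ∃ m, 2 * n = m + 1 := ⟨2 * n - 1, by omega⟩
  have hm' : 2 * n - 1 = m := by omega
  have hmc : (2 * n : ZMod (p ^ 2)) = (m : ZMod (p ^ 2)) + 1 := by
    have := congrArg (fun z : ℕ => (z : ZMod (p ^ 2))) hm
    push_cast at this
    exact this
  rw [hm', hmc, Finset.mul_sum, Finset.mul_sum, ← Finset.sum_sub_distrib]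
  refine Finset.sum_congr rfl ?_
  intro x _
  rw [om_one_sub_eq p hodd, hm, add_p_pow]
  have h1 : (p : ZMod (p ^ 2)) * lam p ((x.val : ℕ) : ZMod (p ^ 2)) =
      (p : ZMod (p ^ 2)) * lam p (om p x) := by
    apply p_mul_eq
    unfold lam
    rw [map_sum, map_sum]
    refine Finset.sum_congr rfl ?_
    intro i _
    rw [map_mul, map_mul, map_pow, map_pow, red_om, red_natCast, ZMod.natCast_zmod_val]
  linear_combination (-((m : ZMod (p ^ 2)) + 1) * om p x ^ (m + 1) * (1 - om p x) ^ m) * h1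

end Pool.Agent.Lib.Pffaf6e
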