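import Mathlib

set_option autoImplicit false

namespace Pool.Agent.Lib.Pffaf6e

/-- the general hypergeometric term `w^k (a)_k (b)_k / ((c)_k k!)` over the rationals -/
def hg (a b c w : ℚ) (k : ℕ) : ℚ :=
  ∏ i ∈ Finset.range k, (w * ((a + i) * (b + i)) / ((c + i) * (1 + i)))

lemma hg_zero (a b c w : ℚ) : hg a b c w 0 = 1 := by unfold hg; simp

lemma hg_succ (a b c w : ℚ) (k : ℕ) :
    hg a b c w (k + 1) = hg a b c w k * (w * ((a + k) * (b + k)) / ((c + k) * (1 + k))) := by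
  unfold hg
  rw [Finset.prod_range_succ]

lemma hg_eq_zero (N : ℕ) (b c w : ℚ) (k : ℕ) (hk : N < k) : hg (-(N : ℚ)) b c w k = 0 := by
  unfold hg
  apply Finset.prod_eq_zero (Finset.mem_range.mpr hk)
  rw [neg_add_cancel]
  ring

/-- partial sums -/
def hs (a b c w : ℚ) (K : ℕ) : ℚ := ∑ k ∈ Finset.range K, hg a b c w k

lemma hs_stable (N : ℕ) (b c w : ℚ) (K : ℕ) (hK : N < K) :
    hs (-(N : ℚ)) b c w K = hs (-(N : ℚ)) b c w (N + 1) := by
  unfold hs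
  symm
  apply Finset.sum_subset
  · intro k hk; rw [Finset.mem_range] at *; omega
  · intro k _ hk2
    rw [Finset.mem_range] at *
    exact hg_eq_zero N b c w k (by omega)

lemma tele (x y u w ρ : ℚ) (a P Q : ℕ → ℚ) (hu : ∀ k : ℕ, u + k ≠ 0)
    (ha : ∀ k, a k = hg x y u w k * P k)
    (hPQ : ∀ k : ℕ, (u + k) * (1 - ρ * P k) = w * Q (k + 1) * ((x + k) * (y + k)) - k * (u + k) * Q k)
    (K : ℕ) : ∑ k ∈ Finset.range K, (hg x y u w k - ρ * a k) = K * Q K * hg x y u w K := by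
  induction K with
  | zero => simp
  | succ K ih =>
    rw [Finset.sum_range_succ, ih, ha, hg_succ]
    have h1 := hPQ K
    have h2 := hu K
    have h3 : (1 + (K : ℚ)) ≠ 0 := by positivity
    push_cast
    field_simp
    linear_combination (hg x y u w K) * (1 + (K : ℚ)) * h1

/-- `E1` -/
lemma E1_step (n K : ℕ) (hK : n + 1 < K) :
    hs (-((n + 1 : ℕ) : ℚ)) (1 / 3 - ((n + 1 : ℕ) : ℚ)) (4 / 3 + ((n + 1 : ℕ) : ℚ)) (-1 / 8) K =
      (27 / 32 * ((4 / 3 + n) / (7 / 6 + n))) * hs (-(n : ℚ)) (1 / 3 - n) (4 / 3 + n) (-1 / 8) K := by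
  have hden1 : (7 / 6 + (n : ℚ)) ≠ 0 := by positivity
  have hden2 : (4 / 3 + (n : ℚ)) ≠ 0 := by positivity
  have hden3 : ((n : ℚ) + 1) ≠ 0 := by positivity
  have hden4 : ((n : ℚ) + 2 / 3) ≠ 0 := by positivity
  set ρ : ℚ := (27 / 32 * ((4 / 3 + n) / (7 / 6 + n))) with hρ
  set P : ℕ → ℚ := fun k => ((n + 1 - k) * (n + 2 / 3 - k) * (4 / 3 + n + k)) /
    ((n + 1) * (n + 2 / 3) * (4 / 3 + n)) with hP
  set Q : ℕ → ℚ := fun k => (27 / 32) / ((7 / 6 + n) * ((n + 1) * (n + 2 / 3))) *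
    (8 / 9 * k ^ 2 + (-8 / 81 - 16 / 27 * n) * k + (-416 / 243 - 88 / 27 * n - 40 / 27 * n ^ 2)) with hQ
  have h := tele (-((n + 1 : ℕ) : ℚ)) (1 / 3 - ((n + 1 : ℕ) : ℚ)) (4 / 3 + ((n + 1 : ℕ) : ℚ)) (-1 / 8) ρ
    (fun k => hg (-(n : ℚ)) (1 / 3 - n) (4 / 3 + n) (-1 / 8) k) P Q ?_ ?_ ?_ K
  · rw [hg_eq_zero (n + 1) _ _ _ K hK, mul_zero, Finset.sum_sub_distrib, ← Finset.mul_sum] at h
    unfold hs
    linear_combination h
  · intro k
    push_cast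
    positivity
  · intro k
    induction k with
    | zero =>
      simp only [hP, hg_zero]
      field_simp
      ring
    | succ k ih =>
      rw [hg_succ, hg_succ, ih]
      simp only [hP]
      have h1 : (4 / 3 + (n : ℚ) + k) ≠ 0 := by positivity
      have h2 : (4 / 3 + ((n : ℚ) + 1) + k) ≠ 0 := by positivity
      have h3 : (1 + (k : ℚ)) ≠ 0 := by positivity
      push_cast
      field_simp
      ring
  · intro k
    simp only [hP, hQ, hρ]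
    push_cast
    field_simp
    ring

lemma ne_sixth (h k : ℕ) : (-1 / 6 - (h : ℚ) + k) ≠ 0 := by
  intro hh
  have h1 : (6 * (k : ℤ) - 6 * h - 1 : ℤ) = 0 := by
    have : (((6 * (k : ℤ) - 6 * h - 1 : ℤ)) : ℚ) = 0 := by push_cast; linarith
    exact_mod_cast this
  omega

lemma ne_third (h k : ℕ) : (-1 / 3 - (h : ℚ) + k) ≠ 0 := by
  intro hh
  have h1 : (3 * (k : ℤ) - 3 * h - 1 : ℤ) = 0 := by
    have : (((3 * (k : ℤ) - 3 * h - 1 : ℤ)) : ℚ) = 0 := by push_cast; linarith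
    exact_mod_cast this
  omega

/-- `E3` -/
lemma E3_step (h K : ℕ) (hK : 2 * (h + 1) < K) :
    hs (-((2 * (h + 1) : ℕ) : ℚ)) (1 / 3 - ((2 * (h + 1) : ℕ) : ℚ)) (5 / 6 - ((h + 1 : ℕ) : ℚ)) (-1 / 8) K =
      (27 / 16 * ((6 * h + 2) / (6 * h + 1))) *
        hs (-((2 * h : ℕ) : ℚ)) (1 / 3 - ((2 * h : ℕ) : ℚ)) (5 / 6 - (h : ℚ)) (-1 / 8) K := by
  have hden1 : (6 * (h : ℚ) + 1) ≠ 0 := by positivity
  have hden2 : (2 * (h : ℚ) + 2) ≠ 0 := by positivity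
  have hden3 : (2 * (h : ℚ) + 1) ≠ 0 := by positivity
  have hden4 : (2 * (h : ℚ) + 5 / 3) ≠ 0 := by positivity
  have hden5 : (2 * (h : ℚ) + 2 / 3) ≠ 0 := by positivity
  set ρ : ℚ := (27 / 16 * ((6 * h + 2) / (6 * h + 1))) with hρ
  set P : ℕ → ℚ := fun k => ((2 * h + 2 - k) * (2 * h + 1 - k) * (2 * h + 5 / 3 - k) * (2 * h + 2 / 3 - k) *
    (-1 / 6 - h)) / ((2 * h + 2) * (2 * h + 1) * (2 * h + 5 / 3) * (2 * h + 2 / 3) * (-1 / 6 - h + k)) with hP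
  set Q : ℕ → ℚ := fun k => -(27 / 32) / ((2 * h + 2) * (2 * h + 1) * (2 * h + 5 / 3)) *
    (8 / 9 * k ^ 2 + (-40 / 9 - 160 / 27 * h) * k + (592 / 81 + 1616 / 81 * h + 352 / 27 * h ^ 2)) with hQ
  have hh := tele (-((2 * (h + 1) : ℕ) : ℚ)) (1 / 3 - ((2 * (h + 1) : ℕ) : ℚ)) (5 / 6 - ((h + 1 : ℕ) : ℚ))
    (-1 / 8) ρ (fun k => hg (-((2 * h : ℕ) : ℚ)) (1 / 3 - ((2 * h : ℕ) : ℚ)) (5 / 6 - (h : ℚ)) (-1 / 8) k)
    P Q ?_ ?_ ?_ K
  · rw [hg_eq_zero (2 * (h + 1)) _ _ _ K hK, mul_zero, Finset.sum_sub_distrib, ← Finset.mul_sum] at hh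
    unfold hs
    linear_combination hh
  · intro k
    have := ne_sixth h k
    intro h2
    apply this
    rw [← h2]
    push_cast
    ring
  · intro k
    induction k with
    | zero =>
      have h0 := ne_sixth h 0
      simp only [hP, hg_zero]
      push_cast at h0 ⊢
      rw [add_zero] at h0 ⊢
      generalize hv : (-1 / 6 - (h : ℚ)) = v at h0 ⊢
      simp only [sub_zero, one_mul]
      rw [div_self]
      exact mul_ne_zero (mul_ne_zero (mul_ne_zero (mul_ne_zero hden2 hden3) hden4) hden5) h0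
    | succ k ih =>
      rw [hg_succ, hg_succ, ih]
      simp only [hP]
      have h1 := ne_sixth h k
      have h2 := ne_sixth h (k + 1)
      have h3 : (1 + (k : ℚ)) ≠ 0 := by positivity
      have e1 : (5 / 6 - ((h + 1 : ℕ) : ℚ) + k) = (-1 / 6 - h + k) := by push_cast; ring
      have e2 : (5 / 6 - (h : ℚ) + k) = (-1 / 6 - h + ((k + 1 : ℕ) : ℚ)) := by push_cast; ring
      rw [e1, e2]
      generalize hv : (-1 / 6 - (h : ℚ) + ((k + 1 : ℕ) : ℚ)) = v at h2 ⊢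
      generalize hv' : (-1 / 6 - (h : ℚ) + (k : ℚ)) = v' at h1 ⊢
      push_cast
      field_simp
      ring
  · intro k
    simp only [hP, hQ, hρ]
    have h1 := ne_sixth h k
    have e1 : (5 / 6 - ((h + 1 : ℕ) : ℚ) + k) = (-1 / 6 - h + k) := by push_cast; ring
    rw [e1]
    have e3 : (k : ℚ) = (-1 / 6 - (h : ℚ) + (k : ℚ)) + 1 / 6 + h := by ring
    push_cast
    generalize hv' : (-1 / 6 - (h : ℚ) + (k : ℚ)) = v' at h1 e3 ⊢
    rw [e3]
    field_simp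
    ring

/-- `E4` -/
lemma E4_step (h K : ℕ) (hK : 2 * (h + 1) < K) :
    hs (-((2 * (h + 1) : ℕ) : ℚ)) (-1 / 3 - ((2 * (h + 1) : ℕ) : ℚ)) (2 / 3 - ((h + 1 : ℕ) : ℚ)) (-1 / 8) K =
      (27 / 16 * ((6 * h + 3) / (6 * h + 2))) *
        hs (-((2 * h : ℕ) : ℚ)) (-1 / 3 - ((2 * h : ℕ) : ℚ)) (2 / 3 - (h : ℚ)) (-1 / 8) K := by
  have hden1 : (6 * (h : ℚ) + 2) ≠ 0 := by positivity
  have hden2 : (2 * (h : ℚ) + 2) ≠ 0 := by positivity
  have hden3 : (2 * (h : ℚ) + 1) ≠ 0 := by positivity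
  have hden4 : (2 * (h : ℚ) + 7 / 3) ≠ 0 := by positivity
  have hden5 : (2 * (h : ℚ) + 4 / 3) ≠ 0 := by positivity
  set ρ : ℚ := (27 / 16 * ((6 * h + 3) / (6 * h + 2))) with hρ
  set P : ℕ → ℚ := fun k => ((2 * h + 2 - k) * (2 * h + 1 - k) * (2 * h + 7 / 3 - k) * (2 * h + 4 / 3 - k) *
    (-1 / 3 - h)) / ((2 * h + 2) * (2 * h + 1) * (2 * h + 7 / 3) * (2 * h + 4 / 3) * (-1 / 3 - h + k)) with hP
  set Q : ℕ → ℚ := fun k => -(27 / 32) / ((2 * h + 2) * (2 * h + 7 / 3) * (2 * h + 4 / 3)) *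
    (8 / 9 * k ^ 2 + (-440 / 81 - 160 / 27 * h) * k + (2672 / 243 + 656 / 27 * h + 352 / 27 * h ^ 2)) with hQ
  have hh := tele (-((2 * (h + 1) : ℕ) : ℚ)) (-1 / 3 - ((2 * (h + 1) : ℕ) : ℚ)) (2 / 3 - ((h + 1 : ℕ) : ℚ))
    (-1 / 8) ρ (fun k => hg (-((2 * h : ℕ) : ℚ)) (-1 / 3 - ((2 * h : ℕ) : ℚ)) (2 / 3 - (h : ℚ)) (-1 / 8) k)
    P Q ?_ ?_ ?_ K
  · rw [hg_eq_zero (2 * (h + 1)) _ _ _ K hK, mul_zero, Finset.sum_sub_distrib, ← Finset.mul_sum] at hh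
    unfold hs
    linear_combination hh
  · intro k
    have := ne_third h k
    intro h2
    apply this
    rw [← h2]
    push_cast
    ring
  · intro k
    induction k with
    | zero =>
      have h0 := ne_third h 0
      simp only [hP, hg_zero]
      push_cast at h0 ⊢
      rw [add_zero] at h0 ⊢
      generalize hv : (-1 / 3 - (h : ℚ)) = v at h0 ⊢
      simp only [sub_zero, one_mul]
      rw [div_self]
      exact mul_ne_zero (mul_ne_zero (mul_ne_zero (mul_ne_zero hden2 hden3) hden4) hden5) h0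
    | succ k ih =>
      rw [hg_succ, hg_succ, ih]
      simp only [hP]
      have h1 := ne_third h k
      have h2 := ne_third h (k + 1)
      have h3 : (1 + (k : ℚ)) ≠ 0 := by positivity
      have e1 : (2 / 3 - ((h + 1 : ℕ) : ℚ) + k) = (-1 / 3 - h + k) := by push_cast; ring
      have e2 : (2 / 3 - (h : ℚ) + k) = (-1 / 3 - h + ((k + 1 : ℕ) : ℚ)) := by push_cast; ring
      rw [e1, e2]
      generalize hv : (-1 / 3 - (h : ℚ) + ((k + 1 : ℕ) : ℚ)) = v at h2 ⊢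
      generalize hv' : (-1 / 3 - (h : ℚ) + (k : ℚ)) = v' at h1 ⊢
      push_cast
      field_simp
      ring
  · intro k
    simp only [hP, hQ, hρ]
    have h1 := ne_third h k
    have e1 : (2 / 3 - ((h + 1 : ℕ) : ℚ) + k) = (-1 / 3 - h + k) := by push_cast; ring
    rw [e1]
    have e3 : (k : ℚ) = (-1 / 3 - (h : ℚ) + (k : ℚ)) + 1 / 3 + h := by ring
    push_cast
    generalize hv' : (-1 / 3 - (h : ℚ) + (k : ℚ)) = v' at h1 e3 ⊢
    rw [e3]
    field_simp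
    ring

/-- closed forms -/
lemma E1_closed (n : ℕ) : ∀ K, n < K →
    hs (-(n : ℚ)) (1 / 3 - n) (4 / 3 + n) (-1 / 8) K * ∏ i ∈ Finset.range n, (6 * (i : ℚ) + 7) =
      (27 / 16) ^ n * ∏ i ∈ Finset.range n, (3 * (i : ℚ) + 4) := by
  induction n with
  | zero =>
    intro K hK
    have := hs_stable 0 (1 / 3 - (0 : ℕ)) (4 / 3 + (0 : ℕ)) (-1 / 8) K hK
    rw [this]
    unfold hs
    simp [hg_zero]
  | succ n ih =>
    intro K hK
    rw [E1_step n K hK, Finset.prod_range_succ, Finset.prod_range_succ]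
    have h1 := ih K (by omega)
    have hden1 : (7 / 6 + (n : ℚ)) ≠ 0 := by positivity
    have e1 : (27 / 32 * ((4 / 3 + (n : ℚ)) / (7 / 6 + n))) * (6 * n + 7) = 27 / 16 * (3 * n + 4) := by
      field_simp
      ring
    rw [pow_succ]
    linear_combination (27 / 16 * (3 * (n : ℚ) + 4)) * h1 +
      (hs (-(n : ℚ)) (1 / 3 - n) (4 / 3 + n) (-1 / 8) K * ∏ i ∈ Finset.range n, (6 * (i : ℚ) + 7)) * e1

lemma E3_closed (h : ℕ) : ∀ K, 2 * h < K →
    hs (-((2 * h : ℕ) : ℚ)) (1 / 3 - ((2 * h : ℕ) : ℚ)) (5 / 6 - (h : ℚ)) (-1 / 8) K *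
      ∏ i ∈ Finset.range h, (6 * (i : ℚ) + 1) = (27 / 16) ^ h * ∏ i ∈ Finset.range h, (6 * (i : ℚ) + 2) := by
  induction h with
  | zero =>
    intro K hK
    have := hs_stable 0 (1 / 3 - ((2 * 0 : ℕ) : ℚ)) (5 / 6 - ((0 : ℕ) : ℚ)) (-1 / 8) K hK
    rw [mul_zero] at this ⊢
    rw [this]
    unfold hs
    simp [hg_zero]
  | succ h ih =>
    intro K hK
    rw [E3_step h K hK, Finset.prod_range_succ, Finset.prod_range_succ]
    have h1 := ih K (by omega)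
    have hden1 : (6 * (h : ℚ) + 1) ≠ 0 := by positivity
    have e1 : (27 / 16 * ((6 * (h : ℚ) + 2) / (6 * h + 1))) * (6 * h + 1) = 27 / 16 * (6 * h + 2) := by
      field_simp
    rw [pow_succ]
    linear_combination (27 / 16 * (6 * (h : ℚ) + 2)) * h1 +
      (hs (-((2 * h : ℕ) : ℚ)) (1 / 3 - ((2 * h : ℕ) : ℚ)) (5 / 6 - (h : ℚ)) (-1 / 8) K *
        ∏ i ∈ Finset.range h, (6 * (i : ℚ) + 1)) * e1

lemma E4_closed (h : ℕ) : ∀ K, 2 * h < K →
    hs (-((2 * h : ℕ) : ℚ)) (-1 / 3 - ((2 * h : ℕ) : ℚ)) (2 / 3 - (h : ℚ)) (-1 / 8) K *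
      ∏ i ∈ Finset.range h, (6 * (i : ℚ) + 2) = (27 / 16) ^ h * ∏ i ∈ Finset.range h, (6 * (i : ℚ) + 3) := by
  induction h with
  | zero =>
    intro K hK
    have := hs_stable 0 (-1 / 3 - ((2 * 0 : ℕ) : ℚ)) (2 / 3 - ((0 : ℕ) : ℚ)) (-1 / 8) K hK
    rw [mul_zero] at this ⊢
    rw [this]
    unfold hs
    simp [hg_zero]
  | succ h ih =>
    intro K hK
    rw [E4_step h K hK, Finset.prod_range_succ, Finset.prod_range_succ]
    have h1 := ih K (by omega)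
    have hden1 : (6 * (h : ℚ) + 2) ≠ 0 := by positivity
    have e1 : (27 / 16 * ((6 * (h : ℚ) + 3) / (6 * h + 2))) * (6 * h + 2) = 27 / 16 * (6 * h + 3) := by
      field_simp
    rw [pow_succ]
    linear_combination (27 / 16 * (6 * (h : ℚ) + 3)) * h1 +
      (hs (-((2 * h : ℕ) : ℚ)) (-1 / 3 - ((2 * h : ℕ) : ℚ)) (2 / 3 - (h : ℚ)) (-1 / 8) K *
        ∏ i ∈ Finset.range h, (6 * (i : ℚ) + 2)) * e1

end Pool.Agent.Lib.Pffaf6e
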