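import Mathlib
import Pool.Agent.Lib.Pffaf6e.Char

set_option autoImplicit false
set_option linter.unusedSectionVars false

namespace Pool.Agent.Lib.Pffaf6e

variable (p : ℕ) [hp : Fact p.Prime]

/-- A cubic character with values in an arbitrary commutative ring: product of the two Jacobi sums. -/
lemma jacobi_norm {R : Type*} [CommRing R] (c : ZMod p → R) (hmul : ∀ x y, c (x * y) = c x * c y)
    (h0 : c 0 = 0) (h1 : c 1 = 1) (h3 : ∀ x, x ≠ 0 → c x ^ 3 = 1)
    (hs1 : ∑ x : ZMod p, c x = 0) (hs2 : ∑ x : ZMod p, c x ^ 2 = 0) :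
    (∑ x : ZMod p, c x ^ 2 * c (1 - x) ^ 2) * (∑ y : ZMod p, c y * c (1 - y)) = (p : R) := by
  have hpow : ∀ (x : ZMod p) (k : ℕ), c (x ^ k) = c x ^ k := by
    intro x k
    induction k with
    | zero => rw [pow_zero, pow_zero, h1]
    | succ k ih => rw [pow_succ x k, pow_succ (c x) k, hmul, ih]
  -- step 1
  have step1 : (∑ x : ZMod p, c x ^ 2 * c (1 - x) ^ 2) * (∑ y : ZMod p, c y * c (1 - y)) =
      ∑ x : ZMod p, ∑ s : ZMod p, (c s * c ((1 - x) ^ 2 * (1 - s * x)) * c x ^ 3) := by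
    rw [Finset.sum_mul]
    refine Finset.sum_congr rfl ?_
    intro x _
    rcases eq_or_ne x 0 with rfl | hx
    · rw [h0]
      simp
    · rw [Finset.mul_sum, ← Equiv.sum_comp (Equiv.mulRight₀ x hx)]
      refine Finset.sum_congr rfl ?_
      intro s _
      rw [Equiv.mulRight₀_apply, hmul, hmul, hpow]
      ring
  rw [step1, Finset.sum_comm]
  have step2 : ∀ s : ZMod p, ∑ x : ZMod p, (c s * c ((1 - x) ^ 2 * (1 - s * x)) * c x ^ 3) =
      c s * (∑ x : ZMod p, c ((1 - x) ^ 2 * (1 - s * x)) - 1) := by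
    intro s
    rw [mul_sub, mul_one, Finset.mul_sum,
      ← Finset.add_sum_erase Finset.univ _ (Finset.mem_univ (0 : ZMod p)),
      ← Finset.add_sum_erase Finset.univ (fun x => c s * c ((1 - x) ^ 2 * (1 - s * x)))
        (Finset.mem_univ (0 : ZMod p))]
    have e1 : c s * c ((1 - 0) ^ 2 * (1 - s * 0)) * c 0 ^ 3 = 0 := by rw [h0]; ring
    have e2 : c s * c ((1 - 0) ^ 2 * (1 - s * 0)) = c s := by
      rw [mul_zero, sub_zero, one_pow, mul_one, h1, mul_one]
    rw [e1, e2, zero_add, add_sub_cancel_left]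
    refine Finset.sum_congr rfl ?_
    intro x hx
    rw [Finset.mem_erase] at hx
    rw [h3 x hx.1, mul_one]
  rw [Finset.sum_congr rfl (fun s _ => step2 s)]
  -- evaluate T(s)
  have T1 : ∑ x : ZMod p, c ((1 - x) ^ 2 * (1 - 1 * x)) = (p : R) - 1 := by
    rw [← Equiv.sum_comp (Equiv.subLeft (1 : ZMod p))]
    rw [← Finset.add_sum_erase Finset.univ _ (Finset.mem_univ (0 : ZMod p))]
    have e0 : c ((1 - (Equiv.subLeft (1 : ZMod p)) 0) ^ 2 * (1 - 1 * (Equiv.subLeft (1 : ZMod p)) 0)) = 0 := by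
      rw [Equiv.subLeft_apply, sub_zero, sub_self, zero_pow two_ne_zero, zero_mul, h0]
    rw [e0, zero_add]
    have e1 : ∀ x ∈ Finset.univ.erase (0 : ZMod p),
        c ((1 - (Equiv.subLeft (1 : ZMod p)) x) ^ 2 * (1 - 1 * (Equiv.subLeft (1 : ZMod p)) x)) = 1 := by
      intro x hx
      rw [Finset.mem_erase] at hx
      rw [Equiv.subLeft_apply, one_mul, sub_sub_cancel, ← pow_succ, hpow, h3 x hx.1]
    rw [Finset.sum_congr rfl e1, Finset.sum_const, Finset.card_erase_of_mem (Finset.mem_univ _),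
      Finset.card_univ, ZMod.card, nsmul_eq_mul, mul_one, Nat.cast_sub hp.out.one_lt.le, Nat.cast_one]
  have T2 : ∀ s : ZMod p, s ≠ 1 → ∑ x : ZMod p, c ((1 - x) ^ 2 * (1 - s * x)) = - c s := by
    intro s hs
    have hs' : (1 - s) ≠ 0 := by
      intro h; exact hs (by rw [sub_eq_zero] at h; exact h.symm)
    rw [← Equiv.sum_comp (Equiv.subLeft (1 : ZMod p))]
    have e1 : ∀ x : ZMod p, c ((1 - (Equiv.subLeft (1 : ZMod p)) x) ^ 2 *
        (1 - s * (Equiv.subLeft (1 : ZMod p)) x)) = c (x ^ 2 * (1 - s + s * x)) := by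
      intro x
      rw [Equiv.subLeft_apply, sub_sub_cancel]
      congr 2
      ring
    rw [Finset.sum_congr rfl (fun x _ => e1 x)]
    -- substitute x = v⁻¹
    have e2 : ∑ x : ZMod p, c (x ^ 2 * (1 - s + s * x)) =
        ∑ v : ZMod p, c ((v⁻¹) ^ 2 * (1 - s + s * v⁻¹)) :=
      (Equiv.sum_comp (Equiv.inv (ZMod p)) (fun x => c (x ^ 2 * (1 - s + s * x)))).symm
    rw [e2]
    have e3 : ∑ v : ZMod p, c ((1 - s) * v + s) = 0 := by
      have : ∑ v : ZMod p, c ((1 - s) * v + s) = ∑ u : ZMod p, c u :=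
        Equiv.sum_comp ((Equiv.mulLeft₀ (1 - s) hs').trans (Equiv.addRight s)) c
      rw [this, hs1]
    rw [← Finset.add_sum_erase Finset.univ _ (Finset.mem_univ (0 : ZMod p))] at e3 ⊢
    have e4 : c (((0 : ZMod p)⁻¹) ^ 2 * (1 - s + s * (0 : ZMod p)⁻¹)) = 0 := by
      rw [inv_zero, zero_pow two_ne_zero, zero_mul, h0]
    have e5 : c ((1 - s) * 0 + s) = c s := by rw [mul_zero, zero_add]
    rw [e4, zero_add]
    rw [e5] at e3
    have e6 : ∑ v ∈ Finset.univ.erase (0 : ZMod p), c ((v⁻¹) ^ 2 * (1 - s + s * v⁻¹)) =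
        ∑ v ∈ Finset.univ.erase (0 : ZMod p), c ((1 - s) * v + s) := by
      refine Finset.sum_congr rfl ?_
      intro v hv
      rw [Finset.mem_erase] at hv
      have e7 : (v⁻¹) ^ 2 * (1 - s + s * v⁻¹) = (v⁻¹) ^ 3 * ((1 - s) * v + s) := by
        field_simp [hv.1]
      rw [e7, hmul, hpow, h3 _ (inv_ne_zero hv.1), one_mul]
    rw [e6]
    linear_combination e3
  -- conclude
  rw [← Finset.add_sum_erase Finset.univ _ (Finset.mem_univ (1 : ZMod p)), T1, h1]
  have e8 : ∑ s ∈ Finset.univ.erase (1 : ZMod p),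
      c s * (∑ x : ZMod p, c ((1 - x) ^ 2 * (1 - s * x)) - 1) =
      ∑ s ∈ Finset.univ.erase (1 : ZMod p), (- c s ^ 2 - c s) := by
    refine Finset.sum_congr rfl ?_
    intro s hs
    rw [Finset.mem_erase] at hs
    rw [T2 s hs.1]
    ring
  rw [e8, Finset.sum_sub_distrib, Finset.sum_neg_distrib]
  rw [← Finset.add_sum_erase Finset.univ _ (Finset.mem_univ (1 : ZMod p)), h1] at hs1 hs2
  linear_combination (-1 : R) * hs2 - hs1

end Pool.Agent.Lib.Pffaf6e
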