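import Mathlib

set_option autoImplicit false

namespace Pool.Agent.Lib.Pffaf6e

open Nat

/-- `C(2N, N-i) / C(2N, N)` -/
def rho (N i : ℕ) : ℚ := if i ≤ N then ((N ! : ℕ) : ℚ) ^ 2 / ((((N - i)! : ℕ) : ℚ) * (((N + i)! : ℕ) : ℚ)) else 0

lemma facne (k : ℕ) : (k ! : ℚ) ≠ 0 := by exact_mod_cast (Nat.factorial_pos k).ne'

lemma rho_succ_right (N i : ℕ) (h : i ≤ N) : rho N (i + 1) * (N + i + 1) = rho N i * (N - i) := by
  unfold rho
  rcases Nat.lt_or_ge i N with hlt | hge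
  · rw [if_pos (by omega), if_pos h]
    obtain ⟨d, rfl⟩ : ∃ d, N = i + 1 + d := ⟨N - (i + 1), by omega⟩
    rw [show i + 1 + d - (i + 1) = d by omega, show i + 1 + d - i = d + 1 by omega,
      show i + 1 + d + (i + 1) = (i + 1 + d + i) + 1 by ring, Nat.factorial_succ d,
      Nat.factorial_succ (i + 1 + d + i)]
    have h1 := facne d
    have h2 := facne (i + 1 + d + i)
    have h3 := facne (i + 1 + d)
    have h4 : ((i : ℚ) + 1 + d + i + 1) ≠ 0 := by positivity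
    have h5 : ((d : ℚ) + 1) ≠ 0 := by positivity
    push_cast
    field_simp
    ring
  · have : i = N := le_antisymm h hge
    subst this
    rw [if_neg (by omega)]
    ring

lemma rho_succ_left (n i : ℕ) (h : i ≤ n + 1) :
    rho n i * (n + 1) ^ 2 = rho (n + 1) i * ((n + 1) ^ 2 - i ^ 2) := by
  unfold rho
  rcases Nat.lt_or_ge n i with hlt | hge
  · have : i = n + 1 := by omega
    subst this
    rw [if_neg (by omega)]
    push_cast
    ring
  · rw [if_pos hge, if_pos h]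
    obtain ⟨d, rfl⟩ : ∃ d, n = i + d := ⟨n - i, by omega⟩
    rw [show i + d - i = d by omega, show i + d + 1 - i = d + 1 by omega,
      show i + d + 1 + i = (i + d + i) + 1 by ring, Nat.factorial_succ d,
      Nat.factorial_succ (i + d + i), Nat.factorial_succ (i + d)]
    have h1 := facne d
    have h2 := facne (i + d + i)
    have h3 := facne (i + d)
    have h4 : ((i : ℚ) + d + i + 1) ≠ 0 := by positivity
    have h5 : ((d : ℚ) + 1) ≠ 0 := by positivity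
    push_cast
    field_simp
    ring

lemma rho_zero (N : ℕ) : rho N 0 = 1 := by
  unfold rho
  rw [if_pos (Nat.zero_le _)]
  have := facne N
  simp only [Nat.sub_zero, Nat.add_zero]
  field_simp

lemma rho_one (N : ℕ) : rho N 1 * (N + 1) = N := by
  have := rho_succ_right N 0 (Nat.zero_le _)
  rw [rho_zero] at this
  push_cast at this
  linarith

lemma sum_Ico_tel {A : Type*} [AddCommGroup A] (s : ℕ → A) (a b : ℕ) (h : a ≤ b) :
    ∑ i ∈ Finset.Ico a b, (s (i + 1) - s i) = s b - s a := by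
  induction b, h using Nat.le_induction with
  | base => simp
  | succ b hb ih =>
    rw [Finset.sum_Ico_succ_top hb, ih]
    abel

/-- telescoping evaluation -/
lemma sum_i_rho (N : ℕ) (hN : 1 ≤ N) :
    ∑ i ∈ Finset.Ico 1 (N + 1), (-1 : ℚ) ^ i * i * rho N i = - (N / (2 * (2 * N - 1))) := by
  have hden : (2 * (N : ℚ) - 1) ≠ 0 := by
    have : (1 : ℚ) ≤ N := by exact_mod_cast hN
    intro h; linarith
  set s : ℕ → ℚ := fun i => (-1 : ℚ) ^ i * (N + i) * (i - 1 / 2) * rho N i / (2 * N - 1) with hs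
  have hstep : ∀ i ∈ Finset.Ico 1 (N + 1), (-1 : ℚ) ^ i * i * rho N i = - (s (i + 1) - s i) := by
    intro i hi
    rw [Finset.mem_Ico] at hi
    have h1 := rho_succ_right N i (by omega)
    simp only [hs]
    push_cast
    rw [pow_succ]
    have h2 : (-1 : ℚ) ^ i * (-1) * (N + (i + 1)) * (i + 1 - 1 / 2) * rho N (i + 1) =
        (-1 : ℚ) ^ i * (-1) * (i + 1 - 1 / 2) * (rho N i * (N - i)) := by
      rw [← h1]; ring
    rw [h2]
    field_simp
    ring
  rw [Finset.sum_congr rfl hstep, Finset.sum_neg_distrib, sum_Ico_tel s 1 (N + 1) (by omega)]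
  have h3 : s (N + 1) = 0 := by
    simp only [hs]
    have : rho N (N + 1) = 0 := by unfold rho; rw [if_neg (by omega)]
    rw [this]; ring
  have h4 : s 1 = - (N / (2 * (2 * N - 1))) := by
    simp only [hs]
    have := rho_one N
    have h5 : (-1 : ℚ) ^ 1 * (N + (1 : ℕ)) * ((1 : ℕ) - 1 / 2) * rho N 1 = - (1 / 2) * (rho N 1 * (N + 1)) := by
      push_cast; ring
    rw [h5, this]
    field_simp
  rw [h3, h4]
  ring

lemma sum_rho (n : ℕ) :
    ∑ i ∈ Finset.Ico 1 (n + 1), (-1 : ℚ) ^ i * (i : ℚ)⁻¹ * rho n i =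
      - ∑ j ∈ Finset.Ico (n + 1) (2 * n + 1), ((j : ℚ))⁻¹ := by
  induction n with
  | zero => simp
  | succ n ih =>
    have hext : ∑ i ∈ Finset.Ico 1 (n + 1), (-1 : ℚ) ^ i * (i : ℚ)⁻¹ * rho n i =
        ∑ i ∈ Finset.Ico 1 (n + 1 + 1), (-1 : ℚ) ^ i * (i : ℚ)⁻¹ * rho n i := by
      rw [Finset.sum_Ico_succ_top (by omega : 1 ≤ n + 1)]
      have : rho n (n + 1) = 0 := by unfold rho; rw [if_neg (by omega)]
      rw [this, mul_zero, add_zero]
    have hdiff : ∑ i ∈ Finset.Ico 1 (n + 1 + 1), (-1 : ℚ) ^ i * (i : ℚ)⁻¹ * rho (n + 1) i -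
        ∑ i ∈ Finset.Ico 1 (n + 1 + 1), (-1 : ℚ) ^ i * (i : ℚ)⁻¹ * rho n i =
        (∑ i ∈ Finset.Ico 1 (n + 1 + 1), (-1 : ℚ) ^ i * i * rho (n + 1) i) / (n + 1) ^ 2 := by
      rw [← Finset.sum_sub_distrib, Finset.sum_div]
      refine Finset.sum_congr rfl ?_
      intro i hi
      rw [Finset.mem_Ico] at hi
      have h1 := rho_succ_left n i (by omega)
      have h2 : (n : ℚ) + 1 ≠ 0 := by positivity
      have h3 : (i : ℚ) ≠ 0 := by
        have : i ≠ 0 := by omega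
        exact_mod_cast this
      have h4 : rho n i = rho (n + 1) i * ((n + 1) ^ 2 - i ^ 2) / (n + 1) ^ 2 := by
        rw [← h1]; field_simp
      rw [h4]
      field_simp
      ring
    have hS := sum_i_rho (n + 1) (by omega)
    have hH : ∑ j ∈ Finset.Ico (n + 1 + 1) (2 * (n + 1) + 1), ((j : ℚ))⁻¹ =
        ∑ j ∈ Finset.Ico (n + 1) (2 * n + 1), ((j : ℚ))⁻¹ - ((n : ℚ) + 1)⁻¹ + (2 * (n : ℚ) + 1)⁻¹ +
          (2 * (n : ℚ) + 2)⁻¹ := by
      have e1 : ∑ j ∈ Finset.Ico (n + 1) (2 * (n + 1) + 1), ((j : ℚ))⁻¹ =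
          ((n : ℚ) + 1)⁻¹ + ∑ j ∈ Finset.Ico (n + 1 + 1) (2 * (n + 1) + 1), ((j : ℚ))⁻¹ := by
        rw [Finset.sum_eq_sum_Ico_succ_bot (by omega)]
        push_cast
        rfl
      have e2 : ∑ j ∈ Finset.Ico (n + 1) (2 * (n + 1) + 1), ((j : ℚ))⁻¹ =
          ∑ j ∈ Finset.Ico (n + 1) (2 * n + 1), ((j : ℚ))⁻¹ + (2 * (n : ℚ) + 1)⁻¹ +
          (2 * (n : ℚ) + 2)⁻¹ := by
        rw [show 2 * (n + 1) + 1 = 2 * n + 1 + 1 + 1 by ring, Finset.sum_Ico_succ_top (by omega),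
          Finset.sum_Ico_succ_top (by omega)]
        push_cast
        ring_nf
      linarith
    rw [hH]
    push_cast at hS
    rw [hS] at hdiff
    rw [← hext, ih] at hdiff
    have h2 : (n : ℚ) + 1 ≠ 0 := by positivity
    have h3 : 2 * (n : ℚ) + 1 ≠ 0 := by positivity
    have h5 : 2 * (n : ℚ) + 2 ≠ 0 := by positivity
    have h6 : 2 * ((n : ℚ) + 1) - 1 ≠ 0 := by
      have : 2 * ((n : ℚ) + 1) - 1 = 2 * (n : ℚ) + 1 := by ring
      rw [this]; exact h3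
    have h4 : -(((n : ℚ) + 1) / (2 * (2 * ((n : ℚ) + 1) - 1))) / (n + 1) ^ 2 =
        ((n : ℚ) + 1)⁻¹ - (2 * (n : ℚ) + 1)⁻¹ - (2 * (n : ℚ) + 2)⁻¹ := by
      rw [show 2 * ((n : ℚ) + 1) - 1 = 2 * (n : ℚ) + 1 by ring]
      field_simp
      ring
    linarith

lemma choose_rho (n i : ℕ) (h : i ≤ n) : (((2 * n).choose (n - i) : ℕ) : ℚ) = ((2 * n).choose n : ℕ) * rho n i := by
  unfold rho
  rw [if_pos h]
  have h1 := Nat.choose_mul_factorial_mul_factorial (show n - i ≤ 2 * n by omega)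
  have h2 := Nat.choose_mul_factorial_mul_factorial (show n ≤ 2 * n by omega)
  rw [show 2 * n - (n - i) = n + i by omega] at h1
  rw [show 2 * n - n = n by omega] at h2
  have h1' : (((2 * n).choose (n - i) : ℕ) : ℚ) * ((n - i)! : ℕ) * ((n + i)! : ℕ) = ((2 * n)! : ℕ) := by
    exact_mod_cast h1
  have h2' : (((2 * n).choose n : ℕ) : ℚ) * (n ! : ℕ) * (n ! : ℕ) = ((2 * n)! : ℕ) := by
    exact_mod_cast h2
  have f1 := facne (n - i)
  have f2 := facne (n + i)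
  field_simp
  rw [h1', ← h2']
  ring

lemma sum_choose_inv (n : ℕ) :
    ∑ i ∈ Finset.Ico 1 (n + 1), (-1 : ℚ) ^ i * (i : ℚ)⁻¹ * (((2 * n).choose (n - i) : ℕ) : ℚ) =
      - (((2 * n).choose n : ℕ) : ℚ) * ∑ j ∈ Finset.Ico (n + 1) (2 * n + 1), ((j : ℚ))⁻¹ := by
  have h := sum_rho n
  have h2 : ∑ i ∈ Finset.Ico 1 (n + 1), (-1 : ℚ) ^ i * (i : ℚ)⁻¹ * (((2 * n).choose (n - i) : ℕ) : ℚ) =
      (((2 * n).choose n : ℕ) : ℚ) * ∑ i ∈ Finset.Ico 1 (n + 1), (-1 : ℚ) ^ i * (i : ℚ)⁻¹ * rho n i := by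
    rw [Finset.mul_sum]
    refine Finset.sum_congr rfl ?_
    intro i hi
    rw [Finset.mem_Ico] at hi
    rw [choose_rho n i (by omega)]
    ring
  rw [h2, h]
  ring

/-- alternating sum of half a row -/
lemma alt_half (n : ℕ) (hn : 1 ≤ n) :
    2 * ∑ i ∈ Finset.Ico 1 (n + 1), (-1 : ℤ) ^ i * ((2 * n).choose (n - i) : ℤ) =
      - ((2 * n).choose n : ℤ) := by
  obtain ⟨m, rfl⟩ : ∃ m, n = m + 1 := ⟨n - 1, by omega⟩
  have h := @Int.alternating_sum_range_choose_eq_choose (2 * m + 1) m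
  rw [show 2 * m + 1 + 1 = 2 * (m + 1) by ring] at h
  have h2 : ∑ i ∈ Finset.Ico 1 (m + 1 + 1), (-1 : ℤ) ^ i * ((2 * (m + 1)).choose (m + 1 - i) : ℤ) =
      ∑ k ∈ Finset.range (m + 1), (-1 : ℤ) ^ (m + 1) * ((-1) ^ k * ((2 * (m + 1)).choose k : ℤ)) := by
    refine Finset.sum_nbij' (fun i => m + 1 - i) (fun k => m + 1 - k) ?_ ?_ ?_ ?_ ?_
    · intro i hi; simp only [Finset.mem_Ico, Finset.mem_range] at *; omega
    · intro k hk; simp only [Finset.mem_Ico, Finset.mem_range] at *; omega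
    · intro i hi; simp only [Finset.mem_Ico] at *; omega
    · intro k hk; simp only [Finset.mem_range] at *; omega
    · intro i hi
      simp only [Finset.mem_Ico] at hi
      have : (-1 : ℤ) ^ (m + 1) * (-1) ^ (m + 1 - i) = (-1) ^ i := by
        rw [← pow_add]
        have e : m + 1 + (m + 1 - i) = i + 2 * (m + 1 - i) := by omega
        rw [e, pow_add, pow_mul]
        simp
      rw [← this]
      ring
  rw [h2, ← Finset.mul_sum, h]
  have h3 : ((2 * (m + 1)).choose (m + 1) : ℤ) = 2 * ((2 * m + 1).choose m : ℤ) := by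
    have e1 : (2 * (m + 1)).choose (m + 1) = (2 * m + 1).choose m + (2 * m + 1).choose (m + 1) := by
      rw [show 2 * (m + 1) = (2 * m + 1) + 1 by ring]
      exact Nat.choose_succ_succ _ _
    rw [e1, Nat.choose_symm_half]
    push_cast
    ring
  rw [h3]
  have h4 : (-1 : ℤ) ^ (m + 1) * (-1) ^ m = -1 := by
    rw [pow_succ, mul_assoc, mul_comm (-1 : ℤ) ((-1) ^ m), ← mul_assoc, ← mul_pow]
    simp
  calc 2 * ((-1 : ℤ) ^ (m + 1) * ((-1) ^ m * ((2 * m + 1).choose m : ℤ)))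
      = 2 * (((-1 : ℤ) ^ (m + 1) * (-1) ^ m) * ((2 * m + 1).choose m : ℤ)) := by ring
    _ = _ := by rw [h4]; ring

end Pool.Agent.Lib.Pffaf6e
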