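import Mathlib
import Pool.Agent.Lib.Pffaf6e.UnitRoot
import Pool.Agent.Lib.Pffaf6e.Comb

set_option autoImplicit false
set_option linter.unusedSectionVars false

namespace Pool.Agent.Lib.Pffaf6e

variable (p : ℕ) [hp : Fact p.Prime]

lemma sum_poly (M N : ℕ) :
    ∑ x : ZMod p, om p x ^ M * (1 - om p x) ^ N =
      ∑ l ∈ Finset.range (N + 1), ((-1 : ZMod (p ^ 2)) ^ l * ((N.choose l : ℕ) : ZMod (p ^ 2))) *
        ∑ x : ZMod p, om p x ^ (M + l) := by
  simp only [Finset.mul_sum]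
  rw [Finset.sum_comm]
  refine Finset.sum_congr rfl ?_
  intro x _
  rw [sub_eq_neg_add, add_pow, Finset.mul_sum]
  refine Finset.sum_congr rfl ?_
  intro l _
  rw [one_pow, mul_one, neg_pow (om p x) l, pow_add (om p x) M l]
  ring

lemma termA (n : ℕ) (h3 : p = 3 * n + 1) (hn : 0 < n) :
    ∑ x : ZMod p, om p x ^ (2 * n) * (1 - om p x) ^ (2 * n) =
      ((-1 : ZMod (p ^ 2)) ^ n * (((2 * n).choose n : ℕ) : ZMod (p ^ 2))) * ((p : ZMod (p ^ 2)) - 1) := by
  rw [sum_poly]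
  rw [Finset.sum_eq_single n]
  · rw [sum_om_pow_of_dvd p (by omega)]
    have : p - 1 = 2 * n + n := by omega
    rw [this]
  · intro l hl hne
    rw [Finset.mem_range] at hl
    rw [sum_om_pow_of_not_dvd, mul_zero]
    rintro ⟨k, hk⟩
    have hp1 : p - 1 = 3 * n := by omega
    rw [hp1] at hk
    rcases k with _ | _ | k
    · omega
    · omega
    · nlinarith
  · intro h
    exfalso
    apply h
    rw [Finset.mem_range]
    omega

/-- the inner alternating sum -/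
def Dsum (n i : ℕ) : ℤ :=
  ∑ l ∈ Finset.range (2 * n), (if 3 * n ∣ 2 * n + i + l then (-1) ^ l * ((2 * n - 1).choose l : ℤ) else 0)

lemma Dsum_low (n i : ℕ) (h1 : 1 ≤ i) (h2 : i ≤ n) :
    Dsum n i = (-1) ^ (n - i) * ((2 * n - 1).choose (n - i) : ℤ) := by
  unfold Dsum
  rw [Finset.sum_eq_single (n - i)]
  · rw [if_pos]
    exact ⟨1, by omega⟩
  · intro l hl hne
    rw [Finset.mem_range] at hl
    rw [if_neg]
    rintro ⟨k, hk⟩
    rcases k with _ | _ | k
    · omega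
    · omega
    · nlinarith
  · intro h
    exfalso
    apply h
    rw [Finset.mem_range]
    omega

lemma Dsum_mid (n i : ℕ) (h1 : n < i) (h2 : i ≤ 2 * n) : Dsum n i = 0 := by
  unfold Dsum
  refine Finset.sum_eq_zero ?_
  intro l hl
  rw [Finset.mem_range] at hl
  rw [if_neg]
  rintro ⟨k, hk⟩
  rcases k with _ | _ | _ | k
  · omega
  · omega
  · omega
  · nlinarith

lemma Dsum_high (n i : ℕ) (h1 : 2 * n < i) (h2 : i ≤ 3 * n) :
    Dsum n i = (-1) ^ (4 * n - i) * ((2 * n - 1).choose (4 * n - i) : ℤ) := by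
  unfold Dsum
  rw [Finset.sum_eq_single (4 * n - i)]
  · rw [if_pos]
    exact ⟨2, by omega⟩
  · intro l hl hne
    rw [Finset.mem_range] at hl
    rw [if_neg]
    rintro ⟨k, hk⟩
    rcases k with _ | _ | _ | k
    · omega
    · omega
    · omega
    · nlinarith
  · intro h
    exfalso
    apply h
    rw [Finset.mem_range]
    omega

lemma p_mul_pred : (p : ZMod (p ^ 2)) * ((p : ZMod (p ^ 2)) - 1) = - (p : ZMod (p ^ 2)) := by
  have := psq p
  linear_combination this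

lemma termB (n : ℕ) (h3 : p = 3 * n + 1) (hn : 0 < n) :
    (p : ZMod (p ^ 2)) *
        ∑ x : ZMod p, om p x ^ (2 * n) * lam p (om p x) * (1 - om p x) ^ (2 * n - 1) =
      - ∑ i ∈ Finset.Ico 1 p, (p : ZMod (p ^ 2)) * (i : ZMod (p ^ 2))⁻¹ * ((Dsum n i : ℤ) : ZMod (p ^ 2)) := by
  have h1 : ∑ x : ZMod p, om p x ^ (2 * n) * lam p (om p x) * (1 - om p x) ^ (2 * n - 1) =
      ∑ i ∈ Finset.Ico 1 p, (i : ZMod (p ^ 2))⁻¹ *
        ∑ x : ZMod p, om p x ^ (2 * n + i) * (1 - om p x) ^ (2 * n - 1) := by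
    simp only [Finset.mul_sum]
    rw [Finset.sum_comm]
    refine Finset.sum_congr rfl ?_
    intro x _
    unfold lam
    rw [Finset.mul_sum, Finset.sum_mul]
    refine Finset.sum_congr rfl ?_
    intro i _
    rw [pow_add (om p x) (2 * n) i]
    ring
  rw [h1, Finset.mul_sum, ← Finset.sum_neg_distrib]
  refine Finset.sum_congr rfl ?_
  intro i hi
  rw [Finset.mem_Ico] at hi
  rw [sum_poly, show 2 * n - 1 + 1 = 2 * n by omega]
  unfold Dsum
  rw [Int.cast_sum, Finset.mul_sum, Finset.mul_sum, Finset.mul_sum, ← Finset.sum_neg_distrib]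
  refine Finset.sum_congr rfl ?_
  intro l hl
  have hp1 : p - 1 = 3 * n := by omega
  by_cases hd : 3 * n ∣ 2 * n + i + l
  · rw [if_pos hd, sum_om_pow_of_dvd p (by omega) (by rw [hp1]; exact hd)]
    push_cast
    have := p_mul_pred p
    linear_combination ((i : ZMod (p ^ 2))⁻¹ * ((-1) ^ l * (((2 * n - 1).choose l : ℕ) : ZMod (p ^ 2)))) * this
  · rw [if_neg hd, sum_om_pow_of_not_dvd p (by rw [hp1]; exact hd)]
    push_cast
    ring

lemma p_inv_sub (i : ℕ) (h1 : 1 ≤ i) (h2 : i < p) :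
    (p : ZMod (p ^ 2)) * ((p - i : ℕ) : ZMod (p ^ 2))⁻¹ = - ((p : ZMod (p ^ 2)) * (i : ZMod (p ^ 2))⁻¹) := by
  have hi := not_dvd_of_lt p h1 h2
  have hpi := not_dvd_of_lt p (i := p - i) (by omega) (by omega)
  have e1 : ((p - i : ℕ) : ZMod (p ^ 2)) = (p : ZMod (p ^ 2)) - i := by
    rw [Nat.cast_sub h2.le]
  have u1 := mul_inv_nat p hi
  have u2 := mul_inv_nat p hpi
  rw [e1] at u2 ⊢
  have hp2 := psq p
  -- multiply by units
  set a := ((p : ZMod (p ^ 2)) - i)⁻¹ with ha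
  set b := (i : ZMod (p ^ 2))⁻¹ with hb
  -- p * a = p * a * (i*b) = p*b*(i*a), and (p - i) a = 1 → i a = p a - 1
  have h5 : (p : ZMod (p ^ 2)) * a = (p : ZMod (p ^ 2)) * b * ((i : ZMod (p ^ 2)) * a) := by
    linear_combination (-(p : ZMod (p ^ 2)) * a) * u1
  have h6 : (i : ZMod (p ^ 2)) * a = (p : ZMod (p ^ 2)) * a - 1 := by
    linear_combination -u2
  rw [h5, h6]
  linear_combination (a * b) * hp2

/-- The half sum `Z`. -/
def Zsum (n : ℕ) : ZMod (p ^ 2) :=
  ∑ i ∈ Finset.Ico 1 (n + 1), (p : ZMod (p ^ 2)) * (i : ZMod (p ^ 2))⁻¹ *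
    ((-1) ^ i * (((2 * n - 1).choose (n - i) : ℕ) : ZMod (p ^ 2)))

lemma termB' (n : ℕ) (h3 : p = 3 * n + 1) (hn : 0 < n) (hev : Even n) :
    ∑ i ∈ Finset.Ico 1 p, (p : ZMod (p ^ 2)) * (i : ZMod (p ^ 2))⁻¹ * ((Dsum n i : ℤ) : ZMod (p ^ 2)) =
      2 * Zsum p n := by
  rw [← Finset.sum_Ico_consecutive _ (show 1 ≤ n + 1 by omega) (show n + 1 ≤ p by omega),
    ← Finset.sum_Ico_consecutive _ (show n + 1 ≤ 2 * n + 1 by omega) (show 2 * n + 1 ≤ p by omega)]
  have hmid : ∑ i ∈ Finset.Ico (n + 1) (2 * n + 1),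
      (p : ZMod (p ^ 2)) * (i : ZMod (p ^ 2))⁻¹ * ((Dsum n i : ℤ) : ZMod (p ^ 2)) = 0 := by
    refine Finset.sum_eq_zero ?_
    intro i hi
    rw [Finset.mem_Ico] at hi
    rw [Dsum_mid n i (by omega) (by omega)]
    simp
  rw [hmid, zero_add]
  have hlow : ∑ i ∈ Finset.Ico 1 (n + 1),
      (p : ZMod (p ^ 2)) * (i : ZMod (p ^ 2))⁻¹ * ((Dsum n i : ℤ) : ZMod (p ^ 2)) = Zsum p n := by
    unfold Zsum
    refine Finset.sum_congr rfl ?_
    intro i hi
    rw [Finset.mem_Ico] at hi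
    rw [Dsum_low n i (by omega) (by omega)]
    push_cast
    have : (-1 : ZMod (p ^ 2)) ^ (n - i) = (-1) ^ i := by
      have e : (-1 : ZMod (p ^ 2)) ^ (n - i) * (-1) ^ i = 1 := by
        rw [← pow_add, show n - i + i = n by omega]
        exact hev.neg_one_pow
      have e2 : (-1 : ZMod (p ^ 2)) ^ i * (-1) ^ i = 1 := by rw [← mul_pow]; simp
      calc (-1 : ZMod (p ^ 2)) ^ (n - i) = (-1 : ZMod (p ^ 2)) ^ (n - i) * ((-1) ^ i * (-1) ^ i) := by
            rw [e2, mul_one]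
        _ = (-1 : ZMod (p ^ 2)) ^ (n - i) * (-1) ^ i * (-1) ^ i := by ring
        _ = (-1) ^ i := by rw [e, one_mul]
    rw [this]
  have hhigh : ∑ i ∈ Finset.Ico (2 * n + 1) p,
      (p : ZMod (p ^ 2)) * (i : ZMod (p ^ 2))⁻¹ * ((Dsum n i : ℤ) : ZMod (p ^ 2)) = Zsum p n := by
    unfold Zsum
    refine Finset.sum_nbij' (fun i => p - i) (fun i => p - i) ?_ ?_ ?_ ?_ ?_
    · intro i hi; simp only [Finset.mem_Ico] at *; omega
    · intro i hi; simp only [Finset.mem_Ico] at *; omega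
    · intro i hi; simp only [Finset.mem_Ico] at *; omega
    · intro i hi; simp only [Finset.mem_Ico] at *; omega
    · intro i hi
      simp only [Finset.mem_Ico] at hi
      rw [Dsum_high n i (by omega) (by omega)]
      obtain ⟨j, hj⟩ : ∃ j, j = p - i := ⟨_, rfl⟩
      have hij : i = p - j := by omega
      have hj1 : 1 ≤ j := by omega
      have hjn : j ≤ n := by omega
      rw [← hj]
      have hinv : (p : ZMod (p ^ 2)) * (i : ZMod (p ^ 2))⁻¹ = - ((p : ZMod (p ^ 2)) * (j : ZMod (p ^ 2))⁻¹) := by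
        rw [hij]; exact p_inv_sub p j hj1 (by omega)
      rw [hinv]
      have hch : (2 * n - 1).choose (4 * n - i) = (2 * n - 1).choose (n - j) := by
        rw [show 4 * n - i = 2 * n - 1 - (n - j) by omega]
        exact Nat.choose_symm (by omega)
      rw [hch]
      push_cast
      have hsg : (-1 : ZMod (p ^ 2)) ^ (4 * n - i) = - (-1) ^ j := by
        have e : (-1 : ZMod (p ^ 2)) ^ (4 * n - i) * (-1) = (-1) ^ j := by
          rw [← pow_succ]
          have e1 : 4 * n - i + 1 = n + j := by omega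
          rw [e1, pow_add, hev.neg_one_pow, one_mul]
        linear_combination (-1 : ZMod (p ^ 2)) * e
      rw [hsg]
      ring
  rw [hlow, hhigh]
  ring

end Pool.Agent.Lib.Pffaf6e
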