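import Mathlib
import Pool.Agent.Lib.Pffaf6e.Unit2

set_option autoImplicit false
set_option linter.unusedSectionVars false

namespace Pool.Agent.Lib.Pffaf6e

variable (p : ℕ) [hp : Fact p.Prime]

lemma choose_shift (n i : ℕ) (h1 : 1 ≤ i) (h2 : i ≤ n) :
    2 * n * (2 * n - 1).choose (n - i) = (n + i) * (2 * n).choose (n - i) := by
  obtain ⟨m, hm⟩ : ∃ m, 2 * n = m + 1 := ⟨2 * n - 1, by omega⟩
  rw [hm, Nat.add_sub_cancel]
  have h := Nat.add_one_mul_choose_eq m (m + 1 - (n - i) - 1)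
  have e1 : m + 1 - (n - i) - 1 + 1 = m + 1 - (n - i) := by omega
  have e2 : m.choose (m + 1 - (n - i) - 1) = m.choose (n - i) := by
    rw [show m + 1 - (n - i) - 1 = m - (n - i) by omega]
    exact Nat.choose_symm (by omega)
  have e3 : (m + 1).choose (m + 1 - (n - i)) = (m + 1).choose (n - i) :=
    Nat.choose_symm (by omega)
  rw [e1, e2, e3] at h
  rw [h, mul_comm]
  congr 1
  omega

/-- `p * ∑_{j = n+1}^{2n} 1/j = 0`. -/
lemma p_sum_mid (n : ℕ) (h3 : p = 3 * n + 1) :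
    (p : ZMod (p ^ 2)) * ∑ j ∈ Finset.Ico (n + 1) (2 * n + 1), (j : ZMod (p ^ 2))⁻¹ = 0 := by
  have hodd : p % 2 = 1 := by
    rcases hp.out.eq_two_or_odd with h | h
    · omega
    · exact h
  have h1 : (p : ZMod (p ^ 2)) * ∑ j ∈ Finset.Ico (n + 1) (2 * n + 1), (j : ZMod (p ^ 2))⁻¹ =
      - ((p : ZMod (p ^ 2)) * ∑ j ∈ Finset.Ico (n + 1) (2 * n + 1), (j : ZMod (p ^ 2))⁻¹) := by
    rw [Finset.mul_sum]
    conv_rhs => rw [← Finset.sum_neg_distrib]
    refine Finset.sum_nbij' (fun i => p - i) (fun i => p - i) ?_ ?_ ?_ ?_ ?_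
    · intro i hi; simp only [Finset.mem_Ico] at *; omega
    · intro i hi; simp only [Finset.mem_Ico] at *; omega
    · intro i hi; simp only [Finset.mem_Ico] at *; omega
    · intro i hi; simp only [Finset.mem_Ico] at *; omega
    · intro i hi
      simp only [Finset.mem_Ico] at hi
      rw [p_inv_sub p i (by omega) (by omega), neg_neg]
  set X := (p : ZMod (p ^ 2)) * ∑ j ∈ Finset.Ico (n + 1) (2 * n + 1), (j : ZMod (p ^ 2))⁻¹ with hX
  have h2 : ((2 : ℕ) : ZMod (p ^ 2)) * X = 0 := by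
    push_cast
    linear_combination h1
  have hu : IsUnit ((2 : ℕ) : ZMod (p ^ 2)) := isUnit_nat p (by
    intro h
    have := Nat.le_of_dvd (by norm_num) h
    have := hp.out.two_le
    have : p = 2 := by omega
    omega)
  exact (hu.mul_right_eq_zero).mp h2

lemma Zsum_eval (n : ℕ) (h3 : p = 3 * n + 1) (hn : 0 < n) :
    (4 * n : ZMod (p ^ 2)) * Zsum p n = - ((p : ZMod (p ^ 2)) * (((2 * n).choose n : ℕ) : ZMod (p ^ 2))) := by
  have hmid := p_sum_mid p n h3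
  -- reduce sum_choose_inv
  have hR1 : Red p (∑ i ∈ Finset.Ico 1 (n + 1), (-1 : ℚ) ^ i * (i : ℚ)⁻¹ * (((2 * n).choose (n - i) : ℕ) : ℚ))
      (∑ i ∈ Finset.Ico 1 (n + 1), (-1 : ZMod (p ^ 2)) ^ i * (i : ZMod (p ^ 2))⁻¹ *
        (((2 * n).choose (n - i) : ℕ) : ZMod (p ^ 2))) := by
    refine Red.sum _ ?_
    intro i hi
    rw [Finset.mem_Ico] at hi
    exact (((Red.one p).neg.pow i).mul (Red.invNat (not_dvd_of_lt p (by omega) (by omega)))).mul
      (Red.nat p _)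
  have hR2 : Red p (- (((2 * n).choose n : ℕ) : ℚ) * ∑ j ∈ Finset.Ico (n + 1) (2 * n + 1), ((j : ℚ))⁻¹)
      (- (((2 * n).choose n : ℕ) : ZMod (p ^ 2)) * ∑ j ∈ Finset.Ico (n + 1) (2 * n + 1), (j : ZMod (p ^ 2))⁻¹) := by
    refine (Red.nat p _).neg.mul (Red.sum _ ?_)
    intro j hj
    rw [Finset.mem_Ico] at hj
    exact Red.invNat (not_dvd_of_lt p (by omega) (by omega))
  rw [← sum_choose_inv] at hR2
  have e1 := Red.unique hR1 hR2
  have e2 := congrArg (fun z : ℤ => (z : ZMod (p ^ 2))) (alt_half n hn)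
  push_cast at e2
  have e3 : (4 * n : ZMod (p ^ 2)) * Zsum p n = 2 * ((p : ZMod (p ^ 2)) *
      ∑ i ∈ Finset.Ico 1 (n + 1), (-1 : ZMod (p ^ 2)) ^ i * (((2 * n).choose (n - i) : ℕ) : ZMod (p ^ 2)))
      + 2 * n * (p : ZMod (p ^ 2)) * ∑ i ∈ Finset.Ico 1 (n + 1), (-1 : ZMod (p ^ 2)) ^ i * (i : ZMod (p ^ 2))⁻¹ *
        (((2 * n).choose (n - i) : ℕ) : ZMod (p ^ 2)) := by
    unfold Zsum
    simp only [Finset.mul_sum]
    rw [← Finset.sum_add_distrib]
    refine Finset.sum_congr rfl ?_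
    intro i hi
    rw [Finset.mem_Ico] at hi
    have hs := congrArg (fun z : ℕ => (z : ZMod (p ^ 2))) (choose_shift n i (by omega) (by omega))
    push_cast at hs
    have hu := inv_mul_nat p (not_dvd_of_lt p (i := i) (by omega) (by omega))
    linear_combination (2 * (p : ZMod (p ^ 2)) * (i : ZMod (p ^ 2))⁻¹ * (-1) ^ i) * hs +
      (2 * (p : ZMod (p ^ 2)) * (-1) ^ i * (((2 * n).choose (n - i) : ℕ) : ZMod (p ^ 2))) * hu
  rw [e3, e1]
  have hmid' : 2 * (n : ZMod (p ^ 2)) * (p : ZMod (p ^ 2)) * (-(((2 * n).choose n : ℕ) : ZMod (p ^ 2)) *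
      ∑ j ∈ Finset.Ico (n + 1) (2 * n + 1), (j : ZMod (p ^ 2))⁻¹) = 0 := by
    linear_combination (-2 * (n : ZMod (p ^ 2)) * (((2 * n).choose n : ℕ) : ZMod (p ^ 2))) * hmid
  rw [hmid', add_zero]
  linear_combination (p : ZMod (p ^ 2)) * e2

/-- The Chowla–Dwork–Evans type evaluation. -/
theorem U_eval (n : ℕ) (h3 : p = 3 * n + 1) (hn : 0 < n) (hev : Even n) :
    ∑ x : ZMod p, om p x ^ (2 * n) * om p (1 - x) ^ (2 * n) =
      - (((2 * n).choose n : ℕ) : ZMod (p ^ 2)) := by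
  have hodd : p % 2 = 1 := by
    rcases hp.out.eq_two_or_odd with h | h
    · omega
    · exact h
  rw [U_expand p n hn hodd, termA p n h3 hn, termB p n h3 hn, termB' p n h3 hn hev, hev.neg_one_pow]
  have := Zsum_eval p n h3 hn
  linear_combination this

end Pool.Agent.Lib.Pffaf6e
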