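import Mathlib
import Pool.Agent.Lib.Pffaf6e.Unit3
import Pool.Agent.Lib.Pffaf6e.Cubic

set_option autoImplicit false
set_option linter.unusedSectionVars false

namespace Pool.Agent.Lib.Pffaf6e

lemma three_dvd_card {α : Type*} [DecidableEq α] (s : Finset α) (f : α → α)
    (hmem : ∀ x ∈ s, f x ∈ s) (h3 : ∀ x ∈ s, f (f (f x)) = x) (hfix : ∀ x ∈ s, f x ≠ x) :
    3 ∣ s.card := by
  classical
  let F : Function.End {x // x ∈ s} := fun x => ⟨f x.1, hmem x.1 x.2⟩
  have hF : F ^ 3 ^ 1 = 1 := by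
    funext x
    have : (F ^ 3 ^ 1) x = F (F (F x)) := rfl
    rw [this]
    apply Subtype.ext
    exact h3 x.1 x.2
  haveI : Fact (Nat.Prime 3) := ⟨Nat.prime_three⟩
  have h := Equiv.Perm.card_fixedPoints_modEq (α := {x // x ∈ s}) (p := 3) (n := 1) hF
  have h0 : Fintype.card (Function.fixedPoints F) = 0 := by
    rw [Fintype.card_eq_zero_iff]
    constructor
    rintro ⟨x, hx⟩
    exact hfix x.1 x.2 (congrArg Subtype.val hx)
  rw [h0, Fintype.card_coe] at h
  exact (Nat.modEq_zero_iff_dvd).mp h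

variable (p : ℕ) [hp : Fact p.Prime]

/-- sum of a function of values in `{1, w, w^2}` -/
lemma sum_fiber {R : Type*} [CommRing R] (s : Finset (ZMod p)) (f : ZMod p → ZMod p) (G : ZMod p → R)
    (w : ZMod p) (hw1 : w ≠ 1) (hw2 : w ^ 2 ≠ 1) (hw0 : w ≠ 0)
    (hf : ∀ x ∈ s, f x = 1 ∨ f x = w ∨ f x = w ^ 2) :
    ∑ x ∈ s, G (f x) = ((s.filter (fun x => f x = 1)).card : R) * G 1 +
      ((s.filter (fun x => f x = w)).card : R) * G w +
      ((s.filter (fun x => f x = w ^ 2)).card : R) * G (w ^ 2) := by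
  have hww : w ^ 2 ≠ w := by
    intro h
    apply hw1
    have : w * (w - 1) = 0 := by linear_combination h
    rcases mul_eq_zero.mp this with h | h
    · exact absurd h hw0
    · linear_combination h
  have key : ∀ a : ZMod p, ((s.filter (fun x => f x = a)).card : R) * G a =
      ∑ x ∈ s, if f x = a then G (f x) else 0 := by
    intro a
    rw [← Finset.sum_filter, Finset.sum_congr rfl (g := fun _ => G a), Finset.sum_const, nsmul_eq_mul]
    intro x hx
    rw [Finset.mem_filter] at hx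
    rw [hx.2]
  rw [key, key, key, ← Finset.sum_add_distrib, ← Finset.sum_add_distrib]
  refine Finset.sum_congr rfl ?_
  intro x hx
  rcases hf x hx with h | h | h
  · rw [h, if_pos rfl, if_neg (fun h => hw1 h.symm), if_neg (fun h => hw2 h.symm)]
    ring
  · rw [h, if_neg hw1, if_pos rfl, if_neg (fun h => hww h.symm)]
    ring
  · rw [h, if_neg hw2, if_neg hww, if_pos rfl]
    ring

/-- Existence of the representation together with the congruence for the central binomial. -/
theorem exists_rep (n : ℕ) (h3 : p = 3 * n + 1) (hn : 0 < n) (hev : Even n) :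
    ∃ L M : ℤ, 4 * (p : ℤ) = L ^ 2 + 27 * M ^ 2 ∧ L % 3 = 2 ∧
      ((((2 * n).choose n : ℕ) : ZMod (p ^ 2))) ^ 2 =
        (((2 * n).choose n : ℕ) : ZMod (p ^ 2)) * (L : ZMod (p ^ 2)) - (p : ZMod (p ^ 2)) := by
  classical
  have hp1 : p - 1 = 3 * n := by omega
  obtain ⟨g, hg0, hg⟩ := exists_gen p
  set w : ZMod p := g ^ n with hw
  have hw3 : w ^ 3 = 1 := by
    rw [hw, ← pow_mul, mul_comm n 3, ← hp1]
    exact ZMod.pow_card_sub_one_eq_one hg0
  have hw0 : w ≠ 0 := pow_ne_zero _ hg0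
  have hw1 : w ≠ 1 := by
    intro h
    have h1 := Nat.le_of_dvd hn (hg n h)
    omega
  have hw2 : w ^ 2 ≠ 1 := by
    intro h
    apply hw1
    have : w ^ 3 = w := by rw [pow_succ, h, one_mul]
    rw [← this, hw3]
  clear_value w
  -- sum relation
  have hwsum : w ^ 2 + w + 1 = 0 := by
    have : (w - 1) * (w ^ 2 + w + 1) = 0 := by linear_combination hw3
    rcases mul_eq_zero.mp this with h | h
    · exact absurd (by linear_combination h) hw1
    · exact h
  -- n-th powers
  have hval : ∀ y : ZMod p, y ≠ 0 → y ^ n = 1 ∨ y ^ n = w ∨ y ^ n = w ^ 2 := by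
    intro y hy
    have h1 : (y ^ n) ^ 3 = 1 := by
      rw [← pow_mul, mul_comm n 3, ← hp1]
      exact ZMod.pow_card_sub_one_eq_one hy
    have h2 : (y ^ n - 1) * ((y ^ n - w) * (y ^ n - w ^ 2)) = 0 := by
      linear_combination h1 - (y ^ n * (y ^ n - 1)) * hwsum + (y ^ n - 1) * hw3
    rcases mul_eq_zero.mp h2 with h | h
    · left; linear_combination h
    · rcases mul_eq_zero.mp h with h | h
      · right; left; linear_combination h
      · right; right; linear_combination h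
  -- the character
  set z : ZMod (p ^ 2) := om p w with hz
  have hz3 : z ^ 3 = 1 := by rw [hz, ← om_pow, hw3, om_one]
  have hzu : IsUnit (z - 1) := by
    apply isUnit_of_red
    rw [map_sub, map_one, hz, red_om, sub_ne_zero]
    exact hw1
  have hzsum : z ^ 2 + z + 1 = 0 := by
    have : (z - 1) * (z ^ 2 + z + 1) = 0 := by linear_combination hz3
    exact (hzu.mul_right_eq_zero).mp this
  set S : Finset (ZMod p) := Finset.univ.filter (fun x => x ≠ 0 ∧ x ≠ 1) with hS
  have hScard : S.card = p - 2 := by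
    have h1 : S = (Finset.univ.erase (0 : ZMod p)).erase 1 := by
      ext x
      simp only [hS, Finset.mem_filter, Finset.mem_univ, true_and, Finset.mem_erase, and_true]
      tauto
    rw [h1, Finset.card_erase_of_mem, Finset.card_erase_of_mem (Finset.mem_univ _), Finset.card_univ,
      ZMod.card]
    · omega
    · rw [Finset.mem_erase]
      exact ⟨one_ne_zero, Finset.mem_univ _⟩
  set f : ZMod p → ZMod p := fun x => (x * (1 - x)) ^ n with hf
  have hfS : ∀ x ∈ S, f x = 1 ∨ f x = w ∨ f x = w ^ 2 := by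
    intro x hx
    simp only [hS, Finset.mem_filter, Finset.mem_univ, true_and] at hx
    apply hval
    apply mul_ne_zero hx.1
    intro h
    exact hx.2 (by linear_combination -h)
  set N0 := (S.filter (fun x => f x = 1)).card with hN0
  set N1 := (S.filter (fun x => f x = w)).card with hN1
  set N2 := (S.filter (fun x => f x = w ^ 2)).card with hN2
  have hsumN : N0 + N1 + N2 = p - 2 := by
    have h := sum_fiber p S f (fun _ => (1 : ℤ)) w hw1 hw2 hw0 hfS
    simp only [Finset.sum_const, nsmul_eq_mul, mul_one] at h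
    rw [hScard, ← hN0, ← hN1, ← hN2] at h
    have h' : ((p - 2 : ℕ) : ℤ) = ((N0 + N1 + N2 : ℕ) : ℤ) := by push_cast; exact_mod_cast h
    exact_mod_cast h'.symm
  -- divisibility by three
  have hdiv : ∀ a : ZMod p, a ≠ 1 → 3 ∣ (S.filter (fun x => f x = a)).card := by
    intro a ha
    apply three_dvd_card _ (fun x => (1 - x)⁻¹)
    · intro x hx
      simp only [hS, Finset.mem_filter, Finset.mem_univ, true_and] at hx ⊢
      obtain ⟨⟨hx0, hx1⟩, hxa⟩ := hx
      have h1x : (1 - x) ≠ 0 := by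
        intro h
        exact hx1 (by linear_combination -h)
      refine ⟨⟨inv_ne_zero h1x, ?_⟩, ?_⟩
      · intro h
        apply hx0
        have : (1 - x) = 1 := by rw [← inv_inv (1 - x), h, inv_one]
        linear_combination -this
      · rw [← hxa]
        simp only [hf]
        have e1 : (1 - x)⁻¹ * (1 - (1 - x)⁻¹) = (-1) * (x * (1 - x)) * ((1 - x)⁻¹) ^ 3 := by
          field_simp
          ring
        rw [e1, mul_pow, mul_pow, hev.neg_one_pow, one_mul, ← pow_mul, ← hp1,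
          ZMod.pow_card_sub_one_eq_one (inv_ne_zero h1x), mul_one]
    · intro x hx
      simp only [hS, Finset.mem_filter, Finset.mem_univ, true_and] at hx
      obtain ⟨⟨hx0, hx1⟩, hxa⟩ := hx
      have h1x : (1 - x) ≠ 0 := by
        intro h
        exact hx1 (by linear_combination -h)
      have e1 : (1 - (1 - x)⁻¹) = - x * (1 - x)⁻¹ := by
        field_simp
        ring
      have e2 : (1 - (1 - x)⁻¹)⁻¹ = - ((1 - x) * x⁻¹) := by
        rw [e1, neg_mul, inv_neg, mul_inv, inv_inv, mul_comm]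
      show (1 - (1 - (1 - x)⁻¹)⁻¹)⁻¹ = x
      rw [e2]
      have e3 : 1 - -((1 - x) * x⁻¹) = x⁻¹ := by
        field_simp
        ring
      rw [e3, inv_inv]
    · intro x hx h
      simp only [hS, Finset.mem_filter, Finset.mem_univ, true_and] at hx
      obtain ⟨⟨hx0, hx1⟩, hxa⟩ := hx
      have h1x : (1 - x) ≠ 0 := by
        intro h
        exact hx1 (by linear_combination -h)
      apply ha
      rw [← hxa]
      simp only [hf]
      have e1 : x * (1 - x) = 1 := by
        have : (1 - x)⁻¹ * (1 - x) = 1 := inv_mul_cancel₀ h1x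
        rw [h] at this
        exact this
      rw [e1, one_pow]
  have hd1 : 3 ∣ N1 := hdiv w hw1
  have hd2 : 3 ∣ N2 := hdiv (w ^ 2) hw2
  -- the two Jacobi sums
  have hV : ∑ x : ZMod p, om p x ^ n * om p (1 - x) ^ n =
      (N0 : ZMod (p ^ 2)) + N1 * z + N2 * z ^ 2 := by
    have h1 : ∑ x : ZMod p, om p x ^ n * om p (1 - x) ^ n = ∑ x ∈ S, om p (f x) := by
      rw [hS, Finset.sum_filter]
      refine Finset.sum_congr rfl ?_
      intro x _
      by_cases hx0 : x = 0
      · rw [if_neg (by tauto), hx0, om_zero, zero_pow hn.ne', zero_mul]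
      · by_cases hx1 : x = 1
        · rw [if_neg (by tauto), hx1, sub_self, om_zero, zero_pow hn.ne', mul_zero]
        · rw [if_pos ⟨hx0, hx1⟩]
          simp only [hf]
          rw [om_pow, om_mul, mul_pow]
    rw [h1, sum_fiber p S f (fun y => om p y) w hw1 hw2 hw0 hfS, ← hN0, ← hN1, ← hN2, om_one,
      om_pow p w 2, mul_one]
  have hU : ∑ x : ZMod p, om p x ^ (2 * n) * om p (1 - x) ^ (2 * n) =
      (N0 : ZMod (p ^ 2)) + N1 * z ^ 2 + N2 * z := by
    have h1 : ∑ x : ZMod p, om p x ^ (2 * n) * om p (1 - x) ^ (2 * n) = ∑ x ∈ S, (om p (f x)) ^ 2 := by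
      rw [hS, Finset.sum_filter]
      refine Finset.sum_congr rfl ?_
      intro x _
      have h2n : 2 * n ≠ 0 := by omega
      by_cases hx0 : x = 0
      · rw [if_neg (by tauto), hx0, om_zero, zero_pow h2n, zero_mul]
      · by_cases hx1 : x = 1
        · rw [if_neg (by tauto), hx1, sub_self, om_zero, zero_pow h2n, mul_zero]
        · rw [if_pos ⟨hx0, hx1⟩]
          simp only [hf]
          rw [om_pow, om_mul, mul_pow, mul_pow, ← pow_mul, ← pow_mul, mul_comm n 2]
    rw [h1, sum_fiber p S f (fun y => (om p y) ^ 2) w hw1 hw2 hw0 hfS, ← hN0, ← hN1, ← hN2, om_one,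
      om_pow p w 2]
    have h4 : (om p w ^ 2) ^ 2 = z := by
      rw [← pow_mul]
      calc om p w ^ (2 * 2) = z ^ 3 * z := by rw [hz]; ring
        _ = z := by rw [hz3, one_mul]
    rw [h4]
    ring
  -- norm relation
  have hnorm := jacobi_norm p (R := ZMod (p ^ 2)) (fun x => om p x ^ n)
    (by intro x y; rw [om_mul, mul_pow]) (by rw [om_zero, zero_pow hn.ne'])
    (by rw [om_one, one_pow])
    (by
      intro x hx
      rw [← pow_mul, mul_comm n 3, ← hp1]
      exact om_pow_card_sub_one p hx)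
    (sum_om_pow_of_not_dvd p (by
      intro h
      have := Nat.le_of_dvd hn h
      omega))
    (by
      simp only [← pow_mul]
      apply sum_om_pow_of_not_dvd p
      intro h
      have := Nat.le_of_dvd (by omega) h
      omega)
  have hU' : ∑ x : ZMod p, (om p x ^ n) ^ 2 * (om p (1 - x) ^ n) ^ 2 =
      ∑ x : ZMod p, om p x ^ (2 * n) * om p (1 - x) ^ (2 * n) := by
    refine Finset.sum_congr rfl ?_
    intro x _
    rw [← pow_mul, ← pow_mul, mul_comm n 2]
  rw [hU', hV] at hnorm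
  have hUe := U_eval p n h3 hn hev
  rw [hUe] at hU hnorm
  set C : ZMod (p ^ 2) := (((2 * n).choose n : ℕ) : ZMod (p ^ 2)) with hC
  -- Q
  set Q : ℤ := (N0 : ℤ) ^ 2 + N1 ^ 2 + N2 ^ 2 - N0 * N1 - N1 * N2 - N0 * N2 with hQ
  have hQmod : ((Q : ℤ) : ZMod (p ^ 2)) = ((p : ℤ) : ZMod (p ^ 2)) := by
    rw [hQ]
    push_cast
    rw [← hnorm, hU]
    linear_combination (-(N0 : ZMod (p ^ 2)) * N1 - (N0 : ZMod (p ^ 2)) * N2 - (z ^ 2 - z + 1) * N1 * N2) * hzsum
      - ((N1 : ZMod (p ^ 2)) ^ 2 + (N2 : ZMod (p ^ 2)) ^ 2) * hz3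
  have hQ0 : 0 ≤ Q := by
    have : 2 * Q = ((N0 : ℤ) - N1) ^ 2 + ((N1 : ℤ) - N2) ^ 2 + ((N0 : ℤ) - N2) ^ 2 := by
      rw [hQ]; ring
    nlinarith [sq_nonneg ((N0 : ℤ) - N1), sq_nonneg ((N1 : ℤ) - N2), sq_nonneg ((N0 : ℤ) - N2)]
  have hp2 : 2 ≤ p := hp.out.two_le
  have hQ1 : Q ≤ ((p : ℤ) - 2) ^ 2 := by
    have hs : ((N0 : ℤ) + N1 + N2) = (p : ℤ) - 2 := by
      have : ((N0 + N1 + N2 : ℕ) : ℤ) = ((p - 2 : ℕ) : ℤ) := by rw [hsumN]
      rw [Nat.cast_sub hp2] at this
      push_cast at this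
      linarith
    rw [← hs]
    have a0 : (0 : ℤ) ≤ N0 := Int.natCast_nonneg _
    have a1 : (0 : ℤ) ≤ N1 := Int.natCast_nonneg _
    have a2 : (0 : ℤ) ≤ N2 := Int.natCast_nonneg _
    rw [hQ]
    nlinarith [mul_nonneg a0 a1, mul_nonneg a1 a2, mul_nonneg a0 a2]
  have hQp : Q = p := by
    rw [ZMod.intCast_eq_intCast_iff_dvd_sub] at hQmod
    obtain ⟨k, hk⟩ := hQmod
    push_cast at hk
    have hppos : (0 : ℤ) < p := by exact_mod_cast hp.out.pos
    have hp2' : (2 : ℤ) ≤ p := by exact_mod_cast hp2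
    have h1 : k < 1 := by
      by_contra hcon
      have : (1 : ℤ) ≤ k := by omega
      nlinarith
    have h2 : -1 < k := by
      by_contra hcon
      have : k ≤ -1 := by omega
      nlinarith
    have h3 : k = 0 := by omega
    rw [h3, mul_zero] at hk
    linarith
  obtain ⟨m1, hm1⟩ := hd1
  obtain ⟨m2, hm2⟩ := hd2
  refine ⟨(N1 : ℤ) + N2 - 2 * N0, (m1 : ℤ) - m2, ?_, ?_, ?_⟩
  · rw [← hQp, hQ, hm1, hm2]
    push_cast
    ring
  · omega
  · push_cast
    have hCV : - C * (((N0 : ZMod (p ^ 2)) + N1 * z + N2 * z ^ 2)) = (p : ZMod (p ^ 2)) := hnorm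
    linear_combination (-C) * hU - hCV - C * ((N1 : ZMod (p ^ 2)) + N2) * hzsum

lemma rep_unique (L M L' M' : ℤ) (h : 4 * (p : ℤ) = L ^ 2 + 27 * M ^ 2) (hL : L % 3 = 2)
    (h' : 4 * (p : ℤ) = L' ^ 2 + 27 * M' ^ 2) (hL' : L' % 3 = 2) : L = L' := by
  have hppos : (0 : ℤ) < p := by exact_mod_cast hp.out.pos
  have key : ∀ A B : ℤ, 4 * (p : ℤ) = A ^ 2 + 27 * B ^ 2 → (p : ℤ) ∣ L * B - A * M → L * B = A * M := by
    intro A B hAB hd
    obtain ⟨k, hk⟩ := hd
    have h1 : 16 * (p : ℤ) ^ 2 = (L * A + 27 * M * B) ^ 2 + 27 * (L * B - A * M) ^ 2 := by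
      calc 16 * (p : ℤ) ^ 2 = (4 * (p : ℤ)) * (4 * (p : ℤ)) := by ring
        _ = (L ^ 2 + 27 * M ^ 2) * (A ^ 2 + 27 * B ^ 2) := by rw [h.symm, hAB.symm]
        _ = _ := by ring
    rw [hk] at h1
    have h2 : 27 * k ^ 2 ≤ 16 := by
      by_contra hcon
      have h3 : 16 < 27 * k ^ 2 := by omega
      nlinarith [sq_nonneg (L * A + 27 * M * B), mul_pos hppos hppos]
    have h3 : k = 0 := by
      have : k ^ 2 ≤ 0 := by nlinarith
      nlinarith [sq_nonneg k]
    rw [h3, mul_zero] at hk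
    linarith
  have hprod : (p : ℤ) ∣ (L * M' - L' * M) * (L * (-M') - L' * M) := by
    refine ⟨4 * (M ^ 2 - M' ^ 2), ?_⟩
    linear_combination (M' ^ 2) * h - (M ^ 2) * h'
  have hpr : Prime (p : ℤ) := Nat.prime_iff_prime_int.mp hp.out
  have hsq : L ^ 2 * M' ^ 2 = L' ^ 2 * M ^ 2 := by
    rcases hpr.dvd_or_dvd hprod with hd | hd
    · have := key L' M' h' hd
      calc L ^ 2 * M' ^ 2 = (L * M') ^ 2 := by ring
        _ = (L' * M) ^ 2 := by rw [this]
        _ = _ := by ring
    · have := key L' (-M') (by rw [h']; ring) hd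
      calc L ^ 2 * M' ^ 2 = (L * (-M')) ^ 2 := by ring
        _ = (L' * M) ^ 2 := by rw [this]
        _ = _ := by ring
  have hMM : M ^ 2 = M' ^ 2 := by
    have : (p : ℤ) * (M ^ 2 - M' ^ 2) = 0 := by
      have h4 : 4 * ((p : ℤ) * (M ^ 2 - M' ^ 2)) = 0 := by
        linear_combination (M ^ 2) * h' - (M' ^ 2) * h - hsq
      linarith
    rcases mul_eq_zero.mp this with h5 | h5
    · omega
    · linarith
  have hLL : (L - L') * (L + L') = 0 := by linear_combination h' - h - 27 * hMM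
  rcases mul_eq_zero.mp hLL with h5 | h5
  · linarith
  · exfalso
    omega

end Pool.Agent.Lib.Pffaf6e
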