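import Mathlib
import Pool.Agent.Lib.Pffaf6e.Unit3

set_option autoImplicit false
set_option linter.unusedSectionVars false

namespace Pool.Agent.Lib.Pffaf6e

variable (p : ℕ) [hp : Fact p.Prime]

/-- `p / k` -/
def fp (k : ℕ) : ZMod (p ^ 2) := (p : ZMod (p ^ 2)) * (k : ZMod (p ^ 2))⁻¹

/-- `p * H_k` -/
def pH (k : ℕ) : ZMod (p ^ 2) := ∑ j ∈ Finset.range k, fp p (j + 1)

/-- factorial as a product -/
def Fc (k : ℕ) : ZMod (p ^ 2) := ∏ j ∈ Finset.range k, (((j + 1 : ℕ)) : ZMod (p ^ 2))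

lemma Fc_eq (k : ℕ) : Fc p k = ((k.factorial : ℕ) : ZMod (p ^ 2)) := by
  unfold Fc
  rw [← Finset.prod_range_add_one_eq_factorial, Nat.cast_prod]

lemma Fc_unit (k : ℕ) (hk : k < p) : IsUnit (Fc p k) := by
  unfold Fc
  rw [IsUnit.prod_iff]
  intro j hj
  rw [Finset.mem_range] at hj
  exact isUnit_nat p (not_dvd_of_lt p (by omega) (by omega))

lemma p_inv_rel {m n : ℕ} (hm : ¬ p ∣ m) (hn : ¬ p ∣ n) (x y : ℤ) (k : ℤ)
    (h : x * n - y * m = k * p) : (x : ZMod (p ^ 2)) * fp p m = (y : ZMod (p ^ 2)) * fp p n := by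
  have h1 := mul_inv_nat p hm
  have h2 := mul_inv_nat p hn
  have h3 := psq p
  have h4 := congrArg (fun z : ℤ => (z : ZMod (p ^ 2))) h
  push_cast at h4
  unfold fp
  set mi := (m : ZMod (p ^ 2))⁻¹
  set ni := (n : ZMod (p ^ 2))⁻¹
  linear_combination (-(x : ZMod (p ^ 2)) * p * mi) * h2 + ((y : ZMod (p ^ 2)) * p * ni) * h1 +
    ((p : ZMod (p ^ 2)) * mi * ni) * h4 + (k * mi * ni : ZMod (p ^ 2)) * h3

lemma p_mul_fp (k : ℕ) (a : ZMod (p ^ 2)) : (p : ZMod (p ^ 2)) * a * fp p k = 0 := by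
  unfold fp
  exact psq' p a _

lemma fp_mul_fp (j k : ℕ) : fp p j * fp p k = 0 := by
  unfold fp
  exact psq' p _ _

lemma prod_p {ι : Type*} (s : Finset ι) (a b x : ι → ZMod (p ^ 2)) (hb : ∀ i ∈ s, a i * b i = 1) :
    ∏ i ∈ s, (a i + (p : ZMod (p ^ 2)) * x i) =
      (∏ i ∈ s, a i) * (1 + (p : ZMod (p ^ 2)) * ∑ i ∈ s, x i * b i) := by
  classical
  have h3 := psq p
  induction s using Finset.induction_on with
  | empty => simp
  | insert c s hc ih =>
    rw [Finset.prod_insert hc, Finset.prod_insert hc, Finset.sum_insert hc,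
      ih (fun i hi => hb i (Finset.mem_insert_of_mem hi))]
    have h1 := hb c (Finset.mem_insert_self c s)
    set S := ∑ i ∈ s, x i * b i
    set A := ∏ i ∈ s, a i
    linear_combination (-(p : ZMod (p ^ 2)) * x c * A) * h1 + (x c * A * S) * h3

lemma pH_mul_pH (j k : ℕ) : pH p j * pH p k = 0 := by
  unfold pH
  rw [Finset.sum_mul_sum]
  refine Finset.sum_eq_zero ?_
  intro i _
  refine Finset.sum_eq_zero ?_
  intro l _
  exact fp_mul_fp p _ _

/-- `∏ (p - c (a - i))` -/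
lemma prod_refl (c a m : ℕ) (hc : ¬ p ∣ c) (hm : m ≤ a) (ha : a < p) :
    ∏ i ∈ Finset.range m, ((p : ZMod (p ^ 2)) - c * ((a - i : ℕ) : ZMod (p ^ 2))) =
      (-(c : ZMod (p ^ 2))) ^ m * (∏ i ∈ Finset.range m, ((a - i : ℕ) : ZMod (p ^ 2))) *
        (1 - (c : ZMod (p ^ 2))⁻¹ * (pH p a - pH p (a - m))) := by
  have h1 : ∏ i ∈ Finset.range m, ((p : ZMod (p ^ 2)) - c * ((a - i : ℕ) : ZMod (p ^ 2))) =
      ∏ i ∈ Finset.range m, ((-(c : ZMod (p ^ 2)) * ((a - i : ℕ) : ZMod (p ^ 2))) + (p : ZMod (p ^ 2)) * 1) := by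
    refine Finset.prod_congr rfl ?_
    intro i _
    ring
  rw [h1, prod_p p (Finset.range m) _ (fun i => (-(c : ZMod (p ^ 2))⁻¹ * ((a - i : ℕ) : ZMod (p ^ 2))⁻¹))]
  · rw [Finset.prod_mul_distrib, Finset.prod_const, Finset.card_range]
    congr 1
    have h2 : pH p a - pH p (a - m) = ∑ i ∈ Finset.range m, fp p (a - i) := by
      unfold pH
      obtain ⟨d, rfl⟩ : ∃ d, a = d + m := ⟨a - m, by omega⟩
      rw [Nat.add_sub_cancel, Finset.sum_range_add, add_sub_cancel_left, ← Finset.sum_range_reflect]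
      refine Finset.sum_congr rfl ?_
      intro i hi
      rw [Finset.mem_range] at hi
      congr 1
      omega
    rw [h2, Finset.mul_sum, Finset.mul_sum, sub_eq_add_neg, ← Finset.sum_neg_distrib]
    congr 1
    refine Finset.sum_congr rfl ?_
    intro i _
    unfold fp
    ring
  · intro i hi
    rw [Finset.mem_range] at hi
    have e1 := mul_inv_nat p hc
    have e2 := mul_inv_nat p (not_dvd_of_lt p (i := a - i) (by omega) (by omega))
    linear_combination e1 + ((c : ZMod (p ^ 2)) * (c : ZMod (p ^ 2))⁻¹) * e2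

lemma Fc_refl (a m : ℕ) (hm : m ≤ a) :
    Fc p (a - m) * ∏ i ∈ Finset.range m, ((a - i : ℕ) : ZMod (p ^ 2)) = Fc p a := by
  unfold Fc
  obtain ⟨d, rfl⟩ : ∃ d, a = d + m := ⟨a - m, by omega⟩
  rw [Nat.add_sub_cancel, Finset.prod_range_add]
  congr 1
  rw [← Finset.prod_range_reflect]
  refine Finset.prod_congr rfl ?_
  intro i hi
  rw [Finset.mem_range] at hi
  congr 1
  omega

end Pool.Agent.Lib.Pffaf6e
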