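import Mathlib
import Pool.Agent.Lib.Pffaf6e.Harm

set_option autoImplicit false
set_option linter.unusedSectionVars false

namespace Pool.Agent.Lib.Pffaf6e

variable (p : ℕ) [hp : Fact p.Prime]

lemma sum_refl (a m : ℕ) (hm : m ≤ a) : ∑ i ∈ Finset.range m, fp p (a - i) = pH p a - pH p (a - m) := by
  unfold pH
  obtain ⟨d, rfl⟩ : ∃ d, a = d + m := ⟨a - m, by omega⟩
  rw [Nat.add_sub_cancel, Finset.sum_range_add, add_sub_cancel_left, ← Finset.sum_range_reflect]
  refine Finset.sum_congr rfl ?_
  intro i hi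
  rw [Finset.mem_range] at hi
  congr 1
  omega

lemma sum_three {M : Type*} [AddCommMonoid M] (g : ℕ → M) (h : ℕ) :
    ∑ j ∈ Finset.range (3 * h), g j = ∑ i ∈ Finset.range h, (g (3 * i) + g (3 * i + 1) + g (3 * i + 2)) := by
  induction h with
  | zero => simp
  | succ h ih =>
    rw [show 3 * (h + 1) = 3 * h + 1 + 1 + 1 by ring, Finset.sum_range_succ, Finset.sum_range_succ,
      Finset.sum_range_succ, Finset.sum_range_succ, ih]
    simp only [add_assoc]

lemma sum_two {M : Type*} [AddCommMonoid M] (g : ℕ → M) (h : ℕ) :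
    ∑ j ∈ Finset.range (2 * h), g j = ∑ i ∈ Finset.range h, (g (2 * i) + g (2 * i + 1)) := by
  induction h with
  | zero => simp
  | succ h ih =>
    rw [show 2 * (h + 1) = 2 * h + 1 + 1 by ring, Finset.sum_range_succ, Finset.sum_range_succ,
      Finset.sum_range_succ, ih]
    simp only [add_assoc]

lemma prod_three {M : Type*} [CommMonoid M] (g : ℕ → M) (h : ℕ) :
    ∏ j ∈ Finset.range (3 * h), g j = ∏ i ∈ Finset.range h, (g (3 * i) * g (3 * i + 1) * g (3 * i + 2)) := by
  induction h with
  | zero => simp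
  | succ h ih =>
    rw [show 3 * (h + 1) = 3 * h + 1 + 1 + 1 by ring, Finset.prod_range_succ, Finset.prod_range_succ,
      Finset.prod_range_succ, Finset.prod_range_succ, ih]
    simp only [mul_assoc]

lemma prod_two {M : Type*} [CommMonoid M] (g : ℕ → M) (h : ℕ) :
    ∏ j ∈ Finset.range (2 * h), g j = ∏ i ∈ Finset.range h, (g (2 * i) * g (2 * i + 1)) := by
  induction h with
  | zero => simp
  | succ h ih =>
    rw [show 2 * (h + 1) = 2 * h + 1 + 1 by ring, Finset.prod_range_succ, Finset.prod_range_succ,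
      Finset.prod_range_succ, ih]
    simp only [mul_assoc]

section
variable (h : ℕ) (h6 : p = 6 * h + 1) (hpos : 0 < h)
include h6 hpos

lemma ndvd {k : ℕ} (h1 : 1 ≤ k) (h2 : k ≤ 6 * h) : ¬ p ∣ k := not_dvd_of_lt p h1 (by omega)

lemma two_inv : (2 : ZMod (p ^ 2)) * ((2 : ℕ) : ZMod (p ^ 2))⁻¹ = 1 := by
  have := mul_inv_nat p (ndvd p h h6 hpos (k := 2) (by omega) (by omega))
  push_cast at this ⊢
  exact this

lemma three_inv : (3 : ZMod (p ^ 2)) * ((3 : ℕ) : ZMod (p ^ 2))⁻¹ = 1 := by
  have := mul_inv_nat p (ndvd p h h6 hpos (k := 3) (by omega) (by omega))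
  push_cast at this ⊢
  exact this

lemma two_unit : IsUnit (2 : ZMod (p ^ 2)) := by
  have := isUnit_nat p (ndvd p h h6 hpos (k := 2) (by omega) (by omega))
  push_cast at this; exact this

lemma three_unit : IsUnit (3 : ZMod (p ^ 2)) := by
  have := isUnit_nat p (ndvd p h h6 hpos (k := 3) (by omega) (by omega))
  push_cast at this; exact this

lemma s1 : 3 * ∑ i ∈ Finset.range h, fp p (3 * i + 1) = -(pH p (2 * h) - pH p h) := by
  have h1 := sum_refl p (2 * h) h (by omega)
  rw [show 2 * h - h = h by omega] at h1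
  rw [← h1, Finset.mul_sum, ← Finset.sum_neg_distrib]
  refine Finset.sum_congr rfl ?_
  intro i hi
  rw [Finset.mem_range] at hi
  have := p_inv_rel p (m := 3 * i + 1) (n := 2 * h - i) (ndvd p h h6 hpos (by omega) (by omega))
    (ndvd p h h6 hpos (by omega) (by omega)) 3 (-1) 1 (by
      rw [Nat.cast_sub (by omega)]; push_cast; rw [h6]; push_cast; ring)
  push_cast at this
  linear_combination this

lemma s1' : 3 * ∑ i ∈ Finset.range (2 * h), fp p (3 * i + 1) = -(pH p (2 * h)) := by
  have h1 := sum_refl p (2 * h) (2 * h) (by omega)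
  have h0 : pH p (2 * h - 2 * h) = 0 := by rw [Nat.sub_self]; unfold pH; simp
  rw [h0, sub_zero] at h1
  rw [← h1, Finset.mul_sum, ← Finset.sum_neg_distrib]
  refine Finset.sum_congr rfl ?_
  intro i hi
  rw [Finset.mem_range] at hi
  have := p_inv_rel p (m := 3 * i + 1) (n := 2 * h - i) (ndvd p h h6 hpos (by omega) (by omega))
    (ndvd p h h6 hpos (by omega) (by omega)) 3 (-1) 1 (by
      rw [Nat.cast_sub (by omega)]; push_cast; rw [h6]; push_cast; ring)
  push_cast at this
  linear_combination this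

lemma s2 : 3 * ∑ i ∈ Finset.range h, fp p (3 * i + 2) = -(2 * ∑ j ∈ Finset.range h, fp p (2 * j + 1)) := by
  rw [← Finset.sum_range_reflect (fun j => fp p (2 * j + 1)), Finset.mul_sum, Finset.mul_sum,
    ← Finset.sum_neg_distrib]
  refine Finset.sum_congr rfl ?_
  intro i hi
  rw [Finset.mem_range] at hi
  have := p_inv_rel p (m := 3 * i + 2) (n := 2 * (h - 1 - i) + 1) (ndvd p h h6 hpos (by omega) (by omega))
    (ndvd p h h6 hpos (by omega) (by omega)) 3 (-2) 1 (by
      obtain ⟨d, hd⟩ : ∃ d, h = d + 1 + i := ⟨h - 1 - i, by omega⟩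
      rw [show h - 1 - i = d by omega, h6, hd]; push_cast; ring)
  push_cast at this
  linear_combination this

lemma sO : 2 * pH p (2 * h) = 2 * ∑ j ∈ Finset.range h, fp p (2 * j + 1) + pH p h := by
  unfold pH
  rw [sum_two, Finset.sum_add_distrib, mul_add]
  congr 1
  rw [Finset.mul_sum]
  refine Finset.sum_congr rfl ?_
  intro i hi
  rw [Finset.mem_range] at hi
  have := p_inv_rel p (m := 2 * i + 1 + 1) (n := i + 1) (ndvd p h h6 hpos (by omega) (by omega))
    (ndvd p h h6 hpos (by omega) (by omega)) 2 1 0 (by push_cast; ring)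
  push_cast at this
  linear_combination this

lemma s3 : 3 * ∑ i ∈ Finset.range h, fp p (3 * i + 3) = pH p h := by
  unfold pH
  rw [Finset.mul_sum]
  refine Finset.sum_congr rfl ?_
  intro i hi
  rw [Finset.mem_range] at hi
  have := p_inv_rel p (m := 3 * i + 3) (n := i + 1) (ndvd p h h6 hpos (by omega) (by omega))
    (ndvd p h h6 hpos (by omega) (by omega)) 3 1 0 (by push_cast; ring)
  push_cast at this
  linear_combination this

/-- `p H_h = p H_{2h} + p H_{3h}` -/
lemma pH_rel : pH p h = pH p (2 * h) + pH p (3 * h) := by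
  have h1 := s1 p h h6 hpos
  have h2 := s2 p h h6 hpos
  have h3 := s3 p h h6 hpos
  have h4 := sO p h h6 hpos
  have h5 : pH p (3 * h) = ∑ i ∈ Finset.range h, fp p (3 * i + 1) + ∑ i ∈ Finset.range h, fp p (3 * i + 2) +
      ∑ i ∈ Finset.range h, fp p (3 * i + 3) := by
    unfold pH
    rw [sum_three, Finset.sum_add_distrib, Finset.sum_add_distrib]
  have h6' : (3 : ZMod (p ^ 2)) * pH p h = 3 * (pH p (2 * h) + pH p (3 * h)) := by
    linear_combination (-3 : ZMod (p ^ 2)) * h5 - h1 - h2 - h3 - h4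
  exact (three_unit p h h6 hpos).mul_left_cancel h6'

lemma pH_full_half : pH p (6 * h) = 0 := by
  have h1 : pH p (6 * h) = - pH p (6 * h) := by
    have h1 := sum_refl p (6 * h) (6 * h) le_rfl
    have h0 : pH p (6 * h - 6 * h) = 0 := by rw [Nat.sub_self]; unfold pH; simp
    rw [h0, sub_zero] at h1
    conv_lhs => rw [← h1]
    unfold pH
    rw [← Finset.sum_neg_distrib]
    refine Finset.sum_congr rfl ?_
    intro i hi
    rw [Finset.mem_range] at hi
    have := p_inv_rel p (m := 6 * h - i) (n := i + 1) (ndvd p h h6 hpos (by omega) (by omega))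
      (ndvd p h h6 hpos (by omega) (by omega)) 1 (-1) 1 (by
        rw [Nat.cast_sub (by omega), h6]; push_cast; ring)
    push_cast at this
    linear_combination this
  have h2 : (2 : ZMod (p ^ 2)) * pH p (6 * h) = 2 * 0 := by linear_combination h1
  exact (two_unit p h h6 hpos).mul_left_cancel h2

lemma pH_refl (k : ℕ) (hk : k ≤ 6 * h) : pH p (6 * h - k) = pH p k := by
  have h1 := sum_refl p (6 * h) k hk
  rw [pH_full_half p h h6 hpos] at h1
  have h2 : ∑ i ∈ Finset.range k, fp p (6 * h - i) = - pH p k := by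
    unfold pH
    rw [← Finset.sum_neg_distrib]
    refine Finset.sum_congr rfl ?_
    intro i hi
    rw [Finset.mem_range] at hi
    have := p_inv_rel p (m := 6 * h - i) (n := i + 1) (ndvd p h h6 hpos (by omega) (by omega))
      (ndvd p h h6 hpos (by omega) (by omega)) 1 (-1) 1 (by
        rw [Nat.cast_sub (by omega), h6]; push_cast; ring)
    push_cast at this
    linear_combination this
  linear_combination h1 - h2

lemma pH_four : pH p (4 * h) = pH p (2 * h) := by
  have := pH_refl p h h6 hpos (2 * h) (by omega)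
  rw [show 6 * h - 2 * h = 4 * h by omega] at this
  exact this

end

end Pool.Agent.Lib.Pffaf6e
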