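import Mathlib
import Pool.Agent.Lib.Pffaf6e.Harm2

set_option autoImplicit false
set_option linter.unusedSectionVars false

namespace Pool.Agent.Lib.Pffaf6e

variable (p : ℕ) [hp : Fact p.Prime]

/-- inverses of two and three -/
def j2 : ZMod (p ^ 2) := ((2 : ℕ) : ZMod (p ^ 2))⁻¹
def j3 : ZMod (p ^ 2) := ((3 : ℕ) : ZMod (p ^ 2))⁻¹

section
variable (h : ℕ) (h6 : p = 6 * h + 1) (hpos : 0 < h)
include h6 hpos

lemma j2_spec : 2 * j2 p = 1 := two_inv p h h6 hpos
lemma j3_spec : 3 * j3 p = 1 := three_inv p h h6 hpos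

lemma p_cast : (p : ZMod (p ^ 2)) = 6 * (h : ZMod (p ^ 2)) + 1 := by
  have := congrArg (fun z : ℕ => (z : ZMod (p ^ 2))) h6
  push_cast at this
  exact this

lemma j6_spec : ((6 : ℕ) : ZMod (p ^ 2))⁻¹ = j2 p * j3 p := by
  have h1 := mul_inv_nat p (ndvd p h h6 hpos (k := 6) (by omega) (by omega))
  have h2 := j2_spec p h h6 hpos
  have h3 := j3_spec p h h6 hpos
  push_cast at h1 ⊢
  linear_combination (j2 p * j3 p) * h1 - ((6 : ZMod (p ^ 2))⁻¹ * (3 * j3 p)) * h2 - (6 : ZMod (p ^ 2))⁻¹ * h3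

lemma pH_half : pH p (2 * h) - pH p h = - pH p (3 * h) := by
  rw [pH_rel p h h6 hpos]; ring

/-- (A) -/
lemma prodA : (∏ i ∈ Finset.range h, ((3 * i + 1 : ℕ) : ZMod (p ^ 2))) * Fc p h =
    (-3) ^ h * Fc p (2 * h) * (1 + j3 p * pH p (3 * h)) := by
  have h1 := prod_refl p 3 (2 * h) h (ndvd p h h6 hpos (by omega) (by omega)) (by omega) (by omega)
  have h2 := Fc_refl p (2 * h) h (by omega)
  rw [show 2 * h - h = h by omega] at h1 h2
  rw [pH_half p h h6 hpos] at h1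
  have h3 : ∏ i ∈ Finset.range h, ((p : ZMod (p ^ 2)) - (3 : ℕ) * ((2 * h - i : ℕ) : ZMod (p ^ 2))) =
      ∏ i ∈ Finset.range h, ((3 * i + 1 : ℕ) : ZMod (p ^ 2)) := by
    refine Finset.prod_congr rfl ?_
    intro i hi
    rw [Finset.mem_range] at hi
    rw [Nat.cast_sub (by omega)]
    have := p_cast p h h6 hpos
    push_cast
    rw [this]; ring
  rw [h3] at h1
  rw [h1, ← h2]
  unfold j3
  push_cast
  ring

/-- (D) -/
lemma prodD : (∏ i ∈ Finset.range (2 * h), ((3 * i + 1 : ℕ) : ZMod (p ^ 2))) =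
    9 ^ h * Fc p (2 * h) * (1 - j3 p * pH p (2 * h)) := by
  have h1 := prod_refl p 3 (2 * h) (2 * h) (ndvd p h h6 hpos (by omega) (by omega)) le_rfl (by omega)
  have h2 := Fc_refl p (2 * h) (2 * h) le_rfl
  rw [Nat.sub_self] at h1 h2
  have h0 : pH p 0 = 0 := by unfold pH; simp
  have h0' : Fc p 0 = 1 := by unfold Fc; simp
  rw [h0, sub_zero] at h1
  rw [h0', one_mul] at h2
  have h3 : ∏ i ∈ Finset.range (2 * h), ((p : ZMod (p ^ 2)) - (3 : ℕ) * ((2 * h - i : ℕ) : ZMod (p ^ 2))) =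
      ∏ i ∈ Finset.range (2 * h), ((3 * i + 1 : ℕ) : ZMod (p ^ 2)) := by
    refine Finset.prod_congr rfl ?_
    intro i hi
    rw [Finset.mem_range] at hi
    rw [Nat.cast_sub (by omega)]
    have := p_cast p h h6 hpos
    push_cast
    rw [this]; ring
  rw [h3] at h1
  rw [h1, h2]
  unfold j3
  rw [pow_mul]
  push_cast
  norm_num

/-- (E) -/
lemma prodE : (∏ i ∈ Finset.range h, ((6 * i + 1 : ℕ) : ZMod (p ^ 2))) =
    (-6) ^ h * Fc p h * (1 - j2 p * j3 p * (pH p (2 * h) + pH p (3 * h))) := by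
  have h1 := prod_refl p 6 h h (ndvd p h h6 hpos (by omega) (by omega)) le_rfl (by omega)
  have h2 := Fc_refl p h h le_rfl
  rw [Nat.sub_self] at h1 h2
  have h0 : pH p 0 = 0 := by unfold pH; simp
  have h0' : Fc p 0 = 1 := by unfold Fc; simp
  rw [h0, sub_zero] at h1
  rw [h0', one_mul] at h2
  have h3 : ∏ i ∈ Finset.range h, ((p : ZMod (p ^ 2)) - (6 : ℕ) * ((h - i : ℕ) : ZMod (p ^ 2))) =
      ∏ i ∈ Finset.range h, ((6 * i + 1 : ℕ) : ZMod (p ^ 2)) := by
    refine Finset.prod_congr rfl ?_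
    intro i hi
    rw [Finset.mem_range] at hi
    rw [Nat.cast_sub (by omega)]
    have := p_cast p h h6 hpos
    push_cast
    rw [this]; ring
  rw [h3] at h1
  rw [h1, h2, j6_spec p h h6 hpos, pH_rel p h h6 hpos]
  push_cast
  ring

/-- (F) -/
lemma prodF : (∏ j ∈ Finset.range h, ((6 * (j + 1) + p : ℕ) : ZMod (p ^ 2))) =
    6 ^ h * Fc p h * (1 + j2 p * j3 p * (pH p (2 * h) + pH p (3 * h))) := by
  have h1 : ∏ j ∈ Finset.range h, ((6 * (j + 1) + p : ℕ) : ZMod (p ^ 2)) =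
      ∏ j ∈ Finset.range h, ((6 * ((j + 1 : ℕ) : ZMod (p ^ 2))) + (p : ZMod (p ^ 2)) * 1) := by
    refine Finset.prod_congr rfl ?_
    intro j _
    push_cast; ring
  rw [h1, prod_p p (Finset.range h) _ (fun j => ((6 : ℕ) : ZMod (p ^ 2))⁻¹ * ((j + 1 : ℕ) : ZMod (p ^ 2))⁻¹)]
  · rw [Finset.prod_mul_distrib, Finset.prod_const, Finset.card_range, ← pH_rel p h h6 hpos,
      ← j6_spec p h h6 hpos]
    unfold Fc
    congr 2
    unfold pH
    rw [Finset.mul_sum, Finset.mul_sum]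
    refine Finset.sum_congr rfl ?_
    intro j _
    unfold fp
    ring
  · intro j hj
    rw [Finset.mem_range] at hj
    have e1 := mul_inv_nat p (ndvd p h h6 hpos (k := 6) (by omega) (by omega))
    have e2 := mul_inv_nat p (ndvd p h h6 hpos (k := j + 1) (by omega) (by omega))
    push_cast at e1 e2 ⊢
    linear_combination e1 + ((6 : ZMod (p ^ 2)) * (6 : ZMod (p ^ 2))⁻¹) * e2

/-- (B) -/
lemma prodB : 4 ^ h * Fc p h * (∏ i ∈ Finset.range h, ((3 * i + 2 : ℕ) : ZMod (p ^ 2))) =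
    (-3) ^ h * Fc p (2 * h) * (1 - j3 p * (j2 p * (pH p (2 * h) - pH p (3 * h)))) := by
  -- D
  have hD : (∏ j ∈ Finset.range h, ((2 * j + 1 : ℕ) : ZMod (p ^ 2))) * 2 ^ h * Fc p h = Fc p (2 * h) := by
    have e1 : Fc p (2 * h) = ∏ j ∈ Finset.range h, (((2 * j + 1 : ℕ) : ZMod (p ^ 2)) * ((2 * j + 1 + 1 : ℕ) : ZMod (p ^ 2))) := by
      unfold Fc
      rw [prod_two]
    have e2 : (2 : ZMod (p ^ 2)) ^ h * Fc p h = ∏ j ∈ Finset.range h, ((2 * j + 1 + 1 : ℕ) : ZMod (p ^ 2)) := by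
      unfold Fc
      rw [← Finset.card_range h, ← Finset.prod_const, Finset.card_range, ← Finset.prod_mul_distrib]
      refine Finset.prod_congr rfl ?_
      intro j _
      push_cast; ring
    rw [e1, Finset.prod_mul_distrib, mul_assoc, e2]
  have h1 : 2 ^ h * (∏ i ∈ Finset.range h, ((3 * i + 2 : ℕ) : ZMod (p ^ 2))) =
      ∏ j ∈ Finset.range h, ((-3 * ((2 * j + 1 : ℕ) : ZMod (p ^ 2))) + (p : ZMod (p ^ 2)) * 1) := by
    rw [← Finset.prod_range_reflect (fun i => ((3 * i + 2 : ℕ) : ZMod (p ^ 2)))]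
    conv_lhs => rw [← Finset.card_range h, ← Finset.prod_const, Finset.card_range, ← Finset.prod_mul_distrib]
    refine Finset.prod_congr rfl ?_
    intro j hj
    rw [Finset.mem_range] at hj
    have hc := p_cast p h h6 hpos
    have e3 : (((h - 1 - j : ℕ) : ZMod (p ^ 2))) = (h : ZMod (p ^ 2)) - 1 - j := by
      rw [Nat.cast_sub (by omega), Nat.cast_sub (by omega)]; push_cast; ring
    push_cast
    rw [e3, hc]; ring
  rw [prod_p p (Finset.range h) _ (fun j => -(j3 p) * ((2 * j + 1 : ℕ) : ZMod (p ^ 2))⁻¹)] at h1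
  · rw [Finset.prod_mul_distrib, Finset.prod_const, Finset.card_range] at h1
    have hO := sO p h h6 hpos
    rw [pH_rel p h h6 hpos] at hO
    have hj2 := j2_spec p h h6 hpos
    have hO' : ∑ j ∈ Finset.range h, fp p (2 * j + 1) = j2 p * (pH p (2 * h) - pH p (3 * h)) := by
      linear_combination (-(j2 p)) * hO - (∑ j ∈ Finset.range h, fp p (2 * j + 1)) * hj2
    have hS : (p : ZMod (p ^ 2)) * ∑ j ∈ Finset.range h, 1 * (-(j3 p) * ((2 * j + 1 : ℕ) : ZMod (p ^ 2))⁻¹) =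
        - (j3 p * (j2 p * (pH p (2 * h) - pH p (3 * h)))) := by
      rw [← hO', Finset.mul_sum, Finset.mul_sum, ← Finset.sum_neg_distrib]
      refine Finset.sum_congr rfl ?_
      intro j _
      unfold fp
      ring
    rw [hS] at h1
    rw [← hD]
    have e4 : (4 : ZMod (p ^ 2)) ^ h = 2 ^ h * 2 ^ h := by rw [← mul_pow]; norm_num
    rw [e4]
    linear_combination (2 ^ h * Fc p h) * h1
  · intro j hj
    rw [Finset.mem_range] at hj
    have e1 := j3_spec p h h6 hpos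
    have e2 := mul_inv_nat p (ndvd p h h6 hpos (k := 2 * j + 1) (by omega) (by omega))
    linear_combination e1 + ((3 : ZMod (p ^ 2)) * j3 p) * e2

/-- (C) -/
lemma prodC : 3 ^ h * Fc p h * (∏ i ∈ Finset.range h, ((3 * i + 1 : ℕ) : ZMod (p ^ 2))) *
    (∏ i ∈ Finset.range h, ((3 * i + 2 : ℕ) : ZMod (p ^ 2))) = Fc p (3 * h) := by
  have e1 : (3 : ZMod (p ^ 2)) ^ h * Fc p h = ∏ j ∈ Finset.range h, ((3 * j + 2 + 1 : ℕ) : ZMod (p ^ 2)) := by
    unfold Fc
    rw [← Finset.card_range h, ← Finset.prod_const, Finset.card_range, ← Finset.prod_mul_distrib]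
    refine Finset.prod_congr rfl ?_
    intro j _
    push_cast; ring
  rw [e1]
  unfold Fc
  rw [prod_three, Finset.prod_mul_distrib, Finset.prod_mul_distrib]
  ring

/-- (G1) -/
lemma prodG1 : 4 ^ h * Fc p (2 * h) * (∏ i ∈ Finset.range (2 * h), ((2 * i + 1 : ℕ) : ZMod (p ^ 2))) =
    Fc p (4 * h) := by
  have e1 : Fc p (4 * h) = ∏ j ∈ Finset.range (2 * h), (((2 * j + 1 : ℕ) : ZMod (p ^ 2)) * ((2 * j + 1 + 1 : ℕ) : ZMod (p ^ 2))) := by
    unfold Fc
    rw [show 4 * h = 2 * (2 * h) by ring, prod_two]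
  have e2 : (4 : ZMod (p ^ 2)) ^ h * Fc p (2 * h) = ∏ j ∈ Finset.range (2 * h), ((2 * j + 1 + 1 : ℕ) : ZMod (p ^ 2)) := by
    have e3 : (4 : ZMod (p ^ 2)) ^ h = 2 ^ (2 * h) := by rw [pow_mul]; norm_num
    rw [e3]
    unfold Fc
    conv_lhs => rw [← Finset.card_range (2 * h), ← Finset.prod_const, Finset.card_range, ← Finset.prod_mul_distrib]
    refine Finset.prod_congr rfl ?_
    intro j _
    push_cast; ring
  rw [e1, e2, Finset.prod_mul_distrib, mul_comm]

/-- (G2) -/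
lemma prodG2 : Fc p h * (∏ i ∈ Finset.range (2 * h), ((2 * i + 1 : ℕ) : ZMod (p ^ 2))) =
    4 ^ h * Fc p (3 * h) * (1 + j2 p * pH p (2 * h)) := by
  have h1 := prod_refl p 2 (3 * h) (2 * h) (ndvd p h h6 hpos (by omega) (by omega)) (by omega) (by omega)
  have h2 := Fc_refl p (3 * h) (2 * h) (by omega)
  rw [show 3 * h - 2 * h = h by omega] at h1 h2
  have h3 : ∏ i ∈ Finset.range (2 * h), ((p : ZMod (p ^ 2)) - (2 : ℕ) * ((3 * h - i : ℕ) : ZMod (p ^ 2))) =
      ∏ i ∈ Finset.range (2 * h), ((2 * i + 1 : ℕ) : ZMod (p ^ 2)) := by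
    refine Finset.prod_congr rfl ?_
    intro i hi
    rw [Finset.mem_range] at hi
    rw [Nat.cast_sub (by omega)]
    have := p_cast p h h6 hpos
    push_cast
    rw [this]; ring
  rw [h3] at h1
  rw [h1, ← h2, pH_rel p h h6 hpos, pow_mul]
  unfold j2
  push_cast
  rw [show (-2 : ZMod (p ^ 2)) ^ 2 = 4 by norm_num]
  ring

/-- (H) -/
lemma pow_two_eval : (2 : ZMod (p ^ 2)) ^ (6 * h) = 1 - j2 p * pH p (3 * h) := by
  -- first evaluation of (6h)!
  have h1 := prod_refl p 1 (3 * h) (3 * h) (ndvd p h h6 hpos (by omega) (by omega)) le_rfl (by omega)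
  have h2 := Fc_refl p (3 * h) (3 * h) le_rfl
  have h0 : pH p 0 = 0 := by unfold pH; simp
  have h0' : Fc p 0 = 1 := by unfold Fc; simp
  rw [Nat.sub_self] at h1 h2
  rw [h0', one_mul] at h2
  rw [h0, sub_zero, h2] at h1
  have hone : (((1 : ℕ) : ZMod (p ^ 2))⁻¹) = 1 := by
    have := mul_inv_nat p (ndvd p h h6 hpos (k := 1) (by omega) (by omega))
    push_cast at this ⊢
    linear_combination this
  rw [hone, one_mul] at h1
  have e1 : Fc p (6 * h) = Fc p (3 * h) *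
      ∏ i ∈ Finset.range (3 * h), ((p : ZMod (p ^ 2)) - (1 : ℕ) * ((3 * h - i : ℕ) : ZMod (p ^ 2))) := by
    unfold Fc
    rw [show 6 * h = 3 * h + 3 * h by ring, Finset.prod_range_add]
    congr 1
    refine Finset.prod_congr rfl ?_
    intro i hi
    rw [Finset.mem_range] at hi
    rw [Nat.cast_sub (by omega)]
    have := p_cast p h h6 hpos
    push_cast
    rw [this]; ring
  -- second
  have h3 := prod_refl p 2 (3 * h) (3 * h) (ndvd p h h6 hpos (by omega) (by omega)) le_rfl (by omega)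
  rw [Nat.sub_self, h0, sub_zero, h2] at h3
  have e2 : Fc p (6 * h) = 2 ^ (3 * h) * Fc p (3 * h) *
      ∏ i ∈ Finset.range (3 * h), ((p : ZMod (p ^ 2)) - (2 : ℕ) * ((3 * h - i : ℕ) : ZMod (p ^ 2))) := by
    have e3 : Fc p (6 * h) = ∏ j ∈ Finset.range (3 * h), (((2 * j + 1 : ℕ) : ZMod (p ^ 2)) * ((2 * j + 1 + 1 : ℕ) : ZMod (p ^ 2))) := by
      unfold Fc
      rw [show 6 * h = 2 * (3 * h) by ring, prod_two]
    have e4 : (2 : ZMod (p ^ 2)) ^ (3 * h) * Fc p (3 * h) = ∏ j ∈ Finset.range (3 * h), ((2 * j + 1 + 1 : ℕ) : ZMod (p ^ 2)) := by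
      unfold Fc
      conv_lhs => rw [← Finset.card_range (3 * h), ← Finset.prod_const, Finset.card_range, ← Finset.prod_mul_distrib]
      refine Finset.prod_congr rfl ?_
      intro j _
      push_cast; ring
    rw [e3, e4, Finset.prod_mul_distrib, mul_comm]
    congr 1
    refine Finset.prod_congr rfl ?_
    intro i hi
    rw [Finset.mem_range] at hi
    rw [Nat.cast_sub (by omega)]
    have := p_cast p h h6 hpos
    push_cast
    rw [this]; ring
  rw [h1] at e1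
  rw [h3] at e2
  have hb : ((2 : ℕ) : ZMod (p ^ 2))⁻¹ = j2 p := rfl
  rw [hb] at e2
  have hu := Fc_unit p (3 * h) (by omega)
  have e5 : (-(1 : ℕ) : ZMod (p ^ 2)) ^ (3 * h) * (-(1 : ℕ) : ZMod (p ^ 2)) ^ (3 * h) = 1 := by
    rw [← mul_pow]; push_cast; simp
  have e6 : (2 : ZMod (p ^ 2)) ^ (3 * h) * (-(2 : ℕ) : ZMod (p ^ 2)) ^ (3 * h) =
      (-(1 : ℕ) : ZMod (p ^ 2)) ^ (3 * h) * 2 ^ (6 * h) := by
    rw [show 6 * h = 3 * h + 3 * h by ring, pow_add, ← mul_pow, ← mul_pow, ← mul_pow]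
    push_cast
    ring
  have hbb := pH_mul_pH p (3 * h) (3 * h)
  have key : Fc p (3 * h) * Fc p (3 * h) * (1 - pH p (3 * h)) =
      Fc p (3 * h) * Fc p (3 * h) * (2 ^ (6 * h) * (1 - j2 p * pH p (3 * h))) := by
    rw [e1] at e2
    linear_combination ((-(1 : ℕ) : ZMod (p ^ 2)) ^ (3 * h)) * e2 -
      (Fc p (3 * h) * Fc p (3 * h) * (1 - pH p (3 * h)) - Fc p (3 * h) * Fc p (3 * h) * (2 ^ (6 * h) * (1 - j2 p * pH p (3 * h)))) * e5 +
      ((-(1 : ℕ) : ZMod (p ^ 2)) ^ (3 * h) * Fc p (3 * h) * Fc p (3 * h) * (1 - j2 p * pH p (3 * h))) * e6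
  have key2 := (hu.mul hu).mul_left_cancel key
  have hj2 := j2_spec p h h6 hpos
  linear_combination (-(1 + j2 p * pH p (3 * h))) * key2 + (2 ^ (6 * h) * j2 p * j2 p - j2 p) * hbb +
    (pH p (3 * h)) * hj2

/-- (I) -/
lemma pow_three_eval : (-27 : ZMod (p ^ 2)) ^ h = 1 - j3 p * pH p (2 * h) := by
  have hc := p_cast p h h6 hpos
  have e1 : (27 : ZMod (p ^ 2)) ^ h * Fc p (3 * h) = (3 ^ h * Fc p h) *
      (∏ i ∈ Finset.range h, (-((3 * i + 1 : ℕ) : ZMod (p ^ 2)) + (p : ZMod (p ^ 2)) * 1)) *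
      (∏ i ∈ Finset.range h, (((3 * i + 2 : ℕ) : ZMod (p ^ 2)) + (p : ZMod (p ^ 2)) * 1)) := by
    have e2 : (27 : ZMod (p ^ 2)) ^ h * Fc p (3 * h) = ∏ j ∈ Finset.range (3 * h), ((3 * (j + 1) : ℕ) : ZMod (p ^ 2)) := by
      have e3 : (27 : ZMod (p ^ 2)) ^ h = 3 ^ (3 * h) := by rw [pow_mul]; norm_num
      rw [e3]
      unfold Fc
      conv_lhs => rw [← Finset.card_range (3 * h), ← Finset.prod_const, Finset.card_range, ← Finset.prod_mul_distrib]
      refine Finset.prod_congr rfl ?_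
      intro j _
      push_cast; ring
    rw [e2, show 3 * h = h + h + h by ring, Finset.prod_range_add, Finset.prod_range_add]
    congr 1
    · congr 1
      · unfold Fc
        rw [← Finset.card_range h, ← Finset.prod_const, Finset.card_range, ← Finset.prod_mul_distrib]
        refine Finset.prod_congr rfl ?_
        intro j _
        push_cast; ring
      · rw [← Finset.prod_range_reflect]
        refine Finset.prod_congr rfl ?_
        intro j hj
        rw [Finset.mem_range] at hj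
        have e3 : (((h - 1 - j : ℕ) : ZMod (p ^ 2))) = (h : ZMod (p ^ 2)) - 1 - j := by
          rw [Nat.cast_sub (by omega), Nat.cast_sub (by omega)]; push_cast; ring
        push_cast
        rw [e3, hc]; ring
    · refine Finset.prod_congr rfl ?_
      intro j hj
      push_cast
      rw [hc]; ring
  rw [prod_p p (Finset.range h) _ (fun j => -((3 * j + 1 : ℕ) : ZMod (p ^ 2))⁻¹),
    prod_p p (Finset.range h) _ (fun j => ((3 * j + 2 : ℕ) : ZMod (p ^ 2))⁻¹)] at e1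
  · have hs1 := s1 p h h6 hpos
    have hs2 := s2 p h h6 hpos
    have hO := sO p h h6 hpos
    have hr := pH_rel p h h6 hpos
    have hj3 := j3_spec p h h6 hpos
    have f1 : (p : ZMod (p ^ 2)) * ∑ i ∈ Finset.range h, 1 * -((3 * i + 1 : ℕ) : ZMod (p ^ 2))⁻¹ =
        - ∑ i ∈ Finset.range h, fp p (3 * i + 1) := by
      rw [Finset.mul_sum, ← Finset.sum_neg_distrib]
      refine Finset.sum_congr rfl ?_
      intro i _
      unfold fp
      ring
    have f2 : (p : ZMod (p ^ 2)) * ∑ i ∈ Finset.range h, 1 * ((3 * i + 2 : ℕ) : ZMod (p ^ 2))⁻¹ =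
        ∑ i ∈ Finset.range h, fp p (3 * i + 2) := by
      rw [Finset.mul_sum]
      refine Finset.sum_congr rfl ?_
      intro i _
      unfold fp
      ring
    have f3 : ∑ i ∈ Finset.range h, fp p (3 * i + 1) = j3 p * pH p (3 * h) := by
      linear_combination (j3 p) * hs1 - (∑ i ∈ Finset.range h, fp p (3 * i + 1)) * hj3 + (j3 p) * hr
    have f4 : ∑ i ∈ Finset.range h, fp p (3 * i + 2) = j3 p * (pH p (3 * h) - pH p (2 * h)) := by
      linear_combination (j3 p) * hs2 - (∑ i ∈ Finset.range h, fp p (3 * i + 2)) * hj3 + (j3 p) * hr +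
        (j3 p) * hO
    rw [f1, f2, f3, f4] at e1
    have hC := prodC p h h6 hpos
    have hneg : ∏ i ∈ Finset.range h, -((3 * i + 1 : ℕ) : ZMod (p ^ 2)) =
        (-1) ^ h * ∏ i ∈ Finset.range h, ((3 * i + 1 : ℕ) : ZMod (p ^ 2)) := by
      conv_rhs => rw [← Finset.card_range h, ← Finset.prod_const, Finset.card_range, ← Finset.prod_mul_distrib]
      refine Finset.prod_congr rfl ?_
      intro i _
      ring
    rw [hneg] at e1
    have hu := Fc_unit p (3 * h) (by omega)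
    have hbb := pH_mul_pH p (3 * h) (3 * h)
    have hab := pH_mul_pH p (3 * h) (2 * h)
    have e5 : (-1 : ZMod (p ^ 2)) ^ h * (-1) ^ h = 1 := by
      rw [← mul_pow]; simp
    have e6 : (-27 : ZMod (p ^ 2)) ^ h = (-1) ^ h * 27 ^ h := by
      rw [← mul_pow]; norm_num
    apply hu.mul_left_cancel
    rw [e6]
    set A := ∏ i ∈ Finset.range h, ((3 * i + 1 : ℕ) : ZMod (p ^ 2))
    set B := ∏ i ∈ Finset.range h, ((3 * i + 2 : ℕ) : ZMod (p ^ 2))
    linear_combination ((-1) ^ h) * e1 +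
      (3 ^ h * Fc p h * A * B * (1 + -(j3 p * pH p (3 * h))) * (1 + j3 p * (pH p (3 * h) - pH p (2 * h)))) * e5 +
      ((1 + -(j3 p * pH p (3 * h))) * (1 + j3 p * (pH p (3 * h) - pH p (2 * h)))) * hC
      - (Fc p (3 * h) * j3 p ^ 2) * hbb + (Fc p (3 * h) * j3 p ^ 2) * hab
  · intro i hi
    rw [Finset.mem_range] at hi
    exact mul_inv_nat p (ndvd p h h6 hpos (k := 3 * i + 2) (by omega) (by omega))
  · intro i hi
    rw [Finset.mem_range] at hi
    rw [neg_mul_neg]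
    exact mul_inv_nat p (ndvd p h h6 hpos (k := 3 * i + 1) (by omega) (by omega))

end

end Pool.Agent.Lib.Pffaf6e
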