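import Mathlib
import Pool.Agent.Lib.Pffaf6e.Prod
import Pool.Agent.Lib.Pffaf6e.Hyp

set_option autoImplicit false
set_option linter.unusedSectionVars false

namespace Pool.Agent.Lib.Pffaf6e

variable (p : ℕ) [hp : Fact p.Prime]

/-- one factor of the parametric term modulo `p^2` -/
def fac (A B w x y g : ZMod (p ^ 2)) (i : ℕ) : ZMod (p ^ 2) :=
  w * ((A + (p : ZMod (p ^ 2)) * x + i) * (B + (p : ZMod (p ^ 2)) * y + i)) *
    (((i + 1 : ℕ) : ZMod (p ^ 2))⁻¹ * ((i + 1 : ℕ) : ZMod (p ^ 2))⁻¹ *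
      (1 - (p : ZMod (p ^ 2)) * (g * ((i + 1 : ℕ) : ZMod (p ^ 2))⁻¹)))

/-- parametric truncated sum modulo `p^2` -/
def HgR (A B w x y g : ZMod (p ^ 2)) : ZMod (p ^ 2) :=
  ∑ k ∈ Finset.range p, ∏ i ∈ Finset.range k, fac p A B w x y g i

lemma prod_affine (A B w : ZMod (p ^ 2)) (k : ℕ) : ∃ c0 ca cb cg : ZMod (p ^ 2), ∀ x y g : ZMod (p ^ 2),
    ∏ i ∈ Finset.range k, fac p A B w x y g i =
      c0 + (p : ZMod (p ^ 2)) * (x * ca + y * cb + g * cg) := by
  induction k with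
  | zero => exact ⟨1, 0, 0, 0, by intro x y g; simp⟩
  | succ k ih =>
    obtain ⟨c0, ca, cb, cg, hc⟩ := ih
    set v := ((k + 1 : ℕ) : ZMod (p ^ 2))⁻¹ with hv
    refine ⟨c0 * (w * ((A + k) * (B + k)) * (v * v)),
      ca * (w * ((A + k) * (B + k)) * (v * v)) + c0 * (w * (B + k) * (v * v)),
      cb * (w * ((A + k) * (B + k)) * (v * v)) + c0 * (w * (A + k) * (v * v)),
      cg * (w * ((A + k) * (B + k)) * (v * v)) - c0 * (w * ((A + k) * (B + k)) * (v * v) * v), ?_⟩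
    intro x y g
    rw [Finset.prod_range_succ, hc]
    have h3 := psq p
    unfold fac
    rw [← hv]
    generalize (p : ZMod (p ^ 2)) = P at h3 ⊢
    have e1 : (A + P * x + (k : ZMod (p ^ 2))) * (B + P * y + k) =
        (A + k) * (B + k) + P * (x * (B + k) + y * (A + k)) := by
      linear_combination (x * y) * h3
    have e2 : ∀ a b c d : ZMod (p ^ 2), (a + P * b) * (c + P * d) = a * c + P * (a * d + b * c) := by
      intro a b c d
      linear_combination (b * d) * h3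
    rw [e1]
    have e3 : w * ((A + k) * (B + k) + P * (x * (B + k) + y * (A + k))) * (v * v * (1 - P * (g * v))) =
        w * ((A + k) * (B + k)) * (v * v) + P * ((w * (x * (B + k) + y * (A + k))) * (v * v) -
          w * ((A + k) * (B + k)) * (v * v) * (g * v)) := by
      linear_combination (-(w * (x * (B + k) + y * (A + k)) * (v * v) * (g * v))) * h3
    rw [e3, e2]
    ring

lemma HgR_affine (A B w : ZMod (p ^ 2)) : ∃ c0 ca cb cg : ZMod (p ^ 2), ∀ x y g : ZMod (p ^ 2),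
    HgR p A B w x y g = c0 + (p : ZMod (p ^ 2)) * (x * ca + y * cb + g * cg) := by
  choose c0 ca cb cg hc using prod_affine p A B w
  refine ⟨∑ k ∈ Finset.range p, c0 k, ∑ k ∈ Finset.range p, ca k, ∑ k ∈ Finset.range p, cb k,
    ∑ k ∈ Finset.range p, cg k, ?_⟩
  intro x y g
  unfold HgR
  simp only [Finset.mul_sum, mul_add, ← Finset.sum_add_distrib]
  refine Finset.sum_congr rfl ?_
  intro k _
  rw [hc]
  ring

/-- general term with two denominators -/
def hgd (a b c d w : ℚ) (k : ℕ) : ℚ :=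
  ∏ i ∈ Finset.range k, (w * ((a + i) * (b + i)) / ((c + i) * (d + i)))

lemma hg_eq_hgd (a b c w : ℚ) (k : ℕ) : hg a b c w k = hgd a b c 1 w k := rfl

lemma hgd_swap (a b c d w : ℚ) (k : ℕ) : hgd a b c d w k = hgd b a c d w k := by
  unfold hgd
  refine Finset.prod_congr rfl ?_
  intro i _
  rw [mul_comm (a + (i : ℚ)) (b + i)]

lemma hs_swap (a b c w : ℚ) (K : ℕ) : hs a b c w K = hs b a c w K := by
  unfold hs
  refine Finset.sum_congr rfl ?_
  intro k _
  rw [hg_eq_hgd, hgd_swap, ← hg_eq_hgd]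

variable {p}

lemma red_hgd {a b c d W : ℚ} {A B w x y g1 g2 : ZMod (p ^ 2)}
    (ha : Red p a (A + (p : ZMod (p ^ 2)) * x)) (hb : Red p b (B + (p : ZMod (p ^ 2)) * y))
    (hc : Red p c (1 + (p : ZMod (p ^ 2)) * g1)) (hd : Red p d (1 + (p : ZMod (p ^ 2)) * g2))
    (hW : Red p W w) (k : ℕ) (hk : k < p) :
    Red p (hgd a b c d W k) (∏ i ∈ Finset.range k, fac p A B w x y (g1 + g2) i) := by
  unfold hgd
  refine Red.prod _ ?_
  intro i hi
  rw [Finset.mem_range] at hi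
  have hnd := not_dvd_of_lt p (i := i + 1) (by omega) (by omega)
  have hv := mul_inv_nat p hnd
  have h3 := psq p
  have n1 := hW.mul ((ha.add (Red.nat p i)).mul (hb.add (Red.nat p i)))
  have n2 := (hc.add (Red.nat p i)).mul (hd.add (Red.nat p i))
  set v := ((i + 1 : ℕ) : ZMod (p ^ 2))⁻¹ with hvd
  have key : ((1 + (p : ZMod (p ^ 2)) * g1 + i) * (1 + (p : ZMod (p ^ 2)) * g2 + i)) *
      (v * v * (1 - (p : ZMod (p ^ 2)) * ((g1 + g2) * v))) = 1 := by
    push_cast at hv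
    have e1 : (1 + (p : ZMod (p ^ 2)) * g1 + i) * v = 1 + (p : ZMod (p ^ 2)) * (g1 * v) := by
      linear_combination hv
    have e2 : (1 + (p : ZMod (p ^ 2)) * g2 + i) * v = 1 + (p : ZMod (p ^ 2)) * (g2 * v) := by
      linear_combination hv
    calc ((1 + (p : ZMod (p ^ 2)) * g1 + i) * (1 + (p : ZMod (p ^ 2)) * g2 + i)) *
          (v * v * (1 - (p : ZMod (p ^ 2)) * ((g1 + g2) * v)))
        = ((1 + (p : ZMod (p ^ 2)) * g1 + i) * v) * ((1 + (p : ZMod (p ^ 2)) * g2 + i) * v) *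
          (1 - (p : ZMod (p ^ 2)) * ((g1 + g2) * v)) := by ring
      _ = (1 + (p : ZMod (p ^ 2)) * (g1 * v)) * (1 + (p : ZMod (p ^ 2)) * (g2 * v)) *
          (1 - (p : ZMod (p ^ 2)) * ((g1 + g2) * v)) := by rw [e1, e2]
      _ = 1 := by
        linear_combination (g1 * v * (g2 * v) - (g1 * v + g2 * v) * ((g1 + g2) * v) -
          (p : ZMod (p ^ 2)) * (g1 * v * (g2 * v)) * ((g1 + g2) * v)) * h3
  have hu : IsUnit ((1 + (p : ZMod (p ^ 2)) * g1 + i) * (1 + (p : ZMod (p ^ 2)) * g2 + i)) :=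
    IsUnit.of_mul_eq_one _ key
  have hinv : ((1 + (p : ZMod (p ^ 2)) * g1 + i) * (1 + (p : ZMod (p ^ 2)) * g2 + i))⁻¹ =
      (v * v * (1 - (p : ZMod (p ^ 2)) * ((g1 + g2) * v))) := by
    have h4 := ZMod.mul_inv_of_unit _ hu
    exact hu.mul_left_cancel (h4.trans key.symm)
  have n3 := n1.div n2 hu
  refine n3.congr rfl ?_
  rw [hinv]
  unfold fac
  rw [← hvd]

lemma red_hgd_sum {a b c d W : ℚ} {A B w x y g1 g2 : ZMod (p ^ 2)}
    (ha : Red p a (A + (p : ZMod (p ^ 2)) * x)) (hb : Red p b (B + (p : ZMod (p ^ 2)) * y))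
    (hc : Red p c (1 + (p : ZMod (p ^ 2)) * g1)) (hd : Red p d (1 + (p : ZMod (p ^ 2)) * g2))
    (hW : Red p W w) :
    Red p (∑ k ∈ Finset.range p, hgd a b c d W k) (HgR p A B w x y (g1 + g2)) := by
  unfold HgR
  refine Red.sum _ ?_
  intro k hk
  exact red_hgd ha hb hc hd hW k (Finset.mem_range.mp hk)

lemma red_hs {a b c W : ℚ} {A B w x y g : ZMod (p ^ 2)}
    (ha : Red p a (A + (p : ZMod (p ^ 2)) * x)) (hb : Red p b (B + (p : ZMod (p ^ 2)) * y))
    (hc : Red p c (1 + (p : ZMod (p ^ 2)) * g)) (hW : Red p W w) :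
    Red p (hs a b c W p) (HgR p A B w x y g) := by
  have hd : Red p 1 (1 + (p : ZMod (p ^ 2)) * 0) := by
    rw [mul_zero, add_zero]; exact Red.one p
  have h := red_hgd_sum ha hb hc hd hW
  rw [add_zero] at h
  exact h

end Pool.Agent.Lib.Pffaf6e
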