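import Mathlib
import Pool.Agent.Lib.Pffaf6e.Param

set_option autoImplicit false
set_option linter.unusedSectionVars false

namespace Pool.Agent.Lib.Pffaf6e

variable (p : ℕ) [hp : Fact p.Prime]

/-- the binomial coefficient `C(4h, 2h)` -/
def Cc (h : ℕ) : ZMod (p ^ 2) := (((4 * h).choose (2 * h) : ℕ) : ZMod (p ^ 2))

section
variable (h : ℕ) (h6 : p = 6 * h + 1) (hpos : 0 < h)
include h6 hpos

lemma C_fc : Cc p h * Fc p (2 * h) * Fc p (2 * h) = Fc p (4 * h) := by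
  have h1 := Nat.choose_mul_factorial_mul_factorial (show 2 * h ≤ 4 * h by omega)
  rw [show 4 * h - 2 * h = 2 * h by omega] at h1
  unfold Cc
  rw [Fc_eq, Fc_eq, ← h1]
  push_cast
  ring

lemma nil_exists : ∃ a b : ZMod (p ^ 2), pH p (2 * h) = 6 * a ∧ pH p (3 * h) = 6 * b ∧
    a * a = 0 ∧ a * b = 0 ∧ b * b = 0 := by
  have h2 := j2_spec p h h6 hpos
  have h3 := j3_spec p h h6 hpos
  refine ⟨j2 p * j3 p * pH p (2 * h), j2 p * j3 p * pH p (3 * h), ?_, ?_, ?_, ?_, ?_⟩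
  · linear_combination (-(3 * j3 p) * pH p (2 * h)) * h2 - (pH p (2 * h)) * h3
  · linear_combination (-(3 * j3 p) * pH p (3 * h)) * h2 - (pH p (3 * h)) * h3
  · linear_combination (j2 p * j3 p) ^ 2 * pH_mul_pH p (2 * h) (2 * h)
  · linear_combination (j2 p * j3 p) ^ 2 * pH_mul_pH p (2 * h) (3 * h)
  · linear_combination (j2 p * j3 p) ^ 2 * pH_mul_pH p (3 * h) (3 * h)

lemma unit_pow (k m : ℕ) (h1 : 1 ≤ k) (h2 : k ≤ 6 * h) : IsUnit (((k : ℕ) : ZMod (p ^ 2)) ^ m) :=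
  (isUnit_nat p (ndvd p h h6 hpos h1 h2)).pow m

lemma unit_two_pow (m : ℕ) : IsUnit ((2 : ZMod (p ^ 2)) ^ m) := (two_unit p h h6 hpos).pow m
lemma unit_three_pow (m : ℕ) : IsUnit ((3 : ZMod (p ^ 2)) ^ m) := (three_unit p h h6 hpos).pow m
lemma unit_neg_pow (m : ℕ) : IsUnit ((-1 : ZMod (p ^ 2)) ^ m) := (isUnit_one.neg).pow m

variable (a b : ZMod (p ^ 2)) (ha : pH p (2 * h) = 6 * a) (hb : pH p (3 * h) = 6 * b)
  (haa : a * a = 0) (hab : a * b = 0) (hbb : b * b = 0)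
include ha hb

omit ha in
lemma pow2 : (2 : ZMod (p ^ 2)) ^ (6 * h) = 1 - 3 * b := by
  rw [pow_two_eval p h h6 hpos, hb]
  have h2 := j2_spec p h h6 hpos
  linear_combination (-3 * b) * h2

omit hb in
lemma pow27 : (-27 : ZMod (p ^ 2)) ^ h = 1 - 2 * a := by
  rw [pow_three_eval p h h6 hpos, ha]
  have h3 := j3_spec p h h6 hpos
  linear_combination (-2 * a) * h3

/-- (K'') -/
lemma relK (haa : a * a = 0) (hab : a * b = 0) (hbb : b * b = 0) :
    Cc p h * Fc p h * Fc p h = 108 ^ h * Fc p (2 * h) * (1 + 2 * a + 3 * b) := by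
  have h2 := j2_spec p h h6 hpos
  have h3 := j3_spec p h h6 hpos
  have hA := prodA p h h6 hpos
  have hB := prodB p h h6 hpos
  have hC := prodC p h h6 hpos
  have hG1 := prodG1 p h h6 hpos
  have hG2 := prodG2 p h h6 hpos
  have hcc := C_fc p h h6 hpos
  rw [ha, hb] at hB
  rw [hb] at hA
  rw [ha] at hG2
  have e1 : (1 + j3 p * (6 * b)) = 1 + 2 * b := by linear_combination (2 * b) * h3
  have e2 : (1 - j3 p * (j2 p * (6 * a - 6 * b))) = 1 - (a - b) := by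
    linear_combination (-(a - b) * (3 * j3 p)) * h2 - (a - b) * h3
  have e3 : (1 + j2 p * (6 * a)) = 1 + 3 * a := by linear_combination (3 * a) * h2
  rw [e1] at hA
  rw [e2] at hB
  rw [e3] at hG2
  have u2 := Fc_unit p (2 * h) (by omega)
  -- J
  set X := ∏ i ∈ Finset.range (2 * h), ((2 * i + 1 : ℕ) : ZMod (p ^ 2)) with hX
  set A := ∏ i ∈ Finset.range h, ((3 * i + 1 : ℕ) : ZMod (p ^ 2)) with hAd
  set B := ∏ i ∈ Finset.range h, ((3 * i + 2 : ℕ) : ZMod (p ^ 2)) with hBd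
  have J0 : 4 ^ h * X = Cc p h * Fc p (2 * h) := by
    apply u2.mul_left_cancel
    linear_combination hG1 - hcc
  have J : Cc p h * Fc p (2 * h) * Fc p h = 16 ^ h * Fc p (3 * h) * (1 + 3 * a) := by
    have e4 : (16 : ZMod (p ^ 2)) ^ h = 4 ^ h * 4 ^ h := by rw [← mul_pow]; norm_num
    rw [e4]
    linear_combination (-(Fc p h)) * J0 + (4 ^ h) * hG2
  have K : 27 ^ h * Fc p (2 * h) * Fc p (2 * h) * ((1 + 2 * b) * (1 - (a - b))) = 4 ^ h * Fc p (3 * h) * Fc p h := by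
    have e5 : (27 : ZMod (p ^ 2)) ^ h = 3 ^ h * ((-3) ^ h * (-3) ^ h) := by
      rw [← mul_pow, ← mul_pow]; norm_num
    rw [e5]
    linear_combination (4 ^ h * Fc p h) * hC - (3 ^ h * 4 ^ h * Fc p h * B) * hA -
      (3 ^ h * (-3) ^ h * Fc p (2 * h) * (1 + 2 * b)) * hB
  have e6 : (1 + 2 * b) * (1 - (a - b)) * (1 + 3 * a) = 1 + 2 * a + 3 * b := by
    linear_combination (-3 - 6 * b) * haa + (7 + 6 * b) * hab + 2 * hbb
  have e7 : (108 : ZMod (p ^ 2)) ^ h = 27 ^ h * 4 ^ h := by rw [← mul_pow]; norm_num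
  have e8 : (16 : ZMod (p ^ 2)) ^ h = 4 ^ h * 4 ^ h := by rw [← mul_pow]; norm_num
  apply u2.mul_left_cancel
  rw [e7, ← e6]
  rw [e8] at J
  linear_combination (Fc p h) * J - (4 ^ h * (1 + 3 * a)) * K

end

end Pool.Agent.Lib.Pffaf6e
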