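import Mathlib
import Pool.Agent.Lib.Pffaf6e.EVal

set_option autoImplicit false
set_option linter.unusedSectionVars false

namespace Pool.Agent.Lib.Pffaf6e

variable (p : ℕ) [hp : Fact p.Prime]

/-- reduction of `-1/8` -/
def w8 : ZMod (p ^ 2) := -(j2 p * j2 p * j2 p)

/-- the sum with argument `-1/8` -/
def Gt (x y g : ZMod (p ^ 2)) : ZMod (p ^ 2) := HgR p (j3 p) (2 * j3 p) (w8 p) x y g

/-- rational version of E1 with the factor `p` removed -/
lemma E1_q (h K : ℕ) (hK : 2 * h < K) :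
    hs (-((2 * h : ℕ) : ℚ)) (1 / 3 - ((2 * h : ℕ) : ℚ)) (4 / 3 + ((2 * h : ℕ) : ℚ)) (-1 / 8) K * 16 ^ (2 * h) *
      ((∏ i ∈ Finset.range h, ((6 * i + 1 : ℕ) : ℚ)) * ∏ j ∈ Finset.range h, ((6 * (j + 1) + (6 * h + 1) : ℕ) : ℚ)) =
      27 ^ (2 * h) * ∏ i ∈ Finset.range (2 * h), ((3 * i + 1 : ℕ) : ℚ) := by
  have hcl := E1_closed (2 * h) K hK
  have e1 : ∏ i ∈ Finset.range (2 * h), (6 * (i : ℚ) + 7) =
      (∏ i ∈ Finset.range h, ((6 * i + 1 : ℕ) : ℚ)) * (∏ j ∈ Finset.range h, ((6 * (j + 1) + (6 * h + 1) : ℕ) : ℚ)) *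
        ((6 * h + 1 : ℕ) : ℚ) := by
    have a1 : ∏ i ∈ Finset.range (2 * h + 1), ((6 * i + 1 : ℕ) : ℚ) = ∏ i ∈ Finset.range (2 * h), (6 * (i : ℚ) + 7) := by
      rw [Finset.prod_range_succ']
      simp only [mul_zero, zero_add, Nat.cast_one, mul_one]
      refine Finset.prod_congr rfl ?_
      intro i _
      push_cast; ring
    have a2 : ∏ i ∈ Finset.range (2 * h + 1), ((6 * i + 1 : ℕ) : ℚ) =
        (∏ i ∈ Finset.range h, ((6 * i + 1 : ℕ) : ℚ)) * ((6 * h + 1 : ℕ) : ℚ) *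
          (∏ j ∈ Finset.range h, ((6 * (j + 1) + (6 * h + 1) : ℕ) : ℚ)) := by
      rw [show 2 * h + 1 = (h + 1) + h by ring, Finset.prod_range_add, Finset.prod_range_succ]
      congr 1
      refine Finset.prod_congr rfl ?_
      intro i _
      congr 1
      ring
    rw [← a1, a2]
    ring
  have e2 : ∏ i ∈ Finset.range (2 * h), (3 * (i : ℚ) + 4) =
      (∏ i ∈ Finset.range (2 * h), ((3 * i + 1 : ℕ) : ℚ)) * ((6 * h + 1 : ℕ) : ℚ) := by
    have a1 : ∏ i ∈ Finset.range (2 * h + 1), ((3 * i + 1 : ℕ) : ℚ) = ∏ i ∈ Finset.range (2 * h), (3 * (i : ℚ) + 4) := by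
      rw [Finset.prod_range_succ']
      simp only [mul_zero, zero_add, Nat.cast_one, mul_one]
      refine Finset.prod_congr rfl ?_
      intro i _
      push_cast; ring
    rw [← a1, Finset.prod_range_succ]
    congr 2
    ring
  rw [e1, e2] at hcl
  have hne : ((6 * h + 1 : ℕ) : ℚ) ≠ 0 := by positivity
  have h16 : (16 : ℚ) ^ (2 * h) ≠ 0 := by positivity
  have e3 : (27 / 16 : ℚ) ^ (2 * h) * 16 ^ (2 * h) = 27 ^ (2 * h) := by
    rw [← mul_pow]; norm_num
  apply mul_right_cancel₀ hne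
  rw [← e3]
  linear_combination (16 ^ (2 * h)) * hcl

section
variable (h : ℕ) (h6 : p = 6 * h + 1) (hpos : 0 < h)
include h6 hpos

lemma red_half : Red p (1 / 2) (j2 p) := by
  have := Red.invNat (p := p) (ndvd p h h6 hpos (k := 2) (by omega) (by omega))
  exact this.congr (by norm_num) rfl

lemma red_third : Red p (1 / 3) (j3 p) := by
  have := Red.invNat (p := p) (ndvd p h h6 hpos (k := 3) (by omega) (by omega))
  exact this.congr (by norm_num) rfl

lemma red_w8 : Red p (-1 / 8) (w8 p) := by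
  have h1 := red_half p h h6 hpos
  exact (((h1.mul h1).mul h1).neg).congr (by norm_num) rfl

variable (a b : ZMod (p ^ 2)) (ha : pH p (2 * h) = 6 * a) (hb : pH p (3 * h) = 6 * b)
include ha hb

lemma E3_val (haa : a * a = 0) (hab : a * b = 0) (hbb : b * b = 0) :
    Gt p (-(j3 p)) (-(j3 p)) (-(j2 p * j3 p)) = Cc p h * (1 - a + 3 * b) := by
  have h2 := j2_spec p h h6 hpos
  have h3 := j3_spec p h h6 hpos
  have hpc := p_cast p h h6 hpos
  have r1 : Red p (hs (-((2 * h : ℕ) : ℚ)) (1 / 3 - ((2 * h : ℕ) : ℚ)) (5 / 6 - (h : ℚ)) (-1 / 8) p)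
      (Gt p (-(j3 p)) (-(j3 p)) (-(j2 p * j3 p))) := by
    unfold Gt
    refine red_hs ?_ ?_ ?_ (red_w8 p h h6 hpos)
    · refine (Red.nat p (2 * h)).neg.congr rfl ?_
      rw [hpc]; push_cast
      linear_combination (2 * (h : ZMod (p ^ 2))) * h3
    · refine ((red_third p h h6 hpos).sub (Red.nat p (2 * h))).congr rfl ?_
      rw [hpc]; push_cast
      linear_combination (2 * (h : ZMod (p ^ 2))) * h3
    · refine ((((red_half p h h6 hpos).mul (red_third p h h6 hpos)).mul (Red.nat p 5)).sub (Red.nat p h)).congr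
        (by push_cast; ring) ?_
      rw [hpc]; push_cast
      linear_combination ((1 + (h : ZMod (p ^ 2))) * 3 * j3 p) * h2 + (1 + (h : ZMod (p ^ 2))) * h3
  have hcl := E3_closed h p (by omega)
  have e1 : hs (-((2 * h : ℕ) : ℚ)) (1 / 3 - ((2 * h : ℕ) : ℚ)) (5 / 6 - (h : ℚ)) (-1 / 8) p * 16 ^ h *
      ∏ i ∈ Finset.range h, ((6 * i + 1 : ℕ) : ℚ) = 27 ^ h * (2 ^ h * ∏ i ∈ Finset.range h, ((3 * i + 1 : ℕ) : ℚ)) := by
    have e3 : (27 / 16 : ℚ) ^ h * 16 ^ h = 27 ^ h := by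
      rw [← mul_pow]; norm_num
    have e4 : ∏ i ∈ Finset.range h, (6 * (i : ℚ) + 2) = 2 ^ h * ∏ i ∈ Finset.range h, ((3 * i + 1 : ℕ) : ℚ) := by
      conv_rhs => rw [← Finset.card_range h, ← Finset.prod_const, Finset.card_range, ← Finset.prod_mul_distrib]
      refine Finset.prod_congr rfl ?_
      intro i _
      push_cast; ring
    have e5 : ∏ i ∈ Finset.range h, ((6 * i + 1 : ℕ) : ℚ) = ∏ i ∈ Finset.range h, (6 * (i : ℚ) + 1) := by
      refine Finset.prod_congr rfl ?_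
      intro i _
      push_cast; ring
    rw [e5, ← e4, ← e3]
    linear_combination (16 ^ h) * hcl
  have r2 := (r1.mul ((Red.nat p 16).pow h)).mul (Red.prod (Finset.range h) (f := fun i => ((6 * i + 1 : ℕ) : ℚ))
    (g := fun i => ((6 * i + 1 : ℕ) : ZMod (p ^ 2))) (fun i _ => Red.nat p (6 * i + 1)))
  have r3 := ((Red.nat p 27).pow h).mul (((Red.nat p 2).pow h).mul (Red.prod (Finset.range h)
    (f := fun i => ((3 * i + 1 : ℕ) : ℚ)) (g := fun i => ((3 * i + 1 : ℕ) : ZMod (p ^ 2)))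
    (fun i _ => Red.nat p (3 * i + 1))))
  have e2 := (r2.congr (by push_cast; push_cast at e1; exact e1) rfl).unique (r3.congr (by push_cast; rfl) rfl)
  set E := Gt p (-(j3 p)) (-(j3 p)) (-(j2 p * j3 p)) with hE
  have hE' := prodE p h h6 hpos
  have hA := prodA p h h6 hpos
  rw [ha, hb] at hE'
  rw [hb] at hA
  have f1 : (1 + j3 p * (6 * b)) = 1 + 2 * b := by linear_combination (2 * b) * h3
  have f2 : (1 - j2 p * j3 p * (6 * a + 6 * b)) = 1 - (a + b) := by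
    linear_combination (-(a + b) * (3 * j3 p)) * h2 - (a + b) * h3
  rw [f1] at hA
  rw [f2] at hE'
  rw [hE'] at e2
  have K := relK p h h6 hpos a b ha hb haa hab hbb
  have p2 := pow2 p h h6 hpos b hb
  have u2 := Fc_unit p (2 * h) (by omega)
  set A := ∏ i ∈ Finset.range h, ((3 * i + 1 : ℕ) : ZMod (p ^ 2)) with hAd
  -- cancel
  have g1 : (-6 : ZMod (p ^ 2)) ^ h = 2 ^ h * (-3) ^ h := by rw [← mul_pow]; norm_num
  have g2 : (108 : ZMod (p ^ 2)) ^ h = 27 ^ h * 4 ^ h := by rw [← mul_pow]; norm_num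
  have g3 : (16 : ZMod (p ^ 2)) ^ h * 4 ^ h = 1 - 3 * b := by
    rw [← p2, pow_mul, ← mul_pow]; norm_num
  have u3 : IsUnit ((2 : ZMod (p ^ 2)) ^ h * (-3) ^ h * (27 ^ h * Fc p (2 * h))) := by
    have v1 : IsUnit ((-3 : ZMod (p ^ 2)) ^ h) := by
      have : (-3 : ZMod (p ^ 2)) ^ h = (-1) ^ h * 3 ^ h := by rw [← mul_pow]; norm_num
      rw [this]
      exact (unit_neg_pow p h h6 hpos h).mul (unit_three_pow p h h6 hpos h)
    have v2 : IsUnit ((27 : ZMod (p ^ 2)) ^ h) := by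
      have : (27 : ZMod (p ^ 2)) ^ h = 3 ^ (3 * h) := by rw [pow_mul]; norm_num
      rw [this]
      exact unit_three_pow p h h6 hpos (3 * h)
    exact ((unit_two_pow p h h6 hpos h).mul v1).mul (v2.mul u2)
  have main : E * (1 - 3 * b) * (1 + 2 * a + 3 * b) * (1 - (a + b)) = (1 + 2 * b) * Cc p h := by
    apply u3.mul_left_cancel
    rw [g1] at e2
    rw [g2] at K
    rw [← g3]
    push_cast at e2
    linear_combination (Fc p h * Cc p h) * e2 - (E * 16 ^ h * 2 ^ h * (-3) ^ h * (1 - (a + b))) * K +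
      (27 ^ h * 2 ^ h * Cc p h) * hA
  have m1 : (1 - 3 * b) * (1 + 2 * a + 3 * b) * (1 - (a + b)) * (1 - a + b) = 1 := by
    linear_combination ((-3) + 12 * b + (-9 * b ^ 2) + 2 * a + (-6 * a * b)) * haa +
      ((-6) + 16 * b + 6 * b ^ 2) * hab + ((-10) + 9 * b ^ 2) * hbb
  have m2 : (1 + 2 * b) * (1 - a + b) = 1 - a + 3 * b := by
    linear_combination (-2) * hab + 2 * hbb
  linear_combination (1 - a + b) * main - E * m1 + (Cc p h) * m2

lemma E4_val (haa : a * a = 0) (hab : a * b = 0) (hbb : b * b = 0) :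
    Gt p (-(2 * j3 p)) (-(2 * j3 p)) (-(j3 p)) = Cc p h * (1 - 2 * a + 6 * b) := by
  have h2 := j2_spec p h h6 hpos
  have h3 := j3_spec p h h6 hpos
  have hpc := p_cast p h h6 hpos
  have r1 : Red p (hs (-((2 * (2 * h) : ℕ) : ℚ)) (-1 / 3 - ((2 * (2 * h) : ℕ) : ℚ)) (2 / 3 - ((2 * h : ℕ) : ℚ)) (-1 / 8) p)
      (Gt p (-(2 * j3 p)) (-(2 * j3 p)) (-(j3 p))) := by
    unfold Gt
    rw [hs_swap]
    refine red_hs ?_ ?_ ?_ (red_w8 p h h6 hpos)
    · refine (((red_third p h h6 hpos).neg).sub (Red.nat p (2 * (2 * h)))).congr (by push_cast; ring) ?_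
      rw [hpc]; push_cast
      linear_combination (4 * (h : ZMod (p ^ 2))) * h3
    · refine (Red.nat p (2 * (2 * h))).neg.congr rfl ?_
      rw [hpc]; push_cast
      linear_combination (4 * (h : ZMod (p ^ 2))) * h3
    · refine (((red_third p h h6 hpos).mul (Red.nat p 2)).sub (Red.nat p (2 * h))).congr
        (by push_cast; ring) ?_
      rw [hpc]; push_cast
      linear_combination (1 + 2 * (h : ZMod (p ^ 2))) * h3
  have hcl := E4_closed (2 * h) p (by omega)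
  have e1 : hs (-((2 * (2 * h) : ℕ) : ℚ)) (-1 / 3 - ((2 * (2 * h) : ℕ) : ℚ)) (2 / 3 - ((2 * h : ℕ) : ℚ)) (-1 / 8) p *
      16 ^ (2 * h) * (2 ^ (2 * h) * ∏ i ∈ Finset.range (2 * h), ((3 * i + 1 : ℕ) : ℚ)) =
      27 ^ (2 * h) * (3 ^ (2 * h) * ∏ i ∈ Finset.range (2 * h), ((2 * i + 1 : ℕ) : ℚ)) := by
    have e3 : (27 / 16 : ℚ) ^ (2 * h) * 16 ^ (2 * h) = 27 ^ (2 * h) := by
      rw [← mul_pow]; norm_num
    have e4 : ∏ i ∈ Finset.range (2 * h), (6 * (i : ℚ) + 2) =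
        2 ^ (2 * h) * ∏ i ∈ Finset.range (2 * h), ((3 * i + 1 : ℕ) : ℚ) := by
      conv_rhs => rw [← Finset.card_range (2 * h), ← Finset.prod_const, Finset.card_range, ← Finset.prod_mul_distrib]
      refine Finset.prod_congr rfl ?_
      intro i _
      push_cast; ring
    have e5 : ∏ i ∈ Finset.range (2 * h), (6 * (i : ℚ) + 3) =
        3 ^ (2 * h) * ∏ i ∈ Finset.range (2 * h), ((2 * i + 1 : ℕ) : ℚ) := by
      conv_rhs => rw [← Finset.card_range (2 * h), ← Finset.prod_const, Finset.card_range, ← Finset.prod_mul_distrib]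
      refine Finset.prod_congr rfl ?_
      intro i _
      push_cast; ring
    rw [← e5, ← e4, ← e3]
    linear_combination (16 ^ (2 * h)) * hcl
  have r2 := (r1.mul ((Red.nat p 16).pow (2 * h))).mul (((Red.nat p 2).pow (2 * h)).mul
    (Red.prod (Finset.range (2 * h)) (f := fun i => ((3 * i + 1 : ℕ) : ℚ))
    (g := fun i => ((3 * i + 1 : ℕ) : ZMod (p ^ 2))) (fun i _ => Red.nat p (3 * i + 1))))
  have r3 := ((Red.nat p 27).pow (2 * h)).mul (((Red.nat p 3).pow (2 * h)).mul (Red.prod (Finset.range (2 * h))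
    (f := fun i => ((2 * i + 1 : ℕ) : ℚ)) (g := fun i => ((2 * i + 1 : ℕ) : ZMod (p ^ 2)))
    (fun i _ => Red.nat p (2 * i + 1))))
  have e2 := (r2.congr (by push_cast; push_cast at e1; exact e1) rfl).unique (r3.congr (by push_cast; rfl) rfl)
  set E := Gt p (-(2 * j3 p)) (-(2 * j3 p)) (-(j3 p)) with hE
  have hD := prodD p h h6 hpos
  rw [ha] at hD
  have f1 : (1 - j3 p * (6 * a)) = 1 - 2 * a := by linear_combination (-2 * a) * h3
  rw [f1] at hD
  rw [hD] at e2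
  have hG1 := prodG1 p h h6 hpos
  have hcc := C_fc p h h6 hpos
  have u2 := Fc_unit p (2 * h) (by omega)
  set X := ∏ i ∈ Finset.range (2 * h), ((2 * i + 1 : ℕ) : ZMod (p ^ 2)) with hX
  have J0 : 4 ^ h * X = Cc p h * Fc p (2 * h) := by
    apply u2.mul_left_cancel
    linear_combination hG1 - hcc
  have p2 := pow2 p h h6 hpos b hb
  have p27 := pow27 p h h6 hpos a ha
  have e64 : (2 : ZMod (p ^ 2)) ^ (6 * h) = 64 ^ h := by rw [pow_mul]; norm_num
  have g1 : (16 : ZMod (p ^ 2)) ^ (2 * h) * 2 ^ (2 * h) * 4 ^ h = (1 - 3 * b) * (1 - 3 * b) := by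
    have e4096 : (64 : ZMod (p ^ 2)) ^ h * 64 ^ h = 4096 ^ h := by rw [← mul_pow]; norm_num
    rw [← p2, e64, e4096, pow_mul, pow_mul, ← mul_pow, ← mul_pow]; norm_num
  have g2 : (27 : ZMod (p ^ 2)) ^ (2 * h) = (1 - 2 * a) * (1 - 2 * a) := by
    rw [← p27, pow_mul, ← mul_pow]; norm_num
  have g3 : (9 : ZMod (p ^ 2)) ^ h = 3 ^ (2 * h) := by rw [pow_mul]; norm_num
  rw [g3] at e2
  have main : E * (1 - 3 * b) * (1 - 3 * b) * (1 - 2 * a) = (1 - 2 * a) * (1 - 2 * a) * Cc p h := by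
    apply ((unit_three_pow p h h6 hpos (2 * h)).mul u2).mul_left_cancel
    rw [← g2]
    push_cast at e2
    linear_combination (4 ^ h) * e2 - (E * 3 ^ (2 * h) * Fc p (2 * h) * (1 - 2 * a)) * g1 +
      (27 ^ (2 * h) * 3 ^ (2 * h)) * J0
  have m1 : (1 - 3 * b) * (1 - 3 * b) * (1 + 6 * b) = 1 := by
    linear_combination ((-27) + 54 * b) * hbb
  have m2 : (1 - 2 * a) * (1 + 2 * a) = 1 := by
    linear_combination (-4) * haa
  have m3 : (1 - 2 * a) * (1 + 6 * b) = 1 - 2 * a + 6 * b := by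
    linear_combination (-12) * hab
  linear_combination ((1 + 6 * b) * (1 + 2 * a)) * main - (E * ((1 - 2 * a) * (1 + 2 * a))) * m1 - E * m2 +
    (Cc p h * (1 - 2 * a) * (1 + 6 * b)) * m2 + (Cc p h) * m3

lemma E1_val (haa : a * a = 0) (hab : a * b = 0) (hbb : b * b = 0) :
    Gt p (-(j3 p)) (-(j3 p)) (j3 p) = Cc p h * (1 - 6 * a + 3 * b) := by
  have h2 := j2_spec p h h6 hpos
  have h3 := j3_spec p h h6 hpos
  have hpc := p_cast p h h6 hpos
  have r1 : Red p (hs (-((2 * h : ℕ) : ℚ)) (1 / 3 - ((2 * h : ℕ) : ℚ)) (4 / 3 + ((2 * h : ℕ) : ℚ)) (-1 / 8) p)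
      (Gt p (-(j3 p)) (-(j3 p)) (j3 p)) := by
    unfold Gt
    refine red_hs ?_ ?_ ?_ (red_w8 p h h6 hpos)
    · refine (Red.nat p (2 * h)).neg.congr rfl ?_
      rw [hpc]; push_cast
      linear_combination (2 * (h : ZMod (p ^ 2))) * h3
    · refine ((red_third p h h6 hpos).sub (Red.nat p (2 * h))).congr rfl ?_
      rw [hpc]; push_cast
      linear_combination (2 * (h : ZMod (p ^ 2))) * h3
    · refine ((((red_third p h h6 hpos)).mul (Red.nat p 4)).add (Red.nat p (2 * h))).congr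
        (by push_cast; ring) ?_
      rw [hpc]; push_cast
      linear_combination (1 - 2 * (h : ZMod (p ^ 2))) * h3
  have hq := E1_q h p (by omega)
  have r2 := (r1.mul ((Red.nat p 16).pow (2 * h))).mul ((Red.prod (Finset.range h)
    (f := fun i => ((6 * i + 1 : ℕ) : ℚ))
    (g := fun i => ((6 * i + 1 : ℕ) : ZMod (p ^ 2))) (fun i _ => Red.nat p (6 * i + 1))).mul
    (Red.prod (Finset.range h) (f := fun j => ((6 * (j + 1) + (6 * h + 1) : ℕ) : ℚ))
    (g := fun j => ((6 * (j + 1) + (6 * h + 1) : ℕ) : ZMod (p ^ 2))) (fun j _ => Red.nat p _)))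
  have r3 := ((Red.nat p 27).pow (2 * h)).mul (Red.prod (Finset.range (2 * h))
    (f := fun i => ((3 * i + 1 : ℕ) : ℚ)) (g := fun i => ((3 * i + 1 : ℕ) : ZMod (p ^ 2)))
    (fun i _ => Red.nat p (3 * i + 1)))
  have e2 := (r2.congr (by push_cast; push_cast at hq; exact hq) rfl).unique (r3.congr (by push_cast; rfl) rfl)
  set E := Gt p (-(j3 p)) (-(j3 p)) (j3 p) with hE
  have hD := prodD p h h6 hpos
  have hE' := prodE p h h6 hpos
  have hF := prodF p h h6 hpos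
  rw [ha] at hD
  rw [ha, hb] at hE' hF
  have f1 : (1 - j3 p * (6 * a)) = 1 - 2 * a := by linear_combination (-2 * a) * h3
  have f2 : (1 - j2 p * j3 p * (6 * a + 6 * b)) = 1 - (a + b) := by
    linear_combination (-(a + b) * (3 * j3 p)) * h2 - (a + b) * h3
  have f3 : (1 + j2 p * j3 p * (6 * a + 6 * b)) = 1 + (a + b) := by
    linear_combination ((a + b) * (3 * j3 p)) * h2 + (a + b) * h3
  rw [f1] at hD
  rw [f2] at hE'
  rw [f3] at hF
  have hF' : ∏ j ∈ Finset.range h, ((6 * (j + 1) + (6 * h + 1) : ℕ) : ZMod (p ^ 2)) = 6 ^ h * Fc p h * (1 + (a + b)) := by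
    rw [← hF]
    refine Finset.prod_congr rfl ?_
    intro j _
    rw [← h6]
  rw [hE', hF', hD] at e2
  have K := relK p h h6 hpos a b ha hb haa hab hbb
  have p2 := pow2 p h h6 hpos b hb
  have p27 := pow27 p h h6 hpos a ha
  have u2 := Fc_unit p (2 * h) (by omega)
  -- constants
  have g1 : (16 : ZMod (p ^ 2)) ^ (2 * h) * (-6) ^ h * 6 ^ h * 108 ^ h =
      (1 - 3 * b) * (1 - 3 * b) * ((-27) ^ h * 9 ^ h) := by
    have e64 : (2 : ZMod (p ^ 2)) ^ (6 * h) = 64 ^ h := by rw [pow_mul]; norm_num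
    have e4096 : (64 : ZMod (p ^ 2)) ^ h * 64 ^ h = 4096 ^ h := by rw [← mul_pow]; norm_num
    have e243 : (-27 : ZMod (p ^ 2)) ^ h * 9 ^ h = (-243) ^ h := by rw [← mul_pow]; norm_num
    have e5 : (4096 : ZMod (p ^ 2)) ^ h * (-243) ^ h = (-995328) ^ h := by rw [← mul_pow]; norm_num
    rw [← p2, e64, e4096, e243, e5, pow_mul, ← mul_pow, ← mul_pow, ← mul_pow]; norm_num
  have g2 : (27 : ZMod (p ^ 2)) ^ (2 * h) * 9 ^ h = (1 - 2 * a) * ((-27) ^ h * 9 ^ h) := by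
    rw [← p27, pow_mul, ← mul_pow, ← mul_pow, ← mul_pow]; norm_num
  have u3 : IsUnit (((-27 : ZMod (p ^ 2)) ^ h * 9 ^ h) * Fc p (2 * h)) := by
    have v1 : ((-27 : ZMod (p ^ 2)) ^ h * 9 ^ h) = (-1) ^ h * 3 ^ (5 * h) := by
      rw [pow_mul, ← mul_pow, ← mul_pow]; norm_num
    rw [v1]
    exact ((unit_neg_pow p h h6 hpos h).mul (unit_three_pow p h h6 hpos (5 * h))).mul u2
  have main : E * ((1 - 3 * b) * (1 - 3 * b) * (1 + 2 * a + 3 * b)) * ((1 - (a + b)) * (1 + (a + b))) =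
      (1 - 2 * a) * (1 - 2 * a) * Cc p h := by
    apply u3.mul_left_cancel
    push_cast at e2
    linear_combination (Cc p h) * e2 - (E * 16 ^ (2 * h) * (-6) ^ h * 6 ^ h * (1 - (a + b)) * (1 + (a + b))) * K -
      (E * Fc p (2 * h) * (1 + 2 * a + 3 * b) * (1 - (a + b)) * (1 + (a + b))) * g1 +
      (Cc p h * Fc p (2 * h) * (1 - 2 * a)) * g2
  have m0 : (1 - (a + b)) * (1 + (a + b)) = 1 := by
    linear_combination (-1) * haa - 2 * hab - hbb
  have m1 : (1 - 3 * b) * (1 - 3 * b) * (1 + 2 * a + 3 * b) * (1 - 2 * a + 3 * b) = 1 := by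
    linear_combination ((-4) + 24 * b + (-36 * b ^ 2)) * haa + ((-18) + 81 * b ^ 2) * hbb
  have m2 : (1 - 2 * a) * (1 - 2 * a) * (1 - 2 * a + 3 * b) = 1 - 6 * a + 3 * b := by
    linear_combination (12 + 12 * b + (-8 * a)) * haa + (-12) * hab
  rw [m0, mul_one] at main
  linear_combination (1 - 2 * a + 3 * b) * main - E * m1 + (Cc p h) * m2

end

end Pool.Agent.Lib.Pffaf6e
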