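import Mathlib
import Pool.Agent.Lib.Pffaf6e.Hyp

set_option autoImplicit false

namespace Pool.Agent.Lib.Pffaf6e

/-- terms of the Legendre polynomial of degree `N` at `5/4` -/
def aL (N k : ℕ) : ℚ := hg (-(N : ℚ)) (N + 1) 1 (-1 / 8) k
def eL (N k : ℕ) : ℚ := hg (-(N : ℚ)) (N + 1 / 2) 1 (-9 / 16) k
def oL (N k : ℕ) : ℚ := hg (-(N : ℚ)) (N + 3 / 2) 1 (-9 / 16) k

lemma aL_zero (N : ℕ) : aL N 0 = 1 := hg_zero _ _ _ _
lemma eL_zero (N : ℕ) : eL N 0 = 1 := hg_zero _ _ _ _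
lemma oL_zero (N : ℕ) : oL N 0 = 1 := hg_zero _ _ _ _

lemma aL_succ (N k : ℕ) : aL N (k + 1) * (8 * (1 + k) ^ 2) = aL N k * ((N - k) * (N + 1 + k)) := by
  have h3 : (1 + (k : ℚ)) ≠ 0 := by positivity
  have e : aL N (k + 1) = aL N k * ((-1 / 8) * ((-(N : ℚ) + k) * (N + 1 + k)) / ((1 + k) * (1 + k))) := by
    unfold aL; rw [hg_succ]
  rw [e]
  field_simp
  ring

lemma eL_succ (N k : ℕ) : eL N (k + 1) * (32 * (1 + k) ^ 2) = eL N k * (9 * (N - k) * (2 * N + 1 + 2 * k)) := by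
  have h3 : (1 + (k : ℚ)) ≠ 0 := by positivity
  have e : eL N (k + 1) = eL N k * ((-9 / 16) * ((-(N : ℚ) + k) * (N + 1 / 2 + k)) / ((1 + k) * (1 + k))) := by
    unfold eL; rw [hg_succ]
  rw [e]
  field_simp
  ring

lemma oL_succ (N k : ℕ) : oL N (k + 1) * (32 * (1 + k) ^ 2) = oL N k * (9 * (N - k) * (2 * N + 3 + 2 * k)) := by
  have h3 : (1 + (k : ℚ)) ≠ 0 := by positivity
  have e : oL N (k + 1) = oL N k * ((-9 / 16) * ((-(N : ℚ) + k) * (N + 3 / 2 + k)) / ((1 + k) * (1 + k))) := by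
    unfold oL; rw [hg_succ]
  rw [e]
  field_simp
  ring

lemma aL_rel (N k : ℕ) : aL (N + 1) k * (N + 1 - k) = aL N k * (N + 1 + k) := by
  induction k with
  | zero => rw [aL_zero, aL_zero]; push_cast; ring
  | succ k ih =>
    have h3 : (8 * (1 + (k : ℚ)) ^ 2) ≠ 0 := by positivity
    apply mul_right_cancel₀ h3
    have h1 := aL_succ (N + 1) k
    have h2 := aL_succ N k
    push_cast at h1 ⊢
    linear_combination (N + 1 - (k + 1) : ℚ) * h1 - (N + 1 + (k + 1) : ℚ) * h2 + ((N - k : ℚ) * (N + 2 + k)) * ih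

lemma aL_rec (N k : ℕ) : (N + 2) * aL (N + 2) (k + 1) =
    (2 * N + 3) * (aL (N + 1) (k + 1) + 1 / 4 * aL (N + 1) k) - (N + 1) * aL N (k + 1) := by
  have h1 := aL_rel (N + 1) k
  have h2 := aL_rel N k
  have e1 := aL_succ (N + 2) k
  have e2 := aL_succ (N + 1) k
  have e3 := aL_succ N k
  have h3 : (8 * (1 + (k : ℚ)) ^ 2) ≠ 0 := by positivity
  apply mul_right_cancel₀ h3
  rw [show N + 1 + 1 = N + 2 by ring] at h1
  push_cast at h1 h2 e1 e2 e3 ⊢
  linear_combination (N + 2 : ℚ) * e1 - (2 * N + 3 : ℚ) * e2 + (N + 1 : ℚ) * e3 +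
    ((N + 2) * (N + 3 + k) : ℚ) * h1 - ((N + 1) * (N - k) : ℚ) * h2

lemma oe_rel (N k : ℕ) : oL N k * (2 * N + 1) = eL N k * (2 * N + 1 + 2 * k) := by
  induction k with
  | zero => rw [oL_zero, eL_zero]; push_cast; ring
  | succ k ih =>
    have h3 : (32 * (1 + (k : ℚ)) ^ 2) ≠ 0 := by positivity
    apply mul_right_cancel₀ h3
    have h1 := oL_succ N k
    have h2 := eL_succ N k
    push_cast
    linear_combination (2 * N + 1 : ℚ) * h1 - (2 * N + 1 + 2 * (k + 1) : ℚ) * h2 +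
      (9 * (N - k : ℚ) * (2 * N + 3 + 2 * k)) * ih

lemma eo_rel (N k : ℕ) : eL (N + 1) k * (N + 1 - k) = oL N k * (N + 1) := by
  induction k with
  | zero => rw [oL_zero, eL_zero]; push_cast; ring
  | succ k ih =>
    have h3 : (32 * (1 + (k : ℚ)) ^ 2) ≠ 0 := by positivity
    apply mul_right_cancel₀ h3
    have h1 := eL_succ (N + 1) k
    have h2 := oL_succ N k
    push_cast at h1 ⊢
    linear_combination (N + 1 - (k + 1) : ℚ) * h1 - (N + 1 : ℚ) * h2 +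
      (9 * (N - k : ℚ) * (2 * N + 3 + 2 * k)) * ih

lemma rec_odd (N k : ℕ) : (2 * N + 3) * oL (N + 1) k = (4 * N + 5) * eL (N + 1) k - (2 * N + 2) * oL N k := by
  have h1 := oe_rel (N + 1) k
  have h2 := eo_rel N k
  push_cast at h1
  linear_combination h1 - 2 * h2

lemma rec_even (N k : ℕ) : (2 * N + 2) * eL (N + 1) (k + 1) =
    (4 * N + 3) * (oL N (k + 1) + 9 / 16 * oL N k) - (2 * N + 1) * eL N (k + 1) := by
  have h1 := oe_rel N k
  have h2 := eo_rel N k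
  have e1 := eL_succ (N + 1) k
  have e2 := oL_succ N k
  have e3 := eL_succ N k
  have h3 : (32 * (1 + (k : ℚ)) ^ 2) ≠ 0 := by positivity
  apply mul_right_cancel₀ h3
  push_cast at e1 ⊢
  linear_combination (2 * N + 2 : ℚ) * e1 - (4 * N + 3 : ℚ) * e2 + (2 * N + 1 : ℚ) * e3 +
    (9 * (2 * N + 2) * (2 * N + 3 + 2 * k) : ℚ) * h2 - (9 * (2 * N + 1) * (N - k) : ℚ) * h1

def SA (N : ℕ) : ℚ := ∑ k ∈ Finset.range (N + 1), aL N k
def SE (N : ℕ) : ℚ := ∑ k ∈ Finset.range (N + 1), eL N k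
def SO (N : ℕ) : ℚ := ∑ k ∈ Finset.range (N + 1), oL N k

lemma SA_eq (N K : ℕ) (h : N < K) : ∑ k ∈ Finset.range K, aL N k = SA N :=
  hs_stable N _ _ _ K h
lemma SE_eq (N K : ℕ) (h : N < K) : ∑ k ∈ Finset.range K, eL N k = SE N :=
  hs_stable N _ _ _ K h
lemma SO_eq (N K : ℕ) (h : N < K) : ∑ k ∈ Finset.range K, oL N k = SO N :=
  hs_stable N _ _ _ K h

lemma SA_rec (N : ℕ) : (N + 2) * SA (N + 2) = (2 * N + 3) * (5 / 4 * SA (N + 1)) - (N + 1) * SA N := by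
  have h1 := SA_eq (N + 2) (N + 3 + 1) (by omega)
  have h2 := SA_eq (N + 1) (N + 3 + 1) (by omega)
  have h2' := SA_eq (N + 1) (N + 3) (by omega)
  have h3 := SA_eq N (N + 3 + 1) (by omega)
  rw [Finset.sum_range_succ', aL_zero] at h1 h2 h3
  have h4 : ∑ k ∈ Finset.range (N + 3), ((N + 2) * aL (N + 2) (k + 1) : ℚ) =
      ∑ k ∈ Finset.range (N + 3), ((2 * N + 3) * (aL (N + 1) (k + 1) + 1 / 4 * aL (N + 1) k) -
        (N + 1) * aL N (k + 1) : ℚ) :=
    Finset.sum_congr rfl (fun k _ => aL_rec N k)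
  rw [Finset.sum_sub_distrib, ← Finset.mul_sum, ← Finset.mul_sum, ← Finset.mul_sum,
    Finset.sum_add_distrib, ← Finset.mul_sum] at h4
  linear_combination h4 - (N + 2 : ℚ) * h1 + (2 * N + 3 : ℚ) * (h2 + 1 / 4 * h2') - (N + 1 : ℚ) * h3

lemma SO_rec (N : ℕ) : (2 * N + 3) * SO (N + 1) = (4 * N + 5) * SE (N + 1) - (2 * N + 2) * SO N := by
  have h1 := SO_eq (N + 1) (N + 2) (by omega)
  have h2 := SE_eq (N + 1) (N + 2) (by omega)
  have h3 := SO_eq N (N + 2) (by omega)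
  rw [← h1, ← h2, ← h3, Finset.mul_sum, Finset.mul_sum, Finset.mul_sum, ← Finset.sum_sub_distrib]
  exact Finset.sum_congr rfl (fun k _ => rec_odd N k)

lemma SE_rec (N : ℕ) : (2 * N + 2) * SE (N + 1) = (4 * N + 3) * (25 / 16 * SO N) - (2 * N + 1) * SE N := by
  have h1 := SE_eq (N + 1) (N + 2 + 1) (by omega)
  have h2 := SO_eq N (N + 2 + 1) (by omega)
  have h2' := SO_eq N (N + 2) (by omega)
  have h3 := SE_eq N (N + 2 + 1) (by omega)
  rw [Finset.sum_range_succ'] at h1 h2 h3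
  rw [eL_zero] at h1 h3
  rw [oL_zero] at h2
  have h4 : ∑ k ∈ Finset.range (N + 2), ((2 * N + 2) * eL (N + 1) (k + 1) : ℚ) =
      ∑ k ∈ Finset.range (N + 2), ((4 * N + 3) * (oL N (k + 1) + 9 / 16 * oL N k) -
        (2 * N + 1) * eL N (k + 1) : ℚ) :=
    Finset.sum_congr rfl (fun k _ => rec_even N k)
  rw [Finset.sum_sub_distrib, ← Finset.mul_sum, ← Finset.mul_sum, ← Finset.mul_sum,
    Finset.sum_add_distrib, ← Finset.mul_sum] at h4
  linear_combination h4 - (2 * N + 2 : ℚ) * h1 + (4 * N + 3 : ℚ) * (h2 + 9 / 16 * h2') - (2 * N + 1 : ℚ) * h3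

theorem legendre_quad (N : ℕ) : SA (2 * N) = SE N ∧ SA (2 * N + 1) = 5 / 4 * SO N := by
  induction N with
  | zero =>
    constructor
    · unfold SA SE; simp [aL_zero, eL_zero]
    · have h := aL_succ 0 0
      have h' := aL_succ 1 0
      rw [aL_zero] at h h'
      unfold SA SO
      simp only [Finset.sum_range_succ, Finset.sum_range_zero, aL_zero, oL_zero]
      push_cast at h'
      norm_num at h' ⊢
      linarith
  | succ N ih =>
    obtain ⟨ih1, ih2⟩ := ih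
    have r1 := SA_rec (2 * N)
    have r2 := SA_rec (2 * N + 1)
    have r3 := SE_rec N
    have r4 := SO_rec N
    have e1 : SA (2 * (N + 1)) = SE (N + 1) := by
      have h3 : (2 * (N : ℚ) + 2) ≠ 0 := by positivity
      apply mul_left_cancel₀ h3
      rw [show 2 * (N + 1) = 2 * N + 2 by ring, r3]
      push_cast at r1
      rw [r1, ih1, ih2]
      ring
    refine ⟨e1, ?_⟩
    have h3 : (2 * (N : ℚ) + 3) ≠ 0 := by positivity
    apply mul_left_cancel₀ h3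
    rw [show 2 * (N + 1) + 1 = 2 * N + 1 + 2 by ring]
    rw [show 2 * (N + 1) = 2 * N + 1 + 1 by ring] at e1
    push_cast at r2
    rw [ih2, e1] at r2
    linear_combination r2 - 5 / 4 * r4

end Pool.Agent.Lib.Pffaf6e
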