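import Mathlib
import Pool.Agent.Lib.Pffaf6e.EVal2
import Pool.Agent.Lib.Pffaf6e.Leg

set_option autoImplicit false
set_option linter.unusedSectionVars false

namespace Pool.Agent.Lib.Pffaf6e

lemma aL_choose (N k : ℕ) : aL N k * 8 ^ k = ((N.choose k : ℕ) : ℚ) * (((N + k).choose k : ℕ) : ℚ) := by
  induction k with
  | zero => simp [aL_zero]
  | succ k ih =>
    have h1 := aL_succ N k
    have h2 : ((N.choose (k + 1) : ℕ) : ℚ) * (k + 1) = ((N.choose k : ℕ) : ℚ) * (N - k) := by
      rcases Nat.lt_or_ge N k with hlt | hge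
      · rw [Nat.choose_eq_zero_of_lt hlt, Nat.choose_eq_zero_of_lt (by omega)]
        push_cast; ring
      · have := Nat.choose_succ_right_eq N k
        have h3 := congrArg (fun z : ℕ => (z : ℚ)) this
        push_cast [Nat.cast_sub hge] at h3
        exact h3
    have h3 : (((N + (k + 1)).choose (k + 1) : ℕ) : ℚ) * (k + 1) = (((N + k).choose k : ℕ) : ℚ) * (N + k + 1) := by
      have := Nat.add_one_mul_choose_eq (N + k) k
      have h4 := congrArg (fun z : ℕ => (z : ℚ)) this
      push_cast at h4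
      rw [← add_assoc]
      linear_combination -h4
    have h4 : ((k : ℚ) + 1) ^ 2 ≠ 0 := by positivity
    apply mul_right_cancel₀ h4
    rw [pow_succ]
    have h5 : ((N.choose (k + 1) : ℕ) : ℚ) * (((N + (k + 1)).choose (k + 1) : ℕ) : ℚ) * (k + 1) ^ 2 =
        (((N.choose k : ℕ) : ℚ) * (N - k)) * ((((N + k).choose k : ℕ) : ℚ) * (N + k + 1)) := by
      rw [← h2, ← h3]; ring
    rw [h5]
    linear_combination (8 ^ k) * h1 + ((N - k) * (N + k + 1) : ℚ) * ih

lemma hgd_succ (a b c d w : ℚ) (k : ℕ) :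
    hgd a b c d w (k + 1) = hgd a b c d w k * (w * ((a + k) * (b + k)) / ((c + k) * (d + k))) := by
  unfold hgd
  rw [Finset.prod_range_succ]

lemma hgd_eq_zero (N : ℕ) (b c d w : ℚ) (k : ℕ) (hk : N < k) : hgd (-(N : ℚ)) b c d w k = 0 := by
  unfold hgd
  apply Finset.prod_eq_zero (Finset.mem_range.mpr hk)
  rw [neg_add_cancel]
  ring

lemma aL_split (q r j : ℕ) : aL (q + r) (q + j) =
    aL (q + r) q * hgd (-(r : ℚ)) (2 * q + r + 1) (1 + q) (1 + q) (-1 / 8) j := by
  unfold aL hg hgd
  rw [Finset.prod_range_add]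
  congr 1
  refine Finset.prod_congr rfl ?_
  intro i _
  congr 1
  · push_cast; ring
  · push_cast; ring

lemma SA_split (q r : ℕ) (hr : r < q) : SA (q + r) =
    hs (-((q + r : ℕ) : ℚ)) (((q + r : ℕ) : ℚ) + 1) 1 (-1 / 8) q +
      aL (q + r) q * ∑ j ∈ Finset.range q, hgd (-(r : ℚ)) (2 * q + r + 1) (1 + q) (1 + q) (-1 / 8) j := by
  have h1 := SA_eq (q + r) (q + q) (by omega)
  rw [← h1, Finset.sum_range_add]
  unfold hs
  congr 1
  rw [Finset.mul_sum]
  exact Finset.sum_congr rfl (fun j _ => aL_split q r j)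

lemma choose_prod (q r : ℕ) : (q + r).choose q * (q + r + q).choose q =
    (2 * q).choose q * (2 * q + r).choose r := by
  have h1 := Nat.choose_mul_factorial_mul_factorial (show q ≤ q + r by omega)
  have h2 := Nat.choose_mul_factorial_mul_factorial (show q ≤ q + r + q by omega)
  have h3 := Nat.choose_mul_factorial_mul_factorial (show q ≤ 2 * q by omega)
  have h4 := Nat.choose_mul_factorial_mul_factorial (show r ≤ 2 * q + r by omega)
  rw [show q + r - q = r by omega] at h1
  rw [show q + r + q - q = q + r by omega] at h2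
  rw [show 2 * q - q = q by omega] at h3
  rw [show 2 * q + r - r = 2 * q by omega] at h4
  have hpos : 0 < (q.factorial * q.factorial * r.factorial) * ((q + r).factorial * (2 * q).factorial) := by
    have := Nat.factorial_pos q
    have := Nat.factorial_pos r
    have := Nat.factorial_pos (q + r)
    have := Nat.factorial_pos (2 * q)
    positivity
  apply Nat.eq_of_mul_eq_mul_right hpos
  have e : q + r + q = 2 * q + r := by ring
  calc (q + r).choose q * (q + r + q).choose q * ((q.factorial * q.factorial * r.factorial) * ((q + r).factorial * (2 * q).factorial))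
      = ((q + r).choose q * q.factorial * r.factorial) * ((q + r + q).choose q * q.factorial * (q + r).factorial) * (2 * q).factorial := by ring
    _ = (q + r).factorial * (2 * q + r).factorial * (2 * q).factorial := by rw [h1, h2, e]
    _ = (q + r).factorial * ((2 * q + r).choose r * r.factorial * (2 * q).factorial) * ((2 * q).choose q * q.factorial * q.factorial) := by
        rw [h4, h3]
    _ = _ := by ring

variable (p : ℕ) [hp : Fact p.Prime]

lemma choose_two_p : (((2 * p).choose p : ℕ) : ZMod (p ^ 2)) = 2 := by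
  rw [← Nat.sum_range_choose_sq, Finset.sum_range_succ, Finset.range_eq_Ico,
    Finset.sum_eq_sum_Ico_succ_bot hp.out.pos]
  push_cast
  have h1 : ∑ k ∈ Finset.Ico (0 + 1) p, ((p.choose k : ℕ) : ZMod (p ^ 2)) ^ 2 = 0 := by
    refine Finset.sum_eq_zero ?_
    intro i hi
    rw [Finset.mem_Ico] at hi
    rw [choose_p p i (by omega) hi.2]
    linear_combination ((i : ZMod (p ^ 2))⁻¹ * (-1) ^ (i - 1)) ^ 2 * psq p
  rw [h1, Nat.choose_self, Nat.choose_zero_right]
  push_cast
  norm_num

lemma choose_two_p_add (r : ℕ) (hr : r < p) :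
    (((2 * p + r).choose r : ℕ) : ZMod (p ^ 2)) = 1 + 2 * pH p r := by
  have h1 : (((2 * p + r).choose r : ℕ) : ZMod (p ^ 2)) * Fc p r =
      ∏ j ∈ Finset.range r, (((j + 1 : ℕ) : ZMod (p ^ 2)) + (p : ZMod (p ^ 2)) * 2) := by
    have h2 : (2 * p + r).choose r * r.factorial = ∏ j ∈ Finset.range r, (2 * p + (j + 1)) := by
      rw [mul_comm, ← Nat.descFactorial_eq_factorial_mul_choose, Nat.descFactorial_eq_prod_range,
        ← Finset.prod_range_reflect]
      refine Finset.prod_congr rfl ?_
      intro j hj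
      rw [Finset.mem_range] at hj
      omega
    rw [Fc_eq]
    have h3 := congrArg (fun z : ℕ => (z : ZMod (p ^ 2))) h2
    push_cast at h3 ⊢
    rw [h3]
    refine Finset.prod_congr rfl ?_
    intro j _
    ring
  rw [prod_p p (Finset.range r) _ (fun j => ((j + 1 : ℕ) : ZMod (p ^ 2))⁻¹)] at h1
  · have h4 : (p : ZMod (p ^ 2)) * ∑ j ∈ Finset.range r, 2 * ((j + 1 : ℕ) : ZMod (p ^ 2))⁻¹ = 2 * pH p r := by
      unfold pH
      rw [Finset.mul_sum, Finset.mul_sum]
      refine Finset.sum_congr rfl ?_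
      intro j _
      unfold fp
      ring
    rw [h4] at h1
    have hu := Fc_unit p r hr
    apply hu.mul_right_cancel
    rw [h1]
    unfold Fc
    ring
  · intro j hj
    rw [Finset.mem_range] at hj
    exact mul_inv_nat p (not_dvd_of_lt p (by omega) (by omega))

section
variable (h : ℕ) (h6 : p = 6 * h + 1) (hpos : 0 < h)
include h6 hpos

lemma j2_unit : IsUnit (j2 p) := IsUnit.of_mul_eq_one 2 (by
  have := j2_spec p h h6 hpos
  linear_combination this)

lemma red_aL (r : ℕ) (hr : r < p) : Red p (aL (p + r) p) (2 * (1 + 2 * pH p r) * (j2 p ^ 3) ^ p) := by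
  have h1 := aL_choose (p + r) p
  have h2 : aL (p + r) p = (((2 * p).choose p : ℕ) : ℚ) * (((2 * p + r).choose r : ℕ) : ℚ) * ((1 / 2) ^ 3) ^ p := by
    have h3 : (((p + r).choose p : ℕ) : ℚ) * (((p + r + p).choose p : ℕ) : ℚ) =
        (((2 * p).choose p : ℕ) : ℚ) * (((2 * p + r).choose r : ℕ) : ℚ) := by
      exact_mod_cast choose_prod p r
    rw [← h3, ← h1]
    have h4 : (8 : ℚ) ^ p * ((1 / 2) ^ 3) ^ p = 1 := by
      rw [← mul_pow]; norm_num
    linear_combination (-(aL (p + r) p)) * h4
  rw [h2]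
  refine (((Red.nat p _).mul (Red.nat p _)).mul (((red_half p h h6 hpos).pow 3).pow p)).congr rfl ?_
  rw [choose_two_p, choose_two_p_add p r hr]

end

end Pool.Agent.Lib.Pffaf6e
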