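import Mathlib
import Pool.Agent.Lib.Pffaf6e.Split
import Pool.Agent.Lib.Pffaf6e.Count

set_option autoImplicit false
set_option linter.unusedSectionVars false

namespace Pool.Agent.Lib.Pffaf6e

variable (p : ℕ) [hp : Fact p.Prime]

def z9 : ZMod (p ^ 2) := -(9 * (j2 p * j2 p * (j2 p * j2 p)))

def sg (x y : ZMod (p ^ 2)) : ZMod (p ^ 2) := HgR p (j3 p) (j2 p * j3 p) (z9 p) x y 0
def rh (x y : ZMod (p ^ 2)) : ZMod (p ^ 2) := HgR p (2 * j3 p) (5 * (j2 p * j3 p)) (z9 p) x y 0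

section
variable (h : ℕ) (h6 : p = 6 * h + 1) (hpos : 0 < h)
include h6 hpos

lemma j6_exists : ∃ j6 : ZMod (p ^ 2), j2 p * j3 p = j6 ∧ j2 p = 3 * j6 ∧ j3 p = 2 * j6 ∧ 6 * j6 = 1 := by
  have h2 := j2_spec p h h6 hpos
  have h3 := j3_spec p h h6 hpos
  refine ⟨j2 p * j3 p, rfl, ?_, ?_, ?_⟩
  · linear_combination (-(j2 p)) * h3
  · linear_combination (-(j3 p)) * h2
  · linear_combination (3 * j3 p) * h2 + h3

lemma red_z9 : Red p (-9 / 16) (z9 p) := by
  have h1 := red_half p h h6 hpos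
  exact (((Red.nat p 9).mul ((h1.mul h1).mul (h1.mul h1))).neg).congr (by push_cast; norm_num)
    (by unfold z9; push_cast; ring)

lemma red_one_c : Red p 1 (1 + (p : ZMod (p ^ 2)) * 0) := by
  rw [mul_zero, add_zero]; exact Red.one p

lemma rS1 : Red p (hs (1 / 3) (1 / 6) 1 (-9 / 16) p) (sg p 0 0) := by
  unfold sg
  refine red_hs ?_ ?_ (red_one_c p h h6 hpos) (red_z9 p h h6 hpos)
  · exact (red_third p h h6 hpos).congr rfl (by ring)
  · exact ((red_half p h h6 hpos).mul (red_third p h h6 hpos)).congr (by norm_num) (by ring)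

lemma rS2 : Red p (hs (2 / 3) (5 / 6) 1 (-9 / 16) p) (rh p 0 0) := by
  unfold rh
  refine red_hs ?_ ?_ (red_one_c p h h6 hpos) (red_z9 p h h6 hpos)
  · exact ((Red.nat p 2).mul (red_third p h h6 hpos)).congr (by push_cast; norm_num) (by push_cast; ring)
  · exact ((Red.nat p 5).mul ((red_half p h h6 hpos).mul (red_third p h h6 hpos))).congr
      (by push_cast; norm_num) (by push_cast; ring)

lemma rSE1 : Red p (SE h) (sg p (j2 p * j3 p) (-(j2 p * j3 p))) := by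
  obtain ⟨j6, e1, e2, e3, e4⟩ := j6_exists p h h6 hpos
  have hpc := p_cast p h h6 hpos
  have e : SE h = hs (-(h : ℚ)) (h + 1 / 2) 1 (-9 / 16) p := (SE_eq h p (by omega)).symm
  rw [e, hs_swap]
  unfold sg
  refine red_hs ?_ ?_ (red_one_c p h h6 hpos) (red_z9 p h h6 hpos)
  · refine ((Red.nat p h).add (red_half p h h6 hpos)).congr rfl ?_
    rw [hpc, e1, e2, e3]
    linear_combination (-(h : ZMod (p ^ 2))) * e4
  · refine (Red.nat p h).neg.congr rfl ?_
    rw [hpc, e1]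
    linear_combination ((h : ZMod (p ^ 2))) * e4

lemma rSE2 : Red p (SE (2 * h)) (sg p (-(j3 p)) (j3 p)) := by
  obtain ⟨j6, e1, e2, e3, e4⟩ := j6_exists p h h6 hpos
  have hpc := p_cast p h h6 hpos
  have e : SE (2 * h) = hs (-((2 * h : ℕ) : ℚ)) (((2 * h : ℕ) : ℚ) + 1 / 2) 1 (-9 / 16) p :=
    (SE_eq (2 * h) p (by omega)).symm
  rw [e]
  unfold sg
  refine red_hs ?_ ?_ (red_one_c p h h6 hpos) (red_z9 p h h6 hpos)
  · refine (Red.nat p (2 * h)).neg.congr rfl ?_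
    rw [hpc, e3]; push_cast
    linear_combination (2 * (h : ZMod (p ^ 2))) * e4
  · refine ((Red.nat p (2 * h)).add (red_half p h h6 hpos)).congr rfl ?_
    rw [hpc, e1, e2, e3]; push_cast
    linear_combination (-(2 * (h : ZMod (p ^ 2)))) * e4

lemma rSA1 : Red p (SA (2 * h)) (Gt p (-(j3 p)) (j3 p) 0) := by
  obtain ⟨j6, e1, e2, e3, e4⟩ := j6_exists p h h6 hpos
  have hpc := p_cast p h h6 hpos
  have e : SA (2 * h) = hs (-((2 * h : ℕ) : ℚ)) (((2 * h : ℕ) : ℚ) + 1) 1 (-1 / 8) p :=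
    (SA_eq (2 * h) p (by omega)).symm
  rw [e]
  unfold Gt
  refine red_hs ?_ ?_ (red_one_c p h h6 hpos) (red_w8 p h h6 hpos)
  · refine (Red.nat p (2 * h)).neg.congr rfl ?_
    rw [hpc, e3]; push_cast
    linear_combination (2 * (h : ZMod (p ^ 2))) * e4
  · refine ((Red.nat p (2 * h)).add (Red.one p)).congr rfl ?_
    rw [hpc, e3]; push_cast
    linear_combination (-(2 * (h : ZMod (p ^ 2)) + 1)) * e4

lemma rSA2 : Red p (SA (2 * (2 * h))) (Gt p (2 * j3 p) (-(2 * j3 p)) 0) := by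
  obtain ⟨j6, e1, e2, e3, e4⟩ := j6_exists p h h6 hpos
  have hpc := p_cast p h h6 hpos
  have e : SA (2 * (2 * h)) = hs (-((2 * (2 * h) : ℕ) : ℚ)) (((2 * (2 * h) : ℕ) : ℚ) + 1) 1 (-1 / 8) p :=
    (SA_eq (2 * (2 * h)) p (by omega)).symm
  rw [e, hs_swap]
  unfold Gt
  refine red_hs ?_ ?_ (red_one_c p h h6 hpos) (red_w8 p h h6 hpos)
  · refine ((Red.nat p (2 * (2 * h))).add (Red.one p)).congr rfl ?_
    rw [hpc, e3]; push_cast
    linear_combination (-(4 * (h : ZMod (p ^ 2)) + 1)) * e4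
  · refine (Red.nat p (2 * (2 * h))).neg.congr rfl ?_
    rw [hpc, e3]; push_cast
    linear_combination (4 * (h : ZMod (p ^ 2))) * e4

lemma rSO1 : Red p (SO (4 * h)) (rh p (-(2 * j3 p)) (2 * j3 p)) := by
  obtain ⟨j6, e1, e2, e3, e4⟩ := j6_exists p h h6 hpos
  have hpc := p_cast p h h6 hpos
  have e : SO (4 * h) = hs (-((4 * h : ℕ) : ℚ)) (((4 * h : ℕ) : ℚ) + 3 / 2) 1 (-9 / 16) p :=
    (SO_eq (4 * h) p (by omega)).symm
  rw [e]
  unfold rh
  refine red_hs ?_ ?_ (red_one_c p h h6 hpos) (red_z9 p h h6 hpos)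
  · refine (Red.nat p (4 * h)).neg.congr rfl ?_
    rw [hpc, e3]; push_cast
    linear_combination (4 * (h : ZMod (p ^ 2))) * e4
  · refine ((Red.nat p (4 * h)).add ((Red.nat p 3).mul (red_half p h h6 hpos))).congr
      (by push_cast; ring) ?_
    rw [hpc, e1, e2, e3]; push_cast
    linear_combination (-(4 * (h : ZMod (p ^ 2)))) * e4

lemma rSO2 : Red p (SO (5 * h)) (rh p (5 * (j2 p * j3 p)) (-(5 * (j2 p * j3 p)))) := by
  obtain ⟨j6, e1, e2, e3, e4⟩ := j6_exists p h h6 hpos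
  have hpc := p_cast p h h6 hpos
  have e : SO (5 * h) = hs (-((5 * h : ℕ) : ℚ)) (((5 * h : ℕ) : ℚ) + 3 / 2) 1 (-9 / 16) p :=
    (SO_eq (5 * h) p (by omega)).symm
  rw [e, hs_swap]
  unfold rh
  refine red_hs ?_ ?_ (red_one_c p h h6 hpos) (red_z9 p h h6 hpos)
  · refine ((Red.nat p (5 * h)).add ((Red.nat p 3).mul (red_half p h h6 hpos))).congr
      (by push_cast; ring) ?_
    rw [hpc, e1, e2, e3]; push_cast
    linear_combination (-(5 * (h : ZMod (p ^ 2)))) * e4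
  · refine (Red.nat p (5 * h)).neg.congr rfl ?_
    rw [hpc, e1]; push_cast
    linear_combination (5 * (h : ZMod (p ^ 2))) * e4

lemma red_one_add_p : Red p (1 + (p : ℚ)) (1 + (p : ZMod (p ^ 2)) * 1) := by
  rw [mul_one]; exact (Red.one p).add (Red.nat p p)

lemma rSA3 : Red p (SA (p + 2 * h)) (Gt p (-(4 * j3 p)) (4 * j3 p) 0 +
    2 * (1 + 2 * pH p (2 * h)) * (j2 p ^ 3) ^ p * Gt p (-(j3 p)) (7 * j3 p) (1 + 1)) := by
  obtain ⟨j6, e1, e2, e3, e4⟩ := j6_exists p h h6 hpos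
  have hpc := p_cast p h h6 hpos
  rw [SA_split p (2 * h) (by omega)]
  refine Red.add ?_ (Red.mul (red_aL p h h6 hpos (2 * h) (by omega)) ?_)
  · unfold Gt
    refine red_hs ?_ ?_ (red_one_c p h h6 hpos) (red_w8 p h h6 hpos)
    · refine (Red.nat p (p + 2 * h)).neg.congr rfl ?_
      push_cast
      rw [hpc, e3]
      linear_combination (8 * (h : ZMod (p ^ 2)) + 1) * e4
    · refine ((Red.nat p (p + 2 * h)).add (Red.one p)).congr rfl ?_
      push_cast
      rw [hpc, e3]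
      linear_combination (-(8 * (h : ZMod (p ^ 2)) + 2)) * e4
  · unfold Gt
    refine red_hgd_sum ?_ ?_ (red_one_add_p p h h6 hpos) (red_one_add_p p h h6 hpos) (red_w8 p h h6 hpos)
    · refine (Red.nat p (2 * h)).neg.congr rfl ?_
      rw [hpc, e3]; push_cast
      linear_combination (2 * (h : ZMod (p ^ 2))) * e4
    · refine ((((Red.nat p 2).mul (Red.nat p p)).add (Red.nat p (2 * h))).add (Red.one p)).congr
        (by push_cast; ring) ?_
      rw [hpc, e3]; push_cast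
      linear_combination (-(14 * (h : ZMod (p ^ 2)) + 3)) * e4

lemma rSA4 : Red p (SA (p + 4 * h)) (Gt p (5 * j3 p) (-(5 * j3 p)) 0 +
    2 * (1 + 2 * pH p (4 * h)) * (j2 p ^ 3) ^ p * Gt p (8 * j3 p) (-(2 * j3 p)) (1 + 1)) := by
  obtain ⟨j6, e1, e2, e3, e4⟩ := j6_exists p h h6 hpos
  have hpc := p_cast p h h6 hpos
  rw [SA_split p (4 * h) (by omega), hs_swap]
  refine Red.add ?_ (Red.mul (red_aL p h h6 hpos (4 * h) (by omega)) ?_)
  · unfold Gt
    refine red_hs ?_ ?_ (red_one_c p h h6 hpos) (red_w8 p h h6 hpos)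
    · refine ((Red.nat p (p + 4 * h)).add (Red.one p)).congr rfl ?_
      push_cast
      rw [hpc, e3]
      linear_combination (-(10 * (h : ZMod (p ^ 2)) + 2)) * e4
    · refine (Red.nat p (p + 4 * h)).neg.congr rfl ?_
      push_cast
      rw [hpc, e3]
      linear_combination (10 * (h : ZMod (p ^ 2)) + 1) * e4
  · have hsw : ∑ j ∈ Finset.range p, hgd (-((4 * h : ℕ) : ℚ)) (2 * p + ((4 * h : ℕ) : ℚ) + 1) (1 + p) (1 + p) (-1 / 8) j =
        ∑ j ∈ Finset.range p, hgd (2 * p + ((4 * h : ℕ) : ℚ) + 1) (-((4 * h : ℕ) : ℚ)) (1 + p) (1 + p) (-1 / 8) j :=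
      Finset.sum_congr rfl (fun j _ => hgd_swap _ _ _ _ _ j)
    rw [hsw]
    unfold Gt
    refine red_hgd_sum ?_ ?_ (red_one_add_p p h h6 hpos) (red_one_add_p p h h6 hpos) (red_w8 p h h6 hpos)
    · refine ((((Red.nat p 2).mul (Red.nat p p)).add (Red.nat p (4 * h))).add (Red.one p)).congr
        (by push_cast; ring) ?_
      rw [hpc, e3]; push_cast
      linear_combination (-(16 * (h : ZMod (p ^ 2)) + 3)) * e4
    · refine (Red.nat p (4 * h)).neg.congr rfl ?_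
      rw [hpc, e3]; push_cast
      linear_combination (4 * (h : ZMod (p ^ 2))) * e4

/-- the value of `Gt 0 0 0` -/
lemma Gt_zero : Gt p 0 0 0 = Cc p h := by
  obtain ⟨a, b, ha, hb, haa, hab, hbb⟩ := nil_exists p h h6 hpos
  obtain ⟨j6, e1, e2, e3, e4⟩ := j6_exists p h h6 hpos
  have v3 := E3_val p h h6 hpos a b ha hb haa hab hbb
  have v4 := E4_val p h h6 hpos a b ha hb haa hab hbb
  obtain ⟨c0, ca, cb, cg, hc⟩ := HgR_affine p (j3 p) (2 * j3 p) (w8 p)
  unfold Gt at v3 v4 ⊢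
  rw [hc] at v3 v4 ⊢
  rw [e1, e3] at v3
  rw [e3] at v4
  linear_combination 2 * v3 - v4

lemma S1_val : sg p 0 0 = Cc p h := by
  have q1 := (legendre_quad h).1
  have q2 := (legendre_quad (2 * h)).1
  have r1 := (rSE1 p h h6 hpos)
  have r2 := (rSE2 p h h6 hpos)
  rw [← q1] at r1
  rw [← q2] at r2
  have s1 := r1.unique (rSA1 p h h6 hpos)
  have s2 := r2.unique (rSA2 p h h6 hpos)
  obtain ⟨j6, e1, e2, e3, e4⟩ := j6_exists p h h6 hpos
  have g0 := Gt_zero p h h6 hpos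
  obtain ⟨c0, ca, cb, cg, hc⟩ := HgR_affine p (j3 p) (2 * j3 p) (w8 p)
  obtain ⟨d0, da, db, dg, hd⟩ := HgR_affine p (j3 p) (j2 p * j3 p) (z9 p)
  unfold sg at s1 s2 ⊢
  unfold Gt at s1 s2 g0
  rw [hc, hd] at s1 s2
  rw [hc] at g0
  rw [hd]
  rw [e1, e3] at s1
  rw [e3] at s2
  apply (three_unit p h h6 hpos).mul_left_cancel
  linear_combination 2 * s1 + s2 + 3 * g0

lemma S2_val : rh p 0 0 = Cc p h := by
  have q1 := (legendre_quad (4 * h)).2
  have q2 := (legendre_quad (5 * h)).2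
  have r1 := (rSA3 p h h6 hpos)
  have r2 := (rSA4 p h h6 hpos)
  have t1 : p + 2 * h = 2 * (4 * h) + 1 := by omega
  have t2 : p + 4 * h = 2 * (5 * h) + 1 := by omega
  have w1 := ((Red.nat p 4).mul r1).congr (q' := 5 * SO (4 * h)) (by rw [t1, q1]; push_cast; ring) rfl
  have w2 := ((Red.nat p 4).mul r2).congr (q' := 5 * SO (5 * h)) (by rw [t2, q2]; push_cast; ring) rfl
  have s1 := w1.unique (((Red.nat p 5).mul (rSO1 p h h6 hpos)).congr (by push_cast; rfl) rfl)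
  have s2 := w2.unique (((Red.nat p 5).mul (rSO2 p h h6 hpos)).congr (by push_cast; rfl) rfl)
  obtain ⟨a, b, ha, hb, haa, hab, hbb⟩ := nil_exists p h h6 hpos
  obtain ⟨j6, e1, e2, e3, e4⟩ := j6_exists p h h6 hpos
  have v1 := E1_val p h h6 hpos a b ha hb haa hab hbb
  have v3 := E3_val p h h6 hpos a b ha hb haa hab hbb
  have v4 := E4_val p h h6 hpos a b ha hb haa hab hbb
  have g0 := Gt_zero p h h6 hpos
  rw [pH_four p h h6 hpos] at s2
  rw [ha] at s1 s2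
  -- the constant K
  have hK : 4 * (2 * (1 + 2 * (6 * a)) * (j2 p ^ 3) ^ p) * (1 - 12 * a - 9 * b) = 1 := by
    have p2 := pow2 p h h6 hpos b hb
    have h2 := j2_spec p h h6 hpos
    have f1 : (j2 p) ^ (6 * h) = 1 + 3 * b := by
      have f2 : (j2 p) ^ (6 * h) * 2 ^ (6 * h) = 1 := by
        rw [← mul_pow, mul_comm (j2 p) 2, h2, one_pow]
      rw [p2] at f2
      linear_combination (1 + 3 * b) * f2 + (9 * (j2 p) ^ (6 * h)) * hbb
    have f3 : (j2 p ^ 3) ^ p = j2 p ^ 3 * ((1 + 3 * b) * (1 + 3 * b) * (1 + 3 * b)) := by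
      rw [← f1]
      have hpe : (j2 p ^ 3) ^ p = (j2 p ^ 3) ^ (6 * h + 1) := congrArg (fun n : ℕ => (j2 p ^ 3) ^ n) h6
      rw [hpe]
      ring
    have f4 : 8 * j2 p ^ 3 = 1 := by
      have : 8 * j2 p ^ 3 = (2 * j2 p) ^ 3 := by ring
      rw [this, h2, one_pow]
    rw [f3]
    have f5 : (1 + 12 * a) * (1 + 3 * b) * (1 + 3 * b) * (1 + 3 * b) * (1 - 12 * a - 9 * b) = 1 := by
      linear_combination ((-144) + (-1296 * b) + (-3888 * b ^ 2) + (-3888 * b ^ 3)) * haa +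
        ((-108) + (-972 * b) + (-2916 * b ^ 2) + (-2916 * b ^ 3)) * hab +
        ((-54) + (-216 * b) + (-243 * b ^ 2)) * hbb
    linear_combination ((1 + 12 * a) * (1 + 3 * b) * (1 + 3 * b) * (1 + 3 * b) * (1 - 12 * a - 9 * b)) * f4 + f5
  set K := 2 * (1 + 2 * (6 * a)) * (j2 p ^ 3) ^ p with hKd
  clear_value K
  obtain ⟨c0, ca, cb, cg, hc⟩ := HgR_affine p (j3 p) (2 * j3 p) (w8 p)
  obtain ⟨d0, da, db, dg, hd⟩ := HgR_affine p (2 * j3 p) (5 * (j2 p * j3 p)) (z9 p)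
  unfold rh at s1 s2 ⊢
  unfold Gt at s1 s2 g0 v1 v3 v4
  rw [hc, hc, hd] at s1 s2
  rw [hc] at g0 v1 v3 v4
  rw [hd]
  rw [e3] at s1 v1 v4
  rw [e1, e3] at s2 v3
  push_cast at s1 s2
  -- combine
  have g1 : c0 + (p : ZMod (p ^ 2)) * (1 * ca + 1 * cb + 2 * cg) = Cc p h * (1 - 12 * a - 9 * b) := by
    linear_combination 3 * v1 + 2 * v3 - 4 * v4 - ((p : ZMod (p ^ 2)) * (ca + cb + 2 * cg)) * e4
  have u45 : IsUnit (45 : ZMod (p ^ 2)) := by
    have h5 := isUnit_nat p (ndvd p h h6 hpos (k := 5) (by omega) (by omega))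
    have h3 := three_unit p h h6 hpos
    have : (45 : ZMod (p ^ 2)) = 3 * 3 * ((5 : ℕ) : ZMod (p ^ 2)) := by push_cast; norm_num
    rw [this]
    exact (h3.mul h3).mul h5
  apply u45.mul_left_cancel
  linear_combination (-5) * s1 - 4 * s2 + 36 * g0 + (36 * K) * g1 + (9 * Cc p h) * hK +
    (36 * K * (p : ZMod (p ^ 2)) * (ca + cb)) * e4

end

end Pool.Agent.Lib.Pffaf6e
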